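import Pool.Agent.Helper17.BHC.Defs

/-!
BHC Amen: the orbits of an (almost) measure preserving action of the free group are not contained
in the orbits of an amenable group.

Proof.  F = FreeGroup Bool, S (s, i) = FreeGroup.startsWith (s, i).  Let a_0, a_1, ... enumerate the
countable group A.  For x ∈ W, α ∈ A, h ∈ F let
Ref x α h :⟺ ∃ i, P (act h⁻¹ x) = ψ (a_i * α) (P x) ∧ ∀ j < i, ∀ h', P (act h' x) ≠ ψ (a_j * α) (P x).
The set {x | Ref x α h} is measurable.  For x in the good set (full measure: both hD and hfree) and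
α ∈ A there is exactly one h with Ref x α h: call it θ x α (existence: for a_i = α⁻¹, h = 1 the
first equation holds, take the least i for which some h works; uniqueness: P injective and the
action is free at x).
Also, if x is good, act (of s) x = y, P y = ψ β (P x): Ref y α h ⟺ Ref x (α β) ((of s)⁻¹ h) (the set
of the values P (act h' x), h' ∈ F, is the same for x and y).  So θ y α = of s * θ x (α β).
Fix a large N (say N = 100).  As P (gen s x) ∈ ψ A (P x) a.e. there is a finite B ⊆ A with
μ {x | ∀ β ∈ B, P (act (of s) x) ≠ ψ β (P x)} ≤ 1/100 for both s (continuity from above).  Take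
I, c from hF B N.  w x T := (number of i ∈ I with θ x (c i) ∈ T) / card I for T ⊆ F; it is measurable
in x, and Σ over the four letters t of w x (S t) ≤ 1.
For good x with act (of s) x = y, P y = ψ β (P x), β ∈ B:
w y (S (s, true)) = #{i | of s * θ x (c i * β) ∈ S (s, true)} / card I
 ≥ #{i | θ x (c i * β) ∉ S (s, false)} / card I   (`FreeGroup.startsWith_mk_mul`)
 ≥ #{i | θ x (c (π i)) ∉ S (s, false)} / card I - 1/N = 1 - w x (S (s, false)) - 1/N.
Here of s = FreeGroup.mk [(s, true)].  Since T s x = act (of s) x outside a set of measure ≤ 1/10,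
and T s preserves μ : ∫ w x (S (s, true)) dμ = ∫ w (T s x) (S (s, true)) dμ
 ≥ (1 - 1/10 - 1/100) (1 - 1/N) - ∫ w x (S (s, false)) dμ (roughly), i.e.
∫ (w x (S (s, true)) + w x (S (s, false))) dμ ≥ 0.8 for s = true and s = false; the sum is ≥ 1.6,
but it is ≤ 1.  (Integrals of nonnegative bounded measurable functions; lintegral or integral.)
-/

set_option autoImplicit false

namespace Pool.Agent.Helper17.BHC

open MeasureTheory Filter Topology

namespace Amen

section
variable {W : Type} {act : FreeGroup Bool →* Equiv.Perm W} {A : Type} [Group A]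
    {ψ : A →* Equiv.Perm ℝ} {P : W → ℝ} {a : ℕ → A}

/-- The relation that defines the retraction onto the orbit of the free group. -/
def Ref (act : FreeGroup Bool →* Equiv.Perm W) (ψ : A →* Equiv.Perm ℝ) (P : W → ℝ) (a : ℕ → A)
    (x : W) (α : A) (h : FreeGroup Bool) : Prop :=
  ∃ i, P (act h⁻¹ x) = ψ (a i * α) (P x) ∧ ∀ j < i, ∀ h', P (act h' x) ≠ ψ (a j * α) (P x)

theorem exists_ref (ha : Function.Surjective a) (x : W) (α : A) : ∃ h, Ref act ψ P a x α h := by
  classical
  have hex : ∃ i, ∃ h, P (act h x) = ψ (a i * α) (P x) := by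
    obtain ⟨i, hi⟩ := ha α⁻¹
    refine ⟨i, 1, ?_⟩
    rw [hi, inv_mul_cancel, map_one, map_one]
    rfl
  obtain ⟨h, hh⟩ := Nat.find_spec hex
  refine ⟨h⁻¹, Nat.find hex, ?_, fun j hj h' he => Nat.find_min hex hj ⟨h', he⟩⟩
  rw [inv_inv]
  exact hh

theorem ref_unique (hinj : Function.Injective P) {x : W} (hfree : ∀ h, act h x = x → h = 1)
    {α : A} {h h' : FreeGroup Bool} (h1 : Ref act ψ P a x α h) (h2 : Ref act ψ P a x α h') :
    h = h' := by
  obtain ⟨i, hi, him⟩ := h1
  obtain ⟨i', hi', him'⟩ := h2
  have hii : i = i' := by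
    rcases lt_trichotomy i i' with h1 | h1 | h1
    · exact absurd hi (him' i h1 _)
    · exact h1
    · exact absurd hi' (him i' h1 _)
  subst hii
  have h3 : act h⁻¹ x = act h'⁻¹ x := hinj (hi.trans hi'.symm)
  have h4 : act (h' * h⁻¹) x = x := by
    rw [map_mul, Equiv.Perm.mul_apply, h3, ← Equiv.Perm.mul_apply, ← map_mul, mul_inv_cancel,
      map_one]
    rfl
  exact (mul_inv_eq_one.1 (hfree _ h4)).symm

theorem ref_act {x : W} {g : FreeGroup Bool} {β : A} (hy : P (act g x) = ψ β (P x)) {α : A}
    {h : FreeGroup Bool} (h1 : Ref act ψ P a x (α * β) h) :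
    Ref act ψ P a (act g x) α (g * h) := by
  obtain ⟨i, hi, him⟩ := h1
  have hψ : ∀ j, ψ (a j * α) (P (act g x)) = ψ (a j * (α * β)) (P x) := by
    intro j
    rw [hy, ← Equiv.Perm.mul_apply, ← map_mul, mul_assoc]
  refine ⟨i, ?_, ?_⟩
  · rw [hψ, ← hi, ← Equiv.Perm.mul_apply, ← map_mul]
    congr 3
    group
  · intro j hj h' he
    apply him j hj (h' * g)
    rw [← hψ, ← he, map_mul, Equiv.Perm.mul_apply]

theorem measurable_ref [MeasurableSpace W] [Countable (FreeGroup Bool)]
    (hact : ∀ h, Measurable (act h)) (hψ : ∀ b, Measurable (ψ b)) (hP : Measurable P) (α : A)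
    (h : FreeGroup Bool) : MeasurableSet {x | Ref act ψ P a x α h} := by
  have hm : ∀ (g : FreeGroup Bool) (b : A), MeasurableSet {x | P (act g x) = ψ b (P x)} :=
    fun g b => measurableSet_eq_fun (hP.comp (hact g)) ((hψ b).comp hP)
  have heq : {x | Ref act ψ P a x α h} = ⋃ i : ℕ, ({x | P (act h⁻¹ x) = ψ (a i * α) (P x)} ∩
      ⋂ j : ℕ, ⋂ (_ : j < i), ⋂ h' : FreeGroup Bool, {x | P (act h' x) = ψ (a j * α) (P x)}ᶜ) := by
    ext x
    simp only [Ref, Set.mem_ofPred_eq, Set.mem_iUnion, Set.mem_inter_iff, Set.mem_iInter,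
      Set.mem_compl_iff, ne_eq]
  rw [heq]
  exact MeasurableSet.iUnion fun i => (hm _ _).inter (MeasurableSet.iInter fun j =>
    MeasurableSet.iInter fun _ => MeasurableSet.iInter fun h' => (hm _ _).compl)

end

end Amen

open Amen

theorem amenable_contra {W : Type} [MeasurableSpace W] (μ : Measure W) [IsProbabilityMeasure μ]
    (act : FreeGroup Bool →* Equiv.Perm W) (hact : ∀ h, Measurable (act h))
    {A : Type} [Group A] [Countable A] (ψ : A →* Equiv.Perm ℝ) (hψ : ∀ a, Measurable (ψ a))
    (P : W → ℝ) (hP : Measurable P) (hinj : Function.Injective P)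
    (hD : ∀ᵐ x ∂μ, ∀ h, ∃ a, P (act h x) = ψ a (P x))
    (hfree : ∀ᵐ x ∂μ, ∀ h, act h x = x → h = 1)
    (T : Bool → W → W) (hT : ∀ s, MeasurePreserving (T s) μ μ)
    (hTs : ∀ s, μ {x | T s x ≠ act (FreeGroup.of s) x} ≤ 1 / 10)
    (hF : ∀ (B : Finset A) (N : ℕ), ∃ (I : Type) (_ : Finite I) (_ : Nonempty I) (c : I → A),
      ∀ β ∈ B, ∃ π : Equiv.Perm I, N * Nat.card {i // c (π i) ≠ c i * β} ≤ Nat.card I) :
    False := by
  classical
  obtain ⟨a, ha⟩ := exists_surjective_nat A
  have hcF : Countable (FreeGroup Bool) := FreeGroup.toWord_injective.countable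
  have hm : ∀ (g : FreeGroup Bool) (b : A), MeasurableSet {x | P (act g x) = ψ b (P x)} :=
    fun g b => measurableSet_eq_fun (hP.comp (hact g)) ((hψ b).comp hP)
  -- the finite set `B`
  have hms : ∀ (s : Bool) (n : ℕ),
      MeasurableSet {x | ∀ j ≤ n, P (act (FreeGroup.of s) x) ≠ ψ (a j) (P x)} := by
    intro s n
    have heq : {x | ∀ j ≤ n, P (act (FreeGroup.of s) x) ≠ ψ (a j) (P x)} =
        ⋂ j : ℕ, ⋂ (_ : j ≤ n), {x | P (act (FreeGroup.of s) x) = ψ (a j) (P x)}ᶜ := by
      ext x
      simp only [Set.mem_ofPred_eq, Set.mem_iInter, Set.mem_compl_iff, ne_eq]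
    rw [heq]
    exact MeasurableSet.iInter fun j => MeasurableSet.iInter fun _ => (hm _ _).compl
  have hB : ∀ s, ∃ n : ℕ,
      μ {x | ∀ j ≤ n, P (act (FreeGroup.of s) x) ≠ ψ (a j) (P x)} ≤ 1 / 100 := by
    intro s
    have hant : Antitone
        (fun n : ℕ => {x | ∀ j ≤ n, P (act (FreeGroup.of s) x) ≠ ψ (a j) (P x)}) :=
      fun m n hmn x hx j hj => hx j (hj.trans hmn)
    have hlim := tendsto_measure_iInter_atTop (μ := μ)
      (fun n => (hms s n).nullMeasurableSet) hant ⟨0, measure_ne_top _ _⟩
    have h0 : μ (⋂ n : ℕ, {x | ∀ j ≤ n, P (act (FreeGroup.of s) x) ≠ ψ (a j) (P x)}) = 0 := by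
      refine measure_mono_null (fun x hx => ?_) (ae_iff.1 hD)
      intro hall
      obtain ⟨b, hb⟩ := hall (FreeGroup.of s)
      obtain ⟨j, rfl⟩ := ha b
      exact (Set.mem_iInter.1 hx j) j le_rfl hb
    rw [h0] at hlim
    have h1 : (0 : ENNReal) < 1 / 100 := by
      simp only [one_div, ENNReal.inv_pos]
      exact ENNReal.ofNat_ne_top
    exact (hlim.eventually_le_const h1).exists
  choose nB hnB using hB
  set B : Finset A := (Finset.range (max (nB true) (nB false) + 1)).image a with hBdef
  have hBmem : ∀ s, ∀ j ≤ nB s, a j ∈ B := by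
    intro s j hj
    refine Finset.mem_image_of_mem a (Finset.mem_range.2 ?_)
    have h1 : nB s ≤ max (nB true) (nB false) := by
      cases s
      · exact le_max_right _ _
      · exact le_max_left _ _
    omega
  obtain ⟨I, hIf, hIn, c, hc⟩ := hF B 100
  have := Fintype.ofFinite I
  set n := Fintype.card I with hn
  have hn0 : 0 < n := Fintype.card_pos
  -- the bad sets
  set Bad : Bool → Set W := fun s => {x | P (T s x) ≠ P (act (FreeGroup.of s) x)} ∪
    {x | ∀ j ≤ nB s, P (act (FreeGroup.of s) x) ≠ ψ (a j) (P x)} with hBad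
  have hBadm : ∀ s, MeasurableSet (Bad s) := fun s =>
    (measurableSet_eq_fun (hP.comp (hT s).measurable)
      (hP.comp (hact (FreeGroup.of s)))).compl.union (hms s _)
  have hBadμ : ∀ s, μ.real (Bad s) ≤ 11 / 100 := by
    intro s
    have h1 : μ (Bad s) ≤ 1 / 10 + 1 / 100 := by
      refine (measure_union_le _ _).trans (add_le_add ?_ (hnB s))
      refine (measure_mono fun x hx => ?_).trans (hTs s)
      intro he
      apply hx
      rw [he]
    have h2 := ENNReal.toReal_mono (by
      refine ENNReal.add_ne_top.2 ⟨?_, ?_⟩ <;>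
      exact ENNReal.div_ne_top ENNReal.one_ne_top (by norm_num)) h1
    refine h2.trans (le_of_eq ?_)
    rw [ENNReal.toReal_add (ENNReal.div_ne_top ENNReal.one_ne_top (by norm_num))
      (ENNReal.div_ne_top ENNReal.one_ne_top (by norm_num)), ENNReal.toReal_div, ENNReal.toReal_div]
    norm_num
  -- the events
  set Ev : Bool → Bool → I → Set W := fun s b i =>
    {x | ∃ h, h ∈ FreeGroup.startsWith (s, b) ∧ Ref act ψ P a x (c i) h} with hEv
  have hEvm : ∀ s b i, MeasurableSet (Ev s b i) := by
    intro s b i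
    have heq : Ev s b i = ⋃ h : FreeGroup Bool, ⋃ (_ : h ∈ FreeGroup.startsWith (s, b)),
        {x | Ref act ψ P a x (c i) h} := by
      ext x
      simp only [hEv, Set.mem_ofPred_eq, Set.mem_iUnion, exists_prop]
    rw [heq]
    exact MeasurableSet.iUnion fun h => MeasurableSet.iUnion fun _ =>
      measurable_ref hact hψ hP _ _
  -- pointwise inequality
  have hpt : ∀ (s : Bool) (x : W), x ∉ Bad s →
      100 * n ≤ 100 * ((Finset.univ.filter fun i => T s x ∈ Ev s true i).card +
        (Finset.univ.filter fun i => x ∈ Ev s false i).card) + n := by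
    intro s x hx
    have hx1 : T s x = act (FreeGroup.of s) x := by
      by_contra h
      exact hx (Or.inl fun he => h (hinj he))
    have hx2 : ∃ j ≤ nB s, P (act (FreeGroup.of s) x) = ψ (a j) (P x) := by
      by_contra h
      push Not at h
      exact hx (Or.inr h)
    obtain ⟨j, hj, hjx⟩ := hx2
    obtain ⟨π, hπ⟩ := hc (a j) (hBmem s j hj)
    rw [Nat.card_eq_fintype_card, Nat.card_eq_fintype_card, Fintype.card_subtype, ← hn] at hπ
    have hsub : (Finset.univ : Finset I) ⊆ (Finset.univ.filter fun i => c (π i) ≠ c i * a j) ∪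
        ((Finset.univ.filter fun i => x ∈ Ev s false (π i)) ∪
        (Finset.univ.filter fun i => T s x ∈ Ev s true i)) := by
      intro i _
      by_cases h1 : c (π i) = c i * a j
      · by_cases h2 : x ∈ Ev s false (π i)
        · exact Finset.mem_union_right _ (Finset.mem_union_left _
            (Finset.mem_filter.2 ⟨Finset.mem_univ _, h2⟩))
        · refine Finset.mem_union_right _ (Finset.mem_union_right _
            (Finset.mem_filter.2 ⟨Finset.mem_univ _, ?_⟩))
          obtain ⟨h, hh⟩ := exists_ref (act := act) (ψ := ψ) (P := P) ha x (c i * a j)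
          have h3 : h ∉ FreeGroup.startsWith (s, false) := fun h4 =>
            h2 ⟨h, h4, by rw [h1]; exact hh⟩
          rw [hx1]
          exact ⟨FreeGroup.of s * h, FreeGroup.startsWith_mk_mul (w := (s, true)) h h3,
            ref_act hjx hh⟩
      · exact Finset.mem_union_left _ (Finset.mem_filter.2 ⟨Finset.mem_univ _, h1⟩)
    have hcard := (Finset.card_le_card hsub).trans ((Finset.card_union_le _ _).trans
      (Nat.add_le_add_left (Finset.card_union_le _ _) _))
    have hbij : (Finset.univ.filter fun i => x ∈ Ev s false (π i)).card =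
        (Finset.univ.filter fun i => x ∈ Ev s false i).card := by
      refine Finset.card_bij (fun i _ => π i) (fun i hi => ?_) (fun i _ j _ h => π.injective h)
        (fun i hi => ⟨π.symm i, ?_, π.apply_symm_apply i⟩)
      · exact Finset.mem_filter.2 ⟨Finset.mem_univ _, (Finset.mem_filter.1 hi).2⟩
      · refine Finset.mem_filter.2 ⟨Finset.mem_univ _, ?_⟩
        rw [π.apply_symm_apply]
        exact (Finset.mem_filter.1 hi).2
    rw [hbij, Finset.card_univ, ← hn] at hcard
    omega
  -- integrals
  have hind : ∀ S : Set W, MeasurableSet S → Integrable (S.indicator fun _ => (1 : ℝ)) μ :=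
    fun S hS => (integrable_const (1 : ℝ)).indicator hS
  have hindI : ∀ S : Set W, MeasurableSet S → ∫ x, S.indicator (fun _ => (1 : ℝ)) x ∂μ = μ.real S := by
    intro S hS
    rw [integral_indicator hS, setIntegral_const, smul_eq_mul, mul_one]
  have hcnt : ∀ (S : I → Set W) (x : W),
      ∑ i, (S i).indicator (fun _ => (1 : ℝ)) x =
        ((Finset.univ.filter fun i => x ∈ S i).card : ℝ) := by
    intro S x
    simp only [Set.indicator_apply]
    rw [Finset.sum_boole]
  have hkey : ∀ s : Bool, 100 * (n : ℝ) ≤ 100 * ((∑ i, μ.real (Ev s true i)) +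
      ∑ i, μ.real (Ev s false i)) + n + 100 * n * μ.real (Bad s) := by
    intro s
    have hmT : ∀ i, MeasurableSet (T s ⁻¹' Ev s true i) := fun i =>
      (hT s).measurable (hEvm s true i)
    have hi1 : Integrable (fun x => ∑ i, (T s ⁻¹' Ev s true i).indicator (fun _ => (1 : ℝ)) x) μ :=
      integrable_finsetSum _ fun i _ => hind _ (hmT i)
    have hi2 : Integrable (fun x => ∑ i, (Ev s false i).indicator (fun _ => (1 : ℝ)) x) μ :=
      integrable_finsetSum _ fun i _ => hind _ (hEvm s false i)
    have hi12 : Integrable (fun x => (∑ i, (T s ⁻¹' Ev s true i).indicator (fun _ => (1 : ℝ)) x) +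
        ∑ i, (Ev s false i).indicator (fun _ => (1 : ℝ)) x) μ := hi1.add hi2
    have hi3 : Integrable (fun x => 100 * ((∑ i, (T s ⁻¹' Ev s true i).indicator
        (fun _ => (1 : ℝ)) x) + ∑ i, (Ev s false i).indicator (fun _ => (1 : ℝ)) x) + n) μ :=
      (hi12.const_mul 100).add (integrable_const _)
    have hi4 : Integrable (fun x => 100 * (n : ℝ) * (Bad s).indicator (fun _ => (1 : ℝ)) x) μ :=
      (hind _ (hBadm s)).const_mul _
    have hle : ∫ _ : W, 100 * (n : ℝ) ∂μ ≤ ∫ x, ((100 * ((∑ i, (T s ⁻¹' Ev s true i).indicator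
        (fun _ => (1 : ℝ)) x) + ∑ i, (Ev s false i).indicator (fun _ => (1 : ℝ)) x) + n) +
        100 * (n : ℝ) * (Bad s).indicator (fun _ => (1 : ℝ)) x) ∂μ := by
      refine integral_mono (integrable_const _) (hi3.add hi4) fun x => ?_
      simp only
      rw [hcnt, hcnt]
      by_cases hx : x ∈ Bad s
      · rw [Set.indicator_of_mem hx]
        have h1 : (0 : ℝ) ≤ (Finset.univ.filter fun i => x ∈ T s ⁻¹' Ev s true i).card :=
          Nat.cast_nonneg _
        have h2 : (0 : ℝ) ≤ (Finset.univ.filter fun i => x ∈ Ev s false i).card :=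
          Nat.cast_nonneg _
        have h3 : (0 : ℝ) ≤ n := Nat.cast_nonneg _
        linarith
      · rw [Set.indicator_of_notMem hx]
        have h1 : ((100 * n : ℕ) : ℝ) ≤ ((100 * ((Finset.univ.filter fun i =>
            T s x ∈ Ev s true i).card + (Finset.univ.filter fun i =>
            x ∈ Ev s false i).card) + n : ℕ) : ℝ) := Nat.cast_le.2 (hpt s x hx)
        push_cast at h1
        simp only [Set.mem_preimage]
        linarith
    have hL : ∫ _ : W, 100 * (n : ℝ) ∂μ = 100 * n := by simp
    rw [hL, integral_add hi3 hi4, integral_add (hi12.const_mul 100) (integrable_const _),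
      integral_const_mul, integral_add hi1 hi2, integral_finsetSum _ fun i _ => hind _ (hmT i),
      integral_finsetSum _ fun i _ => hind _ (hEvm s false i), integral_const_mul,
      hindI _ (hBadm s)] at hle
    have hL2 : ∫ _ : W, (n : ℝ) ∂μ = n := by simp
    rw [hL2] at hle
    have h1 : ∀ i, ∫ x, (T s ⁻¹' Ev s true i).indicator (fun _ => (1 : ℝ)) x ∂μ =
        μ.real (Ev s true i) := by
      intro i
      rw [hindI _ (hmT i)]
      simp only [Measure.real]
      rw [(hT s).measure_preimage (hEvm s true i).nullMeasurableSet]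
    have h2 : ∀ i, ∫ x, (Ev s false i).indicator (fun _ => (1 : ℝ)) x ∂μ =
        μ.real (Ev s false i) := fun i => hindI _ (hEvm s false i)
    simp only [h1, h2] at hle
    exact hle
  -- the four letters
  have hfour : ∀ i, (μ.real (Ev true true i) + μ.real (Ev true false i)) +
      (μ.real (Ev false true i) + μ.real (Ev false false i)) ≤ 1 := by
    intro i
    have j1 : Integrable (fun x => (Ev true true i).indicator (fun _ => (1 : ℝ)) x +
        (Ev true false i).indicator (fun _ => (1 : ℝ)) x) μ :=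
      (hind _ (hEvm true true i)).add (hind _ (hEvm true false i))
    have j2 : Integrable (fun x => (Ev false true i).indicator (fun _ => (1 : ℝ)) x +
        (Ev false false i).indicator (fun _ => (1 : ℝ)) x) μ :=
      (hind _ (hEvm false true i)).add (hind _ (hEvm false false i))
    rw [← hindI _ (hEvm true true i), ← hindI _ (hEvm true false i), ← hindI _ (hEvm false true i),
      ← hindI _ (hEvm false false i),
      ← integral_add (hind _ (hEvm true true i)) (hind _ (hEvm true false i)),
      ← integral_add (hind _ (hEvm false true i)) (hind _ (hEvm false false i)),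
      ← integral_add j1 j2]
    have h1 : ∫ _ : W, (1 : ℝ) ∂μ = 1 := by simp
    refine le_trans (integral_mono_ae (j1.add j2) (integrable_const (1 : ℝ)) ?_) (le_of_eq h1)
    filter_upwards [hfree] with x hx
    have hdis : ∀ s b s' b', x ∈ Ev s b i → x ∈ Ev s' b' i → (s, b) = (s', b') := by
      intro s b s' b' h1 h2
      obtain ⟨h, hh, hr⟩ := h1
      obtain ⟨h', hh', hr'⟩ := h2
      have h3 := ref_unique hinj hx hr hr'
      subst h3
      by_contra hne
      exact (FreeGroup.startsWith.disjoint_iff_ne.2 hne).notMem_of_mem_left hh hh'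
    simp only [Set.indicator_apply]
    by_cases h1 : x ∈ Ev true true i <;> by_cases h2 : x ∈ Ev true false i <;>
      by_cases h3 : x ∈ Ev false true i <;> by_cases h4 : x ∈ Ev false false i <;>
      first
      | (exfalso; have := hdis _ _ _ _ h1 h2; simp at this)
      | (exfalso; have := hdis _ _ _ _ h1 h3; simp at this)
      | (exfalso; have := hdis _ _ _ _ h1 h4; simp at this)
      | (exfalso; have := hdis _ _ _ _ h2 h3; simp at this)
      | (exfalso; have := hdis _ _ _ _ h2 h4; simp at this)
      | (exfalso; have := hdis _ _ _ _ h3 h4; simp at this)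
      | simp [h1, h2, h3, h4]
  have hsum := Finset.sum_le_sum fun i (_ : i ∈ (Finset.univ : Finset I)) => hfour i
  rw [Finset.sum_add_distrib, Finset.sum_add_distrib, Finset.sum_add_distrib, Finset.sum_const,
    Finset.card_univ, ← hn, nsmul_eq_mul, mul_one] at hsum
  have hk1 := hkey true
  have hk2 := hkey false
  have hn' : (0 : ℝ) < n := by exact_mod_cast hn0
  have hb1 := mul_le_mul_of_nonneg_left (hBadμ true) (by positivity : (0 : ℝ) ≤ 100 * n)
  have hb2 := mul_le_mul_of_nonneg_left (hBadμ false) (by positivity : (0 : ℝ) ≤ 100 * n)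
  linarith

end Pool.Agent.Helper17.BHC
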