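import Pool.Agent.Helper17.BHC.Defs
import Pool.Agent.Helper56.QV.RealLike
import Pool.Agent.Helper56.QV.Comp

/-!
BHC Big: a countable group of automorphisms of the real line that generates the quasi-variety of all
lattice-ordered groups.

Proof.  There are countably many quasi-identities (`countable_qid` in Pool.Agent.Helper56.QV.Cont, or
directly by `QId.code`).  For each φ : QId which does not hold in ℝ ≃o ℝ choose x φ : ℕ → (ℝ ≃o ℝ)
with the premises true and the conclusion false.  Γ = the subgroup generated by all x φ n and all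
the a.toIso, a : Aff; countable.  Let X be dense and Γ-invariant.  If φ does not hold in some
l-group G then φ does not hold in ℝ ≃o ℝ (RealFibred for Ω = ℝ, p = id:
`Fib.holds`, Pool.Agent.Helper56.QV.RealLike); restrict x φ n to X: y n : X ≃o X.  For every term t
the value t.eval y is the restriction of t.eval (x φ) (induction on t: products, inverses, pointwise
max and min), so the premises are true for y; the conclusion is false for y since X is dense and
automorphisms of ℝ are continuous.  So φ does not hold in X ≃o X.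
-/

set_option autoImplicit false

namespace Pool.Agent.Helper17.BHC

open Pool.Agent.Helper56.QV

universe u

namespace Big

/-- order isomorphism of one-point fibres -/
def ptIso (x y : ℝ) :
    {z : ℝ // z ∈ (Set.univ : Set ℝ) ∧ id z = x} ≃o {z : ℝ // z ∈ (Set.univ : Set ℝ) ∧ id z = y} where
  toFun _ := ⟨y, trivial, rfl⟩
  invFun _ := ⟨x, trivial, rfl⟩
  left_inv z := Subtype.ext z.2.2.symm
  right_inv z := Subtype.ext z.2.2.symm
  map_rel_iff' := by
    intro a b
    constructor
    · intro _
      have h1 : (a : ℝ) = x := a.2.2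
      have h2 : (b : ℝ) = x := b.2.2
      exact Subtype.coe_le_coe.1 (by rw [h1, h2])
    · intro _
      exact le_rfl

/-- the real line, fibred over itself -/
def fibR : Fib ℝ where
  J := Set.univ
  conv := Set.ordConnected_univ
  ne := Set.univ_nonempty
  p := id
  mono := fun _ _ _ _ h => h
  hq := fun x y => ⟨ptIso x y⟩
  hi := fun x y _ _ => ⟨ptIso x y⟩

theorem exists_witness (φ : QId) : ∃ x : ℕ → (ℝ ≃o ℝ), ¬ φ.Holds (ℝ ≃o ℝ) →
    (∀ e ∈ φ.prem, e.1.eval x = e.2.eval x) ∧ φ.concl.1.eval x ≠ φ.concl.2.eval x := by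
  by_cases h : φ.Holds (ℝ ≃o ℝ)
  · exact ⟨fun _ => 1, fun h' => absurd h h'⟩
  · unfold QId.Holds at h
    push Not at h
    obtain ⟨x, h1, h2⟩ := h
    exact ⟨x, fun _ => ⟨h1, h2⟩⟩

/-- restriction of an automorphism of the real line to an invariant set -/
def rest {X : Set ℝ} (γ : ℝ ≃o ℝ) (h : ∀ p, γ p ∈ X ↔ p ∈ X) : X ≃o X where
  toFun p := ⟨γ p, (h p).2 p.2⟩
  invFun p := ⟨γ.symm p, (h _).1 (by rw [γ.apply_symm_apply]; exact p.2)⟩
  left_inv p := Subtype.ext (γ.symm_apply_apply _)
  right_inv p := Subtype.ext (γ.apply_symm_apply _)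
  map_rel_iff' := by
    intro a b
    exact γ.le_iff_le

theorem eval_rest {X : Set ℝ} {x : ℕ → (ℝ ≃o ℝ)} {y : ℕ → (X ≃o X)}
    (h : ∀ n (p : X), ((y n p : X) : ℝ) = x n p) (t : Tm) :
    ∀ p : X, ((t.eval y p : X) : ℝ) = t.eval x p := by
  induction t with
  | var n => exact h n
  | one => exact fun p => rfl
  | mul s t ihs iht =>
    intro p
    change ((s.eval y (t.eval y p) : X) : ℝ) = s.eval x (t.eval x p)
    rw [ihs, iht]
  | inv t ih =>
    intro p
    change (((t.eval y)⁻¹ p : X) : ℝ) = (t.eval x)⁻¹ p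
    have h1 : t.eval x ((((t.eval y)⁻¹ p : X) : ℝ)) = p := by
      rw [← ih]
      exact congrArg Subtype.val ((t.eval y).apply_symm_apply p)
    have h2 : (t.eval x)⁻¹ (t.eval x ((((t.eval y)⁻¹ p : X) : ℝ))) = (t.eval x)⁻¹ p := by
      rw [h1]
    rw [← h2]
    exact ((t.eval x).symm_apply_apply _).symm
  | inf s t ihs iht =>
    intro p
    change ((min (s.eval y p) (t.eval y p) : X) : ℝ) = min (s.eval x p) (t.eval x p)
    rw [← ihs, ← iht]
    rcases le_total (s.eval y p) (t.eval y p) with hle | hle
    · rw [min_eq_left hle, min_eq_left (Subtype.coe_le_coe.2 hle)]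
    · rw [min_eq_right hle, min_eq_right (Subtype.coe_le_coe.2 hle)]
  | sup s t ihs iht =>
    intro p
    change ((max (s.eval y p) (t.eval y p) : X) : ℝ) = max (s.eval x p) (t.eval x p)
    rw [← ihs, ← iht]
    rcases le_total (s.eval y p) (t.eval y p) with hle | hle
    · rw [max_eq_right hle, max_eq_right (Subtype.coe_le_coe.2 hle)]
    · rw [max_eq_left hle, max_eq_left (Subtype.coe_le_coe.2 hle)]

theorem countable_aff : Countable Aff := by
  have h : Function.Injective (fun a : Aff => (a.l, a.z)) := by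
    intro a b hab
    have h1 := congrArg Prod.fst hab
    have h2 := congrArg Prod.snd hab
    exact Aff.ext h1 h2
  exact h.countable

end Big

open Big

theorem exists_big_group : ∃ Γ : Subgroup (ℝ ≃o ℝ), (Γ : Set (ℝ ≃o ℝ)).Countable ∧
    (∀ a : Aff, a.toIso ∈ Γ) ∧
    ∀ X : Set ℝ, Dense X → (∀ γ ∈ Γ, ∀ p, γ p ∈ X ↔ p ∈ X) →
      ∀ (G : Type u) [LGroup G], InQV (X ≃o X) G := by
  have hcQ : Countable QId := QId.code_injective.countable
  have hcA : Countable Aff := countable_aff
  choose xs hxs using exists_witness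
  set S : Set (ℝ ≃o ℝ) := Set.range (fun p : QId × ℕ => xs p.1 p.2) ∪ Set.range Aff.toIso with hS
  have hSc : S.Countable := (Set.countable_range _).union (Set.countable_range _)
  refine ⟨Subgroup.closure S, ?_, fun a => Subgroup.subset_closure (Or.inr ⟨a, rfl⟩), ?_⟩
  · have : Countable S := hSc.to_subtype
    have hF : Countable (FreeGroup S) := by
      classical
      exact FreeGroup.toWord_injective.countable
    rw [FreeGroup.closure_eq_range, MonoidHom.coe_range]
    exact Set.countable_range _
  · intro X hX hinv G _ φ hφ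
    by_contra hG
    have hR : ¬ φ.Holds (ℝ ≃o ℝ) := fun h => hG (fibR.holds h G)
    obtain ⟨h1, h2⟩ := hxs φ hR
    have hmem : ∀ n p, xs φ n p ∈ X ↔ p ∈ X := fun n p =>
      hinv (xs φ n) (Subgroup.subset_closure (Or.inl ⟨(φ, n), rfl⟩)) p
    set y : ℕ → (X ≃o X) := fun n => rest (xs φ n) (hmem n) with hy
    have hyx : ∀ n (p : X), ((y n p : X) : ℝ) = xs φ n p := fun n p => rfl
    have hev := eval_rest hyx
    apply h2
    have h3 := hφ y (fun e he => by
      apply OrderIso.ext
      funext p
      apply Subtype.ext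
      rw [hev, hev, h1 e he])
    apply OrderIso.ext
    refine Continuous.ext_on hX (OrderIso.continuous _) (OrderIso.continuous _) ?_
    intro p hp
    have h4 := hev φ.concl.1 ⟨p, hp⟩
    have h5 := hev φ.concl.2 ⟨p, hp⟩
    rw [h3] at h4
    rw [← h4, ← h5]

end Pool.Agent.Helper17.BHC
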