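import Pool.Agent.Helper17.BHC.Defs

/-!
BHC Borel: a Borel set is not a Bernstein set.

Proof.  X or its complement is uncountable; let S be an uncountable measurable set, S = X or Xᶜ.
S is the injective (indeed Borel isomorphic) image of a Polish space: refine the topology
(`MeasurableSet.isClopenable`) so that S is clopen, hence Polish in the finer topology; S is an
uncountable Polish space, so there is a continuous injection (ℕ → Bool) → S
(`Perfect.exists_nat_bool_injection`, `IsClosed.exists_nat_bool_injection_of_not_countable`),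
continuous for the finer topology, hence for the usual one; its image is compact, uncountable and
inside S.
-/

set_option autoImplicit false

namespace Pool.Agent.Helper17.BHC

private theorem bor_sub (S : Set ℝ) (hS : MeasurableSet S) (hu : ¬ S.Countable) :
    ∃ K : Set ℝ, IsClosed K ∧ ¬ K.Countable ∧ K ⊆ S := by
  obtain ⟨f, hf1, hf, hf3⟩ : ∃ f : (ℕ → Bool) → ℝ, Set.range f ⊆ S ∧ Continuous f ∧
      Function.Injective f := by
    obtain ⟨t', ht', hpol, hcl, -⟩ := hS.isClopenable
    obtain ⟨f, hf1, hf2, hf3⟩ :=
      @IsClosed.exists_nat_bool_injection_of_not_countable ℝ t' hpol S hcl hu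
    exact ⟨f, hf1, continuous_le_rng ht' hf2, hf3⟩
  refine ⟨Set.range f, (isCompact_range hf).isClosed, fun hc => ?_, hf1⟩
  have h1 : Countable (Set.range f) := hc.to_subtype
  have h2 : Countable (ℕ → Bool) :=
    (Set.rangeFactorization_injective.2 hf3).countable
  obtain ⟨g, hg⟩ := exists_surjective_nat (ℕ → Bool)
  obtain ⟨m, hm⟩ := hg fun n => !(g n n)
  have h4 := congrFun hm m
  cases h5 : g m m <;> simp [h5] at h4

theorem exists_closed_of_measurable (X : Set ℝ) (hX : MeasurableSet X) :
    ∃ K : Set ℝ, IsClosed K ∧ ¬ K.Countable ∧ (K ⊆ X ∨ K ∩ X = ∅) := by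
  by_cases hc : X.Countable
  · have h1 : ¬ (Xᶜ).Countable := fun h => by
      have h2 : (Set.univ : Set ℝ).Countable := by
        rw [← Set.union_compl_self X]
        exact hc.union h
      exact Set.not_countable_univ h2
    obtain ⟨K, hK1, hK2, hK3⟩ := bor_sub Xᶜ hX.compl h1
    refine ⟨K, hK1, hK2, Or.inr ?_⟩
    rw [← Set.disjoint_iff_inter_eq_empty]
    exact (Set.subset_compl_iff_disjoint_right).1 hK3
  · obtain ⟨K, hK1, hK2, hK3⟩ := bor_sub X hX hc
    exact ⟨K, hK1, hK2, Or.inl hK3⟩

end Pool.Agent.Helper17.BHC
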