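import Pool.Agent.Helper17.BHC.Defs

/-!
BHC Cantor: the Cantor function of an uncountable closed set with empty interior.

Statement: there are a < b and a function m which is monotone on the open interval (a, b) such that
the fibres of m over the rational numbers are the nondegenerate closed intervals [u, v] with end
points in K and the fibres over the irrational numbers are single points of K.
Proof.  Let C ⊆ K be perfect and nonempty (`exists_perfect_nonempty_of_isClosed_of_not_countable`),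
so C is closed, without isolated points, without interior.  Choose a < b in C (C is infinite).  Call
a gap a pair (u, v) with u < v, u, v ∈ C, (u, v) ∩ C = ∅, a < u, v < b.  (Because C is perfect one
may have to choose a so that it is not the left end point of a gap, and b not the right end point of
a gap: e.g. start with any a₀ < b₀ in C with a point of C in between (choose a₀, b₀ as two points of
C with infinitely many points of C between them), and put a = a₀ if a₀ is a limit of points of C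
from the right, otherwise replace a₀ by the right end point of the gap starting at a₀, which is a
limit from the right since C is perfect; similarly b.)
The set 𝓖 of the gaps, ordered by position, is countable (each contains a rational number),
nonempty, dense (between two gaps (u,v) < (u',v'): v < u' as C is perfect, so [v, u'] is not inside
C as C has no interior, so there is a gap between; perfectness: v is a limit from the right, u' a
limit from the left, this excludes that the only gap in between is adjacent to one of them; any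
complementary interval found strictly inside is a gap), and it has no least and no greatest element
(a is a limit of points of C from the right, and C has no interior).  So 𝓖 ≃o ℚ
(`Order.iso_of_countable_dense`).  m x = q if x belongs to the closed gap number q; for the other
x ∈ (a, b) (which are all in C) m x = sSup {q | gap number q < x} (a nonempty bounded set).
m is monotone.  For the other x ∈ C the cut ({q | gap q < x}, {q | x < gap q}) of ℚ has no greatest
element on the left (x is not the right end point of a gap; between the gap and x there is another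
gap) and no least on the right, so m x is irrational.  Two such points x < y have a gap between
them, so m x ≠ m y; for an irrational r the real s = sup of the gaps number q < r is in C, is not in
a closed gap and m s = r.
-/

set_option autoImplicit false

namespace Pool.Agent.Helper17.BHC

namespace CantorAux

theorem cplx {C : Set ℝ} (hC : IsClosed C) {x y z : ℝ} (hx : x ∈ C) (hy : y ∈ C)
    (hxz : x < z) (hzy : z < y) (hz : z ∉ C) :
    ∃ u v : ℝ, u ∈ C ∧ v ∈ C ∧ x ≤ u ∧ u < z ∧ z < v ∧ v ≤ y ∧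
      ∀ w, u < w → w < v → w ∉ C := by
  have h1 : (C ∩ Set.Iic z).Nonempty := ⟨x, hx, hxz.le⟩
  have h2 : BddAbove (C ∩ Set.Iic z) := ⟨z, fun w hw => hw.2⟩
  have h3 := (hC.inter isClosed_Iic).csSup_mem h1 h2
  have h4 : (C ∩ Set.Ici z).Nonempty := ⟨y, hy, hzy.le⟩
  have h5 : BddBelow (C ∩ Set.Ici z) := ⟨z, fun w hw => hw.2⟩
  have h6 := (hC.inter isClosed_Ici).csInf_mem h4 h5
  refine ⟨sSup (C ∩ Set.Iic z), sInf (C ∩ Set.Ici z), h3.1, h6.1,
    le_csSup h2 ⟨hx, hxz.le⟩, lt_of_le_of_ne h3.2 ?_, lt_of_le_of_ne h6.2 ?_,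
    csInf_le h5 ⟨hy, hzy.le⟩, ?_⟩
  · intro h
    exact hz (h ▸ h3.1)
  · intro h
    exact hz (h ▸ h6.1)
  · intro w hw1 hw2 hw
    rcases le_total w z with h | h
    · exact absurd (le_csSup h2 ⟨hw, h⟩) (not_le.2 hw1)
    · exact absurd (csInf_le h5 ⟨hw, h⟩) (not_le.2 hw2)

/-- limit of points of the set from the right -/
def SR (C : Set ℝ) (x : ℝ) : Prop := ∀ y, x < y → ∃ c ∈ C, x < c ∧ c < y

/-- limit of points of the set from the left -/
def SL (C : Set ℝ) (x : ℝ) : Prop := ∀ y, y < x → ∃ c ∈ C, y < c ∧ c < x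

theorem sr_or_sl {C : Set ℝ} (hP : Perfect C) {x : ℝ} (hx : x ∈ C) : SR C x ∨ SL C x := by
  by_contra hcon
  push Not at hcon
  obtain ⟨h1, h2⟩ := hcon
  unfold SR at h1
  unfold SL at h2
  push Not at h1 h2
  obtain ⟨y, hy, h1⟩ := h1
  obtain ⟨y', hy', h2⟩ := h2
  obtain ⟨c, ⟨hc1, hc2⟩, hc3⟩ := preperfect_iff_nhds.1 hP.acc x hx (Set.Ioo y' y)
    (Ioo_mem_nhds hy' hy)
  rcases lt_or_gt_of_ne hc3 with h | h
  · exact absurd (h2 c hc2 hc1.1) (not_le.2 h)
  · exact absurd (h1 c hc2 h) (not_le.2 hc1.2)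

/-- gaps -/
structure Gp (C : Set ℝ) (a b u v : ℝ) : Prop where
  uC : u ∈ C
  vC : v ∈ C
  uv : u < v
  au : a < u
  vb : v < b
  no : ∀ w, u < w → w < v → w ∉ C

section

variable {C : Set ℝ} {a b : ℝ}

theorem Gp.nsr {u v : ℝ} (h : Gp C a b u v) : ¬ SR C u := by
  intro h1
  obtain ⟨c, hc, h2, h3⟩ := h1 v h.uv
  exact h.no c h2 h3 hc

theorem Gp.nsl {u v : ℝ} (h : Gp C a b u v) : ¬ SL C v := by
  intro h1
  obtain ⟨c, hc, h2, h3⟩ := h1 u h.uv
  exact h.no c h2 h3 hc

theorem Gp.sl (hP : Perfect C) {u v : ℝ} (h : Gp C a b u v) : SL C u :=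
  (sr_or_sl hP h.uC).resolve_left h.nsr

theorem Gp.sr (hP : Perfect C) {u v : ℝ} (h : Gp C a b u v) : SR C v :=
  (sr_or_sl hP h.vC).resolve_right h.nsl

theorem gap_of_notMem (hC : IsClosed C) (ha : SR C a) (hb : SL C b) {z : ℝ} (h1 : a < z)
    (h2 : z < b) (hz : z ∉ C) : ∃ u v, Gp C a b u v ∧ u < z ∧ z < v := by
  obtain ⟨x, hx, hx1, hx2⟩ := ha z h1
  obtain ⟨y, hy, hy1, hy2⟩ := hb z h2
  obtain ⟨u, v, h3, h4, h5, h6, h7, h8, h9⟩ := cplx hC hx hy hx2 hy1 hz
  exact ⟨u, v, ⟨h3, h4, h6.trans h7, hx1.trans_le h5, h8.trans_lt hy2, h9⟩, h6, h7⟩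

theorem exists_notMem (hint : interior C = ∅) {x y : ℝ} (hxy : x < y) :
    ∃ z, x < z ∧ z < y ∧ z ∉ C := by
  by_contra hcon
  push Not at hcon
  have h1 : Set.Ioo x y ⊆ interior C :=
    interior_maximal (fun z hz => hcon z hz.1 hz.2) isOpen_Ioo
  obtain ⟨z, hz⟩ := Set.nonempty_Ioo.2 hxy
  have h2 := h1 hz
  rw [hint] at h2
  exact h2

theorem gap_right (hC : IsClosed C) (hint : interior C = ∅) (ha : SR C a) (hb : SL C b)
    {x y : ℝ} (hx : x = a ∨ (x ∈ C ∧ a < x)) (hsr : SR C x) (hxy : x < y) (hyb : y ≤ b) :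
    ∃ u v, Gp C a b u v ∧ x < u ∧ v < y := by
  obtain ⟨c, hc, hc1, hc2⟩ := hsr y hxy
  obtain ⟨z, hz1, hz2, hz⟩ := exists_notMem hint hc1
  have haz : a < z := by
    rcases hx with rfl | hx
    · exact hz1
    · exact hx.2.trans hz1
  obtain ⟨u, v, hg, hu, hv⟩ := gap_of_notMem hC ha hb haz ((hz2.trans hc2).trans_le hyb) hz
  refine ⟨u, v, hg, ?_, ?_⟩
  · rcases hx with rfl | hx
    · exact hg.au
    · rcases lt_trichotomy x u with h | h | h
      · exact h
      · subst h
        exact absurd hsr hg.nsr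
      · exact absurd hx.1 (hg.no x h (hz1.trans hv))
  · refine lt_of_le_of_lt ?_ hc2
    by_contra h
    push Not at h
    exact hg.no c (hu.trans hz2) h hc

theorem gap_left (hC : IsClosed C) (hint : interior C = ∅) (ha : SR C a) (hb : SL C b)
    {x y : ℝ} (hy : y = b ∨ (y ∈ C ∧ y < b)) (hsl : SL C y) (hxy : x < y) (hax : a ≤ x) :
    ∃ u v, Gp C a b u v ∧ x < u ∧ v < y := by
  obtain ⟨c, hc, hc1, hc2⟩ := hsl x hxy
  obtain ⟨z, hz1, hz2, hz⟩ := exists_notMem hint hc2
  have hzb : z < b := by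
    rcases hy with rfl | hy
    · exact hz2
    · exact hz2.trans hy.2
  obtain ⟨u, v, hg, hu, hv⟩ := gap_of_notMem hC ha hb ((hax.trans_lt hc1).trans hz1) hzb hz
  refine ⟨u, v, hg, ?_, ?_⟩
  · refine lt_of_lt_of_le hc1 ?_
    by_contra h
    push Not at h
    exact hg.no c h (hz1.trans hv) hc
  · rcases hy with rfl | hy
    · exact hg.vb
    · rcases lt_trichotomy v y with h | h | h
      · exact h
      · subst h
        exact absurd hsl hg.nsl
      · exact absurd hy.1 (hg.no y (hu.trans hz2) h)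

/-- existence of the end points -/
theorem exists_ab (hP : Perfect C) (hint : interior C = ∅) (hne : C.Nonempty) :
    ∃ a b : ℝ, a < b ∧ SR C a ∧ SL C b := by
  obtain ⟨p, hp⟩ := hne
  obtain ⟨q, ⟨-, hq⟩, hqp⟩ := preperfect_iff_nhds.1 hP.acc p hp Set.univ Filter.univ_mem
  obtain ⟨x, y, hx, hy, hxy⟩ : ∃ x y, x ∈ C ∧ y ∈ C ∧ x < y := by
    rcases lt_or_gt_of_ne hqp with h | h
    · exact ⟨q, p, hq, hp, h⟩
    · exact ⟨p, q, hp, hq, h⟩
  obtain ⟨z, hz1, hz2, hz⟩ := exists_notMem hint hxy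
  obtain ⟨u, v, h3, h4, h5, h6, h7, h8, h9⟩ := cplx hP.closed hx hy hz1 hz2 hz
  have hu : ¬ SR C u := by
    intro h
    obtain ⟨c, hc, hc1, hc2⟩ := h v (h6.trans h7)
    exact h9 c hc1 hc2 hc
  have hsl : SL C u := (sr_or_sl hP h3).resolve_left hu
  obtain ⟨c, hc, hc1, hc2⟩ := hsl (u - 1) (by linarith)
  obtain ⟨z', hz1', hz2', hz'⟩ := exists_notMem hint hc2
  obtain ⟨u', v', k3, k4, k5, k6, k7, k8, k9⟩ := cplx hP.closed hc h3 hz1' hz2' hz'
  have hv : ¬ SL C v' := by
    intro h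
    obtain ⟨c, hc, hc1, hc2⟩ := h u' (k6.trans k7)
    exact k9 c hc1 hc2 hc
  have hsr : SR C v' := (sr_or_sl hP k4).resolve_right hv
  refine ⟨v', u, lt_of_le_of_ne k8 ?_, hsr, hsl⟩
  intro h
  rw [h] at hsr
  exact hu hsr

variable (C a b) in
/-- left end points of the gaps -/
def LE : Set ℝ := {u | ∃ v, Gp C a b u v}

theorem LE_countable : (LE C a b).Countable := by
  classical
  have h1 : ∀ u : ℝ, ∃ v, u ∈ LE C a b → Gp C a b u v := by
    intro u
    by_cases h : u ∈ LE C a b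
    · obtain ⟨v, hv⟩ := h
      exact ⟨v, fun _ => hv⟩
    · exact ⟨0, fun h' => absurd h' h⟩
  choose y hy using h1
  refine Set.PairwiseDisjoint.countable_of_Ioo (y := y) ?_ (fun x hx => (hy x hx).uv)
  intro u hu v hv huv
  rw [Function.onFun, Set.disjoint_left]
  rintro w ⟨h1, h2⟩ ⟨h3, h4⟩
  rcases lt_or_gt_of_ne huv with h | h
  · exact (hy u hu).no v h (h3.trans h2) (hy v hv).uC
  · exact (hy v hv).no u h (h1.trans h4) (hy u hu).uC

theorem exists_iso (hP : Perfect C) (hint : interior C = ∅) (hab : a < b) (ha : SR C a)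
    (hb : SL C b) : Nonempty (LE C a b ≃o ℚ) := by
  have hC := hP.closed
  have : Countable (LE C a b) := LE_countable.to_subtype
  have : DenselyOrdered (LE C a b) := by
    refine ⟨?_⟩
    rintro ⟨u, v, hu⟩ ⟨u', v', hu'⟩ h
    have h1 : u < u' := h
    have h2 : v ≤ u' := by
      by_contra h3
      push Not at h3
      exact hu.no u' h1 h3 hu'.uC
    have h3 : v < u' := by
      refine lt_of_le_of_ne h2 ?_
      intro h4
      have h5 := hu.sr hP
      rw [h4] at h5
      exact hu'.nsr h5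
    obtain ⟨s, t, hst, h4, h5⟩ := gap_right hC hint ha hb
      (Or.inr ⟨hu.vC, hu.au.trans hu.uv⟩) (hu.sr hP) h3 ((hu'.uv.trans hu'.vb).le)
    exact ⟨⟨s, t, hst⟩, (hu.uv.trans h4 : u < s), (hst.uv.trans h5 : s < u')⟩
  have : NoMinOrder (LE C a b) := by
    refine ⟨?_⟩
    rintro ⟨u, v, hu⟩
    obtain ⟨s, t, hst, h4, h5⟩ := gap_right hC hint ha hb (Or.inl rfl) ha hu.au
      ((hu.uv.trans hu.vb).le)
    exact ⟨⟨s, t, hst⟩, (hst.uv.trans h5 : s < u)⟩
  have : NoMaxOrder (LE C a b) := by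
    refine ⟨?_⟩
    rintro ⟨u, v, hu⟩
    obtain ⟨s, t, hst, h4, h5⟩ := gap_right hC hint ha hb
      (Or.inr ⟨hu.vC, hu.au.trans hu.uv⟩) (hu.sr hP) hu.vb le_rfl
    exact ⟨⟨s, t, hst⟩, (hu.uv.trans h4 : u < s)⟩
  have : Nonempty (LE C a b) := by
    obtain ⟨s, t, hst, h4, h5⟩ := gap_right hC hint ha hb (Or.inl rfl) ha hab le_rfl
    exact ⟨⟨s, t, hst⟩⟩
  exact Order.iso_of_countable_dense _ _

section fn

variable (e : LE C a b ≃o ℚ)

/-- the set of values at gaps on the left -/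
def Vs (x : ℝ) : Set ℝ := {r | ∃ l : LE C a b, (l : ℝ) ≤ x ∧ ((e l : ℚ) : ℝ) = r}

theorem Vs_mono {x y : ℝ} (h : x ≤ y) : Vs e x ⊆ Vs e y := by
  rintro r ⟨l, hl, rfl⟩
  exact ⟨l, hl.trans h, rfl⟩

theorem Vs_nonempty (hC : IsClosed C) (hint : interior C = ∅) (ha : SR C a) (hb : SL C b)
    {x : ℝ} (hx : x ∈ Set.Ioo a b) : (Vs e x).Nonempty := by
  obtain ⟨s, t, hst, h4, h5⟩ := gap_right hC hint ha hb (Or.inl rfl) ha hx.1 hx.2.le
  exact ⟨_, ⟨s, t, hst⟩, (hst.uv.trans h5).le, rfl⟩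

theorem Vs_le {x : ℝ} (l : LE C a b) (h : x < l) : ∀ r ∈ Vs e x, r ≤ ((e l : ℚ) : ℝ) := by
  rintro r ⟨l', hl', rfl⟩
  have h1 : l' ≤ l := (hl'.trans h.le : (l' : ℝ) ≤ l)
  exact_mod_cast e.monotone h1

theorem Vs_bdd (hC : IsClosed C) (hint : interior C = ∅) (ha : SR C a) (hb : SL C b)
    {x : ℝ} (hx : x ∈ Set.Ioo a b) : BddAbove (Vs e x) := by
  obtain ⟨s, t, hst, h4, h5⟩ := gap_left hC hint ha hb (Or.inl rfl) hb hx.2 hx.1.le
  exact ⟨_, Vs_le e ⟨s, t, hst⟩ h4⟩

theorem sup_le (hC : IsClosed C) (hint : interior C = ∅) (ha : SR C a) (hb : SL C b)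
    {x : ℝ} (hx : x ∈ Set.Ioo a b) (l : LE C a b) (h : x < l) :
    sSup (Vs e x) ≤ ((e l : ℚ) : ℝ) :=
  csSup_le (Vs_nonempty e hC hint ha hb hx) (Vs_le e l h)

theorem le_sup (hC : IsClosed C) (hint : interior C = ∅) (ha : SR C a) (hb : SL C b)
    {x : ℝ} (hx : x ∈ Set.Ioo a b) (l : LE C a b) (h : (l : ℝ) ≤ x) :
    ((e l : ℚ) : ℝ) ≤ sSup (Vs e x) :=
  le_csSup (Vs_bdd e hC hint ha hb hx) ⟨l, h, rfl⟩

theorem sup_gap (hP : Perfect C) {u v x : ℝ} (hg : Gp C a b u v) (h1 : u ≤ x) (h2 : x ≤ v) :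
    sSup (Vs e x) = ((e ⟨u, v, hg⟩ : ℚ) : ℝ) := by
  refine IsGreatest.csSup_eq ⟨⟨⟨u, v, hg⟩, h1, rfl⟩, ?_⟩
  rintro r ⟨⟨u', v', hg'⟩, hl, rfl⟩
  have h3 : u' ≤ u := by
    by_contra h
    push Not at h
    have h4 : v ≤ u' := by
      by_contra h5
      push Not at h5
      exact hg.no u' h h5 hg'.uC
    have h5 : u' = v := le_antisymm ((hl : u' ≤ x).trans h2) h4
    subst h5
    exact hg'.nsr (hg.sr hP)
  have h4 : (⟨u', v', hg'⟩ : LE C a b) ≤ ⟨u, v, hg⟩ := h3
  exact_mod_cast e.monotone h4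

end fn

end

end CantorAux

theorem exists_cantor_map (K : Set ℝ) (hK : IsClosed K) (hKu : ¬ K.Countable)
    (hint : interior K = ∅) :
    ∃ (a b : ℝ) (m : ℝ → ℝ), a < b ∧ MonotoneOn m (Set.Ioo a b) ∧
      (∀ q : ℚ, ∃ u v : ℝ, u < v ∧ u ∈ K ∧ v ∈ K ∧
        {z | z ∈ Set.Ioo a b ∧ m z = q} = Set.Icc u v) ∧
      (∀ r : ℝ, Irrational r → ∃ z ∈ K, {y | y ∈ Set.Ioo a b ∧ m y = r} = {z}) := by
  obtain ⟨C, hP, hCne, hCK⟩ := exists_perfect_nonempty_of_isClosed_of_not_countable hK hKu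
  have hC := hP.closed
  have hintC : interior C = ∅ := by
    rw [← Set.subset_empty_iff, ← hint]
    exact interior_mono hCK
  obtain ⟨a, b, hab, ha, hb⟩ := CantorAux.exists_ab hP hintC hCne
  obtain ⟨e⟩ := CantorAux.exists_iso hP hintC hab ha hb
  refine ⟨a, b, fun x => sSup (CantorAux.Vs e x), hab, ?_, ?_, ?_⟩
  · intro x hx y hy hxy
    exact csSup_le_csSup (CantorAux.Vs_bdd e hC hintC ha hb hy)
      (CantorAux.Vs_nonempty e hC hintC ha hb hx) (CantorAux.Vs_mono e hxy)
  · intro q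
    obtain ⟨⟨u, v, hg⟩, hl⟩ : ∃ l, e l = q := e.surjective q
    refine ⟨u, v, hg.uv, hCK hg.uC, hCK hg.vC, ?_⟩
    ext z
    constructor
    · rintro ⟨hz, hm⟩
      have hm' : sSup (CantorAux.Vs e z) = (q : ℝ) := hm
      constructor
      · by_contra h
        push Not at h
        obtain ⟨s, t, hst, h4, h5⟩ := CantorAux.gap_left hC hintC ha hb
          (Or.inr ⟨hg.uC, hg.uv.trans hg.vb⟩) (hg.sl hP) h hz.1.le
        have h6 := CantorAux.sup_le e hC hintC ha hb hz ⟨s, t, hst⟩ h4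
        have h7 : (⟨s, t, hst⟩ : CantorAux.LE C a b) < ⟨u, v, hg⟩ := (hst.uv.trans h5 : s < u)
        have h8 : e ⟨s, t, hst⟩ < q := by
          rw [← hl]
          exact e.strictMono h7
        have h9 : ((e ⟨s, t, hst⟩ : ℚ) : ℝ) < (q : ℝ) := by exact_mod_cast h8
        linarith
      · by_contra h
        push Not at h
        obtain ⟨s, t, hst, h4, h5⟩ := CantorAux.gap_right hC hintC ha hb
          (Or.inr ⟨hg.vC, hg.au.trans hg.uv⟩) (hg.sr hP) h hz.2.le
        have h6 := CantorAux.le_sup e hC hintC ha hb hz ⟨s, t, hst⟩ (hst.uv.trans h5).le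
        have h7 : (⟨u, v, hg⟩ : CantorAux.LE C a b) < ⟨s, t, hst⟩ := (hg.uv.trans h4 : u < s)
        have h8 : q < e ⟨s, t, hst⟩ := by
          rw [← hl]
          exact e.strictMono h7
        have h9 : (q : ℝ) < ((e ⟨s, t, hst⟩ : ℚ) : ℝ) := by exact_mod_cast h8
        linarith
    · rintro ⟨h1, h2⟩
      refine ⟨⟨hg.au.trans_le h1, h2.trans_lt hg.vb⟩, ?_⟩
      have h3 := CantorAux.sup_gap e hP hg h1 h2
      rw [hl] at h3
      exact h3
  · intro r hr
    -- no element of a gap has value r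
    have hno : ∀ y u v : ℝ, CantorAux.Gp C a b u v → u ≤ y → y ≤ v →
        sSup (CantorAux.Vs e y) ≠ r := by
      intro y u v hg h1 h2 h3
      rw [CantorAux.sup_gap e hP hg h1 h2] at h3
      exact hr ⟨_, h3⟩
    have hne : ∀ l, ((e l : ℚ) : ℝ) ≠ r := fun l h => hr ⟨_, h⟩
    set S : Set ℝ := {s | ∃ l : CantorAux.LE C a b, (l : ℝ) = s ∧ ((e l : ℚ) : ℝ) < r} with hS
    obtain ⟨q1, hq1⟩ := exists_rat_lt r
    obtain ⟨q2, hq2⟩ := exists_rat_gt r
    have hSne : S.Nonempty := ⟨_, e.symm q1, rfl, by rw [e.apply_symm_apply]; exact hq1⟩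
    have hub : ∀ l : CantorAux.LE C a b, r < ((e l : ℚ) : ℝ) → ∀ s ∈ S, s ≤ l := by
      rintro l hl s ⟨l', rfl, hl'⟩
      have h1 : e l' < e l := by exact_mod_cast hl'.trans hl
      exact (e.lt_iff_lt.1 h1).le
    have hSb : BddAbove S := ⟨_, hub (e.symm q2) (by rw [e.apply_symm_apply]; exact hq2)⟩
    have hzC : sSup S ∈ C := by
      refine hC.closure_subset_iff.2 ?_ (csSup_mem_closure hSne hSb)
      rintro s ⟨⟨l, v, hg⟩, rfl, -⟩
      exact hg.uC
    have hz1 : sSup S ∈ Set.Ioo a b := by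
      constructor
      · obtain ⟨s, ⟨l, v, hg⟩, rfl, hl⟩ := hSne
        exact hg.au.trans_le (le_csSup hSb ⟨_, rfl, hl⟩)
      · have h1 := csSup_le hSne (hub (e.symm q2) (by rw [e.apply_symm_apply]; exact hq2))
        obtain ⟨v, hg⟩ := (e.symm q2).2
        exact h1.trans_lt (hg.uv.trans hg.vb)
    have hz2 : sSup (CantorAux.Vs e (sSup S)) = r := by
      apply le_antisymm
      · refine csSup_le (CantorAux.Vs_nonempty e hC hintC ha hb hz1) ?_
        rintro s ⟨l, hl, rfl⟩
        by_contra h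
        push Not at h
        obtain ⟨q, h1, h2⟩ := exists_rat_btwn h
        have h3 := csSup_le hSne (hub (e.symm q) (by rw [e.apply_symm_apply]; exact h1))
        have h4 : e.symm q < l := by
          rw [← e.lt_iff_lt, e.apply_symm_apply]
          exact_mod_cast h2
        have h5 : ((e.symm q : CantorAux.LE C a b) : ℝ) < l := h4
        linarith
      · refine le_of_forall_rat_lt_imp_le fun q hq => ?_
        have h1 : ((e.symm q : CantorAux.LE C a b) : ℝ) ≤ sSup S :=
          le_csSup hSb ⟨_, rfl, by rw [e.apply_symm_apply]; exact hq⟩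
        have h2 := CantorAux.le_sup e hC hintC ha hb hz1 (e.symm q) h1
        rwa [e.apply_symm_apply] at h2
    -- two points of the same irrational value coincide
    have huniq : ∀ y y' : ℝ, y ∈ Set.Ioo a b → y' ∈ Set.Ioo a b → y < y' →
        sSup (CantorAux.Vs e y) = r → sSup (CantorAux.Vs e y') = r → False := by
      intro y y' hy hy' hlt h1 h2
      obtain ⟨z, hz3, hz4, hz5⟩ := CantorAux.exists_notMem hintC hlt
      obtain ⟨u, v, hg, hu, hv⟩ := CantorAux.gap_of_notMem hC ha hb (hy.1.trans hz3)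
        (hz4.trans hy'.2) hz5
      rcases le_or_gt u y with h | h
      · exact hno y u v hg h (hz3.trans hv).le h1
      · have h3 := CantorAux.sup_le e hC hintC ha hb hy ⟨u, v, hg⟩ h
        have h4 := CantorAux.le_sup e hC hintC ha hb hy' ⟨u, v, hg⟩ (hu.trans hz4).le
        rw [h1] at h3
        rw [h2] at h4
        exact hne _ (le_antisymm h4 h3)
    refine ⟨sSup S, hCK hzC, ?_⟩
    ext y
    constructor
    · rintro ⟨hy, hm⟩
      have hm' : sSup (CantorAux.Vs e y) = r := hm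
      rcases lt_trichotomy y (sSup S) with h | h | h
      · exact (huniq _ _ hy hz1 h hm' hz2).elim
      · exact h
      · exact (huniq _ _ hz1 hy h hz2 hm').elim
    · intro h
      have h' : y = sSup S := h
      subst h'
      exact ⟨hz1, hz2⟩

end Pool.Agent.Helper17.BHC
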