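import Mathlib
import Pool.Agent.Helper56.QV.LHom

/-! Doubly homogeneous chains in the real line: definitions. -/

set_option autoImplicit false

namespace Pool.Agent.Helper17.BHC

open Pool.Agent.Helper56.QV

universe u

/-- A chain is doubly homogeneous if every pair `a < b` can be moved to every pair `c < d` by an
automorphism. -/
def DoublyHom (Ω : Type u) [LinearOrder Ω] : Prop :=
  ∀ a b c d : Ω, a < b → c < d → ∃ g : Ω ≃o Ω, g a = c ∧ g b = d

/-- A Bernstein set: it meets every uncountable closed set of real numbers and so does its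
complement. -/
def Bernstein (X : Set ℝ) : Prop :=
  ∀ K : Set ℝ, IsClosed K → ¬ K.Countable → (K ∩ X).Nonempty ∧ (K \ X).Nonempty

/-- The premises of the quasi-identity. -/
structure Cfg {G : Type u} [LGroup G] (e s b f : G) : Prop where
  one_le : 1 ≤ f
  le : f ≤ e
  sf : s * f = f * s
  bf : (b ⊔ b⁻¹) ⊓ f = 1
  c1 : e * (s * e * s⁻¹) = (s * e * s⁻¹) * e
  c2 : e * (s * s * e * (s * s)⁻¹) = (s * s * e * (s * s)⁻¹) * e
  be : b * e = e * (s * e * s⁻¹) * b
  b1 : b * (s * e * s⁻¹) = (s * e * s⁻¹) * b
  sb : s * s * b = b * (s * s)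

/-- What remains of a failure of the quasi-identity in the group of all automorphisms of the
real line. -/
structure RCfg (e s b : ℝ ≃o ℝ) (p : ℝ) : Prop where
  le : ∀ x, x ≤ e x
  c1 : e * (s * e * s⁻¹) = (s * e * s⁻¹) * e
  c2 : e * (s * s * e * (s * s)⁻¹) = (s * s * e * (s * s)⁻¹) * e
  be : b * e = e * (s * e * s⁻¹) * b
  b1 : b * (s * e * s⁻¹) = (s * e * s⁻¹) * b
  sb : s * s * b = b * (s * s)
  ap : (s * b * s⁻¹) p = p
  bp : b p = p
  lt : ∀ n : ℤ, p < (s ^ n * e * (s ^ n)⁻¹) p

/-- The ℓ-group is normal-valued (Wolfenstein's inequality for positive elements, equivalent to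
the identity `|x| |y| ≤ |y|² |x|²`). -/
def NormalValued (G : Type u) [LGroup G] : Prop :=
  ∀ x y : G, 1 ≤ x → 1 ≤ y → x * y ≤ y * y * (x * x)

/-- Pairs of sequences of integers. -/
abbrev W : Type := (ℕ → ℤ) × (ℕ → ℤ)

/-- The shift of sequences (multiplication of power series by the variable). -/
def sh (v : ℕ → ℤ) : ℕ → ℤ
  | 0 => 0
  | k + 1 => v k

/-- The map `(u, v) ↦ (u + t v, v)`. -/
def mA : Equiv.Perm W where
  toFun x := (x.1 + sh x.2, x.2)
  invFun x := (x.1 - sh x.2, x.2)
  left_inv x := by simp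
  right_inv x := by simp

/-- The map `(u, v) ↦ (u, v + u)`. -/
def mB : Equiv.Perm W where
  toFun x := (x.1, x.2 + x.1)
  invFun x := (x.1, x.2 - x.1)
  left_inv x := by simp
  right_inv x := by simp

/-- The generators. -/
def gen : Bool → Equiv.Perm W
  | true => mA
  | false => mB

/-- The action of the free group of rank two. -/
def act : FreeGroup Bool →* Equiv.Perm W := FreeGroup.lift gen

/-- Orientation preserving affine maps with rational coefficients. -/
@[ext] structure Aff where
  l : ℚ
  z : ℚ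
  pos : 0 < l

namespace Aff

instance : Mul Aff := ⟨fun a b => ⟨a.l * b.l, a.z + a.l * b.z, mul_pos a.pos b.pos⟩⟩

instance : One Aff := ⟨⟨1, 0, one_pos⟩⟩

instance : Inv Aff := ⟨fun a => ⟨a.l⁻¹, -(a.l⁻¹ * a.z), inv_pos.2 a.pos⟩⟩

theorem mul_l (a b : Aff) : (a * b).l = a.l * b.l := rfl

theorem mul_z (a b : Aff) : (a * b).z = a.z + a.l * b.z := rfl

theorem one_l : (1 : Aff).l = 1 := rfl

theorem one_z : (1 : Aff).z = 0 := rfl

theorem inv_l (a : Aff) : (a⁻¹).l = a.l⁻¹ := rfl

theorem inv_z (a : Aff) : (a⁻¹).z = -(a.l⁻¹ * a.z) := rfl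

instance : Group Aff :=
  Group.ofLeftAxioms
    (fun a b c => by
      apply Aff.ext
      · simp only [mul_l]; ring
      · simp only [mul_l, mul_z]; ring)
    (fun a => by
      apply Aff.ext
      · simp only [mul_l, one_l, one_mul]
      · simp only [mul_z, one_l, one_z, one_mul, zero_add])
    (fun a => by
      have ha : a.l ≠ 0 := a.pos.ne'
      apply Aff.ext
      · simp only [mul_l, inv_l, one_l]
        exact inv_mul_cancel₀ ha
      · simp only [mul_z, inv_l, inv_z, one_z]
        ring)

/-- The affine map. -/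
noncomputable def toIso (a : Aff) : ℝ ≃o ℝ where
  toFun x := a.l * x + a.z
  invFun x := (x - a.z) / a.l
  left_inv x := by
    have ha : (a.l : ℝ) ≠ 0 := by exact_mod_cast a.pos.ne'
    field_simp
    ring
  right_inv x := by
    have ha : (a.l : ℝ) ≠ 0 := by exact_mod_cast a.pos.ne'
    field_simp
    ring
  map_rel_iff' := by
    intro x y
    have ha : (0 : ℝ) < a.l := by exact_mod_cast a.pos
    change (a.l : ℝ) * x + a.z ≤ a.l * y + a.z ↔ x ≤ y
    constructor
    · intro h
      have h1 : (a.l : ℝ) * x ≤ a.l * y := by linarith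
      exact le_of_mul_le_mul_left h1 ha
    · intro h
      have h1 : (a.l : ℝ) * x ≤ a.l * y := mul_le_mul_of_nonneg_left h ha.le
      linarith

theorem toIso_apply (a : Aff) (x : ℝ) : a.toIso x = a.l * x + a.z := rfl

/-- The action of the affine group on the real line. -/
noncomputable def hom : Aff →* (ℝ ≃o ℝ) where
  toFun := toIso
  map_one' := by
    apply OrderIso.ext
    funext x
    rw [toIso_apply, one_l, one_z]
    simp
  map_mul' a b := by
    apply OrderIso.ext
    funext x
    change ((a * b).l : ℝ) * x + (a * b).z = a.l * (b.l * x + b.z) + a.z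
    rw [mul_l, mul_z]
    push_cast
    ring

theorem hom_apply (a : Aff) (x : ℝ) : hom a x = a.l * x + a.z := rfl

end Aff

end Pool.Agent.Helper17.BHC
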