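import Pool.Agent.Helper17.BHC.Defs

/-!
BHC Ext: automorphisms of a dense subset of the real line extend to the real line.

Proof of `exists_ext`. E g p = sSup {y | ∃ x : X, x < p ∧ y = g x} (or ≤ p).  As X is dense and g is
an order automorphism this is the unique order isomorphism of ℝ extending g; uniqueness (two order
isomorphisms of ℝ which agree on a dense set are equal, being continuous) gives multiplicativity.
`rcfg_of_cfg`: take e' = E e etc.  The group relations are mapped by E.  1 ≤ e pointwise on X, hence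
on ℝ by density and continuity.  f ≠ 1 gives x : X with f x ≠ x, so x < f x.  The relation
(b ⊔ b⁻¹) ⊓ f = 1 at x reads min (max (b x) (b⁻¹ x)) (f x) = x, so max (b x) (b⁻¹ x) = x, so b x = x.
The same at the point s⁻¹ x (s⁻¹ x < s⁻¹ (f x) = f (s⁻¹ x)): b (s⁻¹ x) = s⁻¹ x.  And
(s ^ n * e * (s ^ n)⁻¹) x ≥ (s ^ n * f * (s ^ n)⁻¹) x = f x > x for all n : ℤ.  Take p = x.
-/

set_option autoImplicit false

namespace Pool.Agent.Helper17.BHC

open Pool.Agent.Helper56.QV

namespace ExtPriv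

variable {X : Set ℝ}

/-- the extension -/
noncomputable def ext (g : X ≃o X) (p : ℝ) : ℝ :=
  sSup {t : ℝ | ∃ x : X, (x : ℝ) ≤ p ∧ t = (g x : ℝ)}

theorem btw (hd : Dense X) {a b : ℝ} (h : a < b) : ∃ x : X, a < (x : ℝ) ∧ (x : ℝ) < b := by
  obtain ⟨x, hx, hx'⟩ := hd.exists_between h
  exact ⟨⟨x, hx⟩, hx'.1, hx'.2⟩

theorem le_ext (hd : Dense X) (g : X ≃o X) {x : X} {p : ℝ} (h : (x : ℝ) ≤ p) :
    (g x : ℝ) ≤ ext g p := by
  refine le_csSup ?_ ⟨x, h, rfl⟩
  obtain ⟨y, hy, -⟩ := btw hd (show p < p + 1 by linarith)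
  refine ⟨(g y : ℝ), ?_⟩
  rintro t ⟨z, hz, rfl⟩
  exact g.le_iff_le.2 (show (z : ℝ) ≤ (y : ℝ) by linarith)

theorem ext_le (hd : Dense X) (g : X ≃o X) {x : X} {p : ℝ} (h : p ≤ (x : ℝ)) :
    ext g p ≤ (g x : ℝ) := by
  refine csSup_le ?_ ?_
  · obtain ⟨y, -, hy⟩ := btw hd (show p - 1 < p by linarith)
    exact ⟨_, y, hy.le, rfl⟩
  · rintro t ⟨z, hz, rfl⟩
    exact g.le_iff_le.2 (show (z : ℝ) ≤ (x : ℝ) by linarith)

theorem ext_app (hd : Dense X) (g : X ≃o X) (x : X) : ext g (x : ℝ) = (g x : ℝ) :=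
  le_antisymm (ext_le hd g le_rfl) (le_ext hd g le_rfl)

theorem lt_iff (hd : Dense X) (g : X ≃o X) (x : X) (p : ℝ) :
    (g x : ℝ) < ext g p ↔ (x : ℝ) < p := by
  constructor
  · intro h
    by_contra hc
    exact absurd (ext_le hd g (not_lt.1 hc)) (not_le.2 h)
  · intro h
    obtain ⟨y, h1, h2⟩ := btw hd h
    have h3 : g x < g y := g.lt_iff_lt.2 h1
    exact lt_of_lt_of_le h3 (le_ext hd g h2.le)

theorem uniq (hd : Dense X) (g : X ≃o X) {a b : ℝ}
    (h : ∀ x : X, (g x : ℝ) < a ↔ (g x : ℝ) < b) : a = b := by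
  have key : ∀ {a b : ℝ}, (∀ x : X, (g x : ℝ) < a ↔ (g x : ℝ) < b) → a ≤ b := by
    intro a b h
    by_contra hc
    obtain ⟨y, h1, h2⟩ := btw hd (not_le.1 hc)
    have h3 := (h (g.symm y)).1
    rw [g.apply_symm_apply] at h3
    linarith [h3 h2]
  exact le_antisymm (key h) (key fun x => (h x).symm)

theorem ext_one (hd : Dense X) (p : ℝ) : ext (1 : X ≃o X) p = p :=
  uniq hd 1 fun x => lt_iff hd 1 x p

theorem ext_mul (hd : Dense X) (g h : X ≃o X) (p : ℝ) :
    ext (g * h) p = ext g (ext h p) := by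
  refine uniq hd (g * h) fun x => ?_
  rw [lt_iff hd (g * h) x p]
  have e : ((g * h) x : ℝ) = (g (h x) : ℝ) := rfl
  rw [e, lt_iff hd g (h x) (ext h p), lt_iff hd h x p]

theorem ext_mono (hd : Dense X) (g : X ≃o X) : StrictMono (ext g) := by
  intro p q h
  obtain ⟨x, h1, h2⟩ := btw hd h
  exact lt_of_le_of_lt (ext_le hd g h1.le) ((lt_iff hd g x q).2 h2)

/-- the extension as an order isomorphism -/
noncomputable def extIso (hd : Dense X) (g : X ≃o X) : ℝ ≃o ℝ where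
  toFun := ext g
  invFun := ext g⁻¹
  left_inv p := by rw [← ext_mul hd, inv_mul_cancel, ext_one hd]
  right_inv p := by rw [← ext_mul hd, mul_inv_cancel, ext_one hd]
  map_rel_iff' := by
    intro a b
    exact (ext_mono hd g).le_iff_le

theorem fix_of {Ω : Type*} [LinearOrder Ω] (s f : Ω ≃o Ω) (h : (s ⊔ s⁻¹) ⊓ f = 1) {x : Ω}
    (hx : x < f x) : s x = x := by
  have h1 : min (max (s x) (s⁻¹ x)) (f x) = x := by
    have h2 := congrArg (fun t : Ω ≃o Ω => t x) h
    exact h2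
  have h2 : max (s x) (s⁻¹ x) ≤ x := by
    rcases min_choice (max (s x) (s⁻¹ x)) (f x) with h3 | h3
    · rw [h3] at h1
      exact h1.le
    · rw [h3] at h1
      exact absurd h1 hx.ne'
  have h3 : s x ≤ x := le_trans (le_max_left _ _) h2
  have h4 : s⁻¹ x ≤ x := le_trans (le_max_right _ _) h2
  have h5 : x ≤ s x := by
    have h6 : s (s⁻¹ x) ≤ s x := s.le_iff_le.2 h4
    have h7 : s (s⁻¹ x) = x := s.apply_symm_apply x
    rwa [h7] at h6
  exact le_antisymm h3 h5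

end ExtPriv

open ExtPriv

theorem exists_ext (X : Set ℝ) (hd : Dense X) :
    ∃ E : (X ≃o X) →* (ℝ ≃o ℝ), ∀ (g : X ≃o X) (x : X), E g (x : ℝ) = (g x : ℝ) := by
  refine ⟨⟨⟨extIso hd, ?_⟩, ?_⟩, ?_⟩
  · apply OrderIso.ext
    funext p
    exact ext_one hd p
  · intro g h
    apply OrderIso.ext
    funext p
    exact ext_mul hd g h p
  · intro g x
    exact ext_app hd g x

theorem rcfg_of_cfg (X : Set ℝ) (hd : Dense X) (e s b f : X ≃o X) (h : Cfg e s b f)
    (hf : f ≠ 1) : ∃ (e' s' b' : ℝ ≃o ℝ) (p : ℝ), RCfg e' s' b' p ∧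
      (∀ q, s' q ∈ X ↔ q ∈ X) ∧ (∀ q, b' q ∈ X ↔ q ∈ X) := by
  obtain ⟨E, hE⟩ := exists_ext X hd
  have hf1 : ∀ x : X, x ≤ f x := fun x => h.one_le x
  have hfe : ∀ x : X, f x ≤ e x := fun x => h.le x
  obtain ⟨x, hx⟩ : ∃ x : X, x < f x := by
    by_contra hc
    apply hf
    apply OrderIso.ext
    funext x
    exact le_antisymm (not_lt.1 fun hlt => hc ⟨x, hlt⟩) (hf1 x)
  have bx : b x = x := fix_of b f h.bf hx
  have hsf : Commute s f := h.sf
  have hx2 : s⁻¹ x < f (s⁻¹ x) := by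
    have h1 : f (s⁻¹ x) = s⁻¹ (f x) := by
      have h2 : f * s⁻¹ = s⁻¹ * f := hsf.symm.inv_right.eq
      exact congrArg (fun t : X ≃o X => t x) h2
    rw [h1]
    exact s⁻¹.lt_iff_lt.2 hx
  have bx2 : b (s⁻¹ x) = s⁻¹ x := fix_of b f h.bf hx2
  have ax : (s * b * s⁻¹) x = x := by
    change s (b (s⁻¹ x)) = x
    rw [bx2]
    exact s.apply_symm_apply x
  have hmem : ∀ (g : X ≃o X) (q : ℝ), E g q ∈ X ↔ q ∈ X := by
    intro g q
    constructor
    · intro hq
      have h1 : E g⁻¹ (E g q) = q := by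
        have h2 : E g⁻¹ * E g = 1 := by rw [← map_mul, inv_mul_cancel, map_one]
        have h3 := congrArg (fun t : ℝ ≃o ℝ => t q) h2
        exact h3
      have h2 := hE g⁻¹ ⟨E g q, hq⟩
      change E g⁻¹ (E g q) = _ at h2
      rw [h1] at h2
      rw [h2]
      exact Subtype.coe_prop _
    · intro hq
      have h2 := hE g ⟨q, hq⟩
      change E g q = _ at h2
      rw [h2]
      exact Subtype.coe_prop _
  refine ⟨E e, E s, E b, (x : ℝ), ⟨?_, ?_, ?_, ?_, ?_, ?_, ?_, ?_, ?_⟩, hmem s, hmem b⟩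
  · intro p
    by_contra hc
    obtain ⟨y, h1, h2⟩ := btw hd (not_le.1 hc)
    have h3 : E e (y : ℝ) < E e p := (E e).lt_iff_lt.2 h2
    rw [hE] at h3
    have h4 : (y : ℝ) ≤ (e y : ℝ) := (hf1 y).trans (hfe y)
    linarith
  · have := congrArg E h.c1
    simpa only [map_mul, map_inv] using this
  · have := congrArg E h.c2
    simpa only [map_mul, map_inv] using this
  · have := congrArg E h.be
    simpa only [map_mul, map_inv] using this
  · have := congrArg E h.b1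
    simpa only [map_mul, map_inv] using this
  · have := congrArg E h.sb
    simpa only [map_mul, map_inv] using this
  · rw [← map_mul, ← map_inv, ← map_mul, hE, ax]
  · rw [hE, bx]
  · intro n
    have h1 : (E s ^ n * E e * (E s ^ n)⁻¹) = E (s ^ n * e * (s ^ n)⁻¹) := by
      rw [map_mul, map_mul, map_inv, map_zpow]
    rw [h1, hE]
    have h4 : x < (s ^ n * e * (s ^ n)⁻¹) x := by
      have h5 : (s ^ n * f * (s ^ n)⁻¹) = f := by
        rw [(hsf.zpow_left n).eq, mul_inv_cancel_right]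
      calc x < f x := hx
        _ = (s ^ n * f * (s ^ n)⁻¹) x := by rw [h5]
        _ ≤ (s ^ n * e * (s ^ n)⁻¹) x := by
          change (s ^ n) (f ((s ^ n)⁻¹ x)) ≤ (s ^ n) (e ((s ^ n)⁻¹ x))
          exact (s ^ n).le_iff_le.2 (hfe _)
    exact h4

end Pool.Agent.Helper17.BHC
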