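import Pool.Agent.Helper17.BHC.Ext

/-!
BHC Fibre: Aut(X) acts on the chains that have a part fibred over (ℝ; X, ℝ \ X).

Proof of `holds_of_fibred`.  E : (X ≃o X) →* (ℝ ≃o ℝ) from `exists_ext`; E g q ∈ X ↔ q ∈ X (see the
proof of `rcfg_of_cfg` in Ext.lean, `hmem`).  Write F r = {z // z ∈ J ∧ p z = r}.  Choose a base
point x₀ ∈ X and (if there is one) y₀ ∉ X, base r = x₀ for r ∈ X and y₀ for r ∉ X, and isomorphisms
T r : F r ≃o F (base r).  For g : X ≃o X let A g : Ω → Ω be the identity outside J and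
z ↦ (T (E g r))⁻¹ (T r z) ∈ F (E g r) for z ∈ F r (base (E g r) = base r).  A (g h) = A g ∘ A h,
A 1 = id, A g is strictly monotone: for z < z' in J, p z ≤ p z'; if p z < p z' use E g (p z) <
E g (p z') and the monotonicity of p on J (elements of J with p w < p w' satisfy w < w'), if
p z = p z' use that the T's are order isomorphisms; for z ∉ J use that J is convex (order connected).
So A is a homomorphism into Ω ≃o Ω, and A (g ⊔ h) = A g ⊔ A h: at z ∈ F r the real numbers E g r,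
E h r are either different (the max is decided in ℝ, E (g ⊔ h) r = max (E g r) (E h r)) or equal (the
two images are the same).  A is injective: if g ≠ 1 then E g moves all the points of a nonempty open
interval; it contains a point of X, and a point outside X if Xᶜ is dense, so some r with F r nonempty
is moved (if some fibre over X is nonempty, all are).  Now `LHom.holds`
(Pool.Agent.Helper56.QV.LHom).  (The special case X = ℚ is `Fib.holds` in
Pool.Agent.Helper56.QV.RealLike, whose code can be adapted.)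
Proof of `dense_compl`.  Otherwise some nonempty open interval is inside X; take x < y in it.  Let
r be any real number, x' < r < y' with x', y' ∈ X, g : X ≃o X with g x = x', g y = y'; E g t = r for
some t ∈ (x, y) ⊆ X, so r ∈ X.
-/

set_option autoImplicit false

namespace Pool.Agent.Helper17.BHC

open Pool.Agent.Helper56.QV

universe u

namespace FibrePriv

open ExtPriv

variable {X : Set ℝ}

theorem ext_mem (hd : Dense X) (g : X ≃o X) (q : ℝ) : ext g q ∈ X ↔ q ∈ X := by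
  have key : ∀ (g : X ≃o X) (q : ℝ), q ∈ X → ext g q ∈ X := by
    intro g q hq
    have h := ext_app hd g ⟨q, hq⟩
    change ext g q = _ at h
    rw [h]
    exact Subtype.coe_prop _
  refine ⟨fun h => ?_, key g q⟩
  have h1 := key g⁻¹ _ h
  rwa [← ext_mul hd, inv_mul_cancel, ext_one hd] at h1

theorem ext_sup (hd : Dense X) (g h : X ≃o X) (p : ℝ) :
    ext (g ⊔ h) p = max (ext g p) (ext h p) := by
  refine uniq hd (g ⊔ h) fun x => ?_
  rw [lt_iff hd (g ⊔ h) x p]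
  have h1 : (((g ⊔ h) x : X) : ℝ) = max ((g x : X) : ℝ) ((h x : X) : ℝ) := by
    change ((max (g x) (h x) : X) : ℝ) = _
    exact Monotone.map_max (f := ((↑) : X → ℝ)) (fun _ _ h => h)
  rw [h1]
  constructor
  · intro h0
    exact max_lt_max ((lt_iff hd g x p).2 h0) ((lt_iff hd h x p).2 h0)
  · intro h0
    by_contra hc
    exact absurd h0 (not_lt.2 (max_le_max (ext_le hd g (not_lt.1 hc)) (ext_le hd h (not_lt.1 hc))))

/-- A chain with a part that is fibred over the real line, with two types of fibres. -/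
structure Fb (X : Set ℝ) (Ω : Type u) [LinearOrder Ω] where
  hd : Dense X
  J : Set Ω
  conv : J.OrdConnected
  p : Ω → ℝ
  mono : MonotoneOn p J
  x0 : ℝ
  y0 : ℝ
  hx : ∀ x ∈ X, Nonempty ({z // z ∈ J ∧ p z = x} ≃o {z // z ∈ J ∧ p z = x0})
  hy : ∀ x ∉ X, Nonempty ({z // z ∈ J ∧ p z = x} ≃o {z // z ∈ J ∧ p z = y0})

namespace Fb

variable {Ω : Type u} [LinearOrder Ω] (Y : Fb X Ω)

open Classical in
/-- The base point of the class of a real number. -/
noncomputable def bpt (x : ℝ) : ℝ := if x ∈ X then Y.x0 else Y.y0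

theorem bpt_ext (g : X ≃o X) (x : ℝ) : Y.bpt (ext g x) = Y.bpt x := by
  by_cases h : x ∈ X
  · rw [bpt, bpt, if_pos h, if_pos ((ext_mem Y.hd g x).2 h)]
  · rw [bpt, bpt, if_neg h, if_neg (fun h' => h ((ext_mem Y.hd g x).1 h'))]

theorem exists_uv (x : ℝ) : ∃ u v : Ω → Ω,
    (∀ z, z ∈ Y.J → Y.p z = x → u z ∈ Y.J ∧ Y.p (u z) = Y.bpt x ∧ v (u z) = z) ∧
    (∀ w, w ∈ Y.J → Y.p w = Y.bpt x → v w ∈ Y.J ∧ Y.p (v w) = x ∧ u (v w) = w) ∧
    (∀ z w, z ∈ Y.J → Y.p z = x → w ∈ Y.J → Y.p w = x → z < w → u z < u w) ∧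
    (∀ z w, z ∈ Y.J → Y.p z = Y.bpt x → w ∈ Y.J → Y.p w = Y.bpt x → z < w → v z < v w) := by
  classical
  have h1 : Nonempty ({z // z ∈ Y.J ∧ Y.p z = x} ≃o {z // z ∈ Y.J ∧ Y.p z = Y.bpt x}) := by
    by_cases h : x ∈ X
    · rw [bpt, if_pos h]
      exact Y.hx _ h
    · rw [bpt, if_neg h]
      exact Y.hy _ h
  obtain ⟨e⟩ := h1
  refine ⟨fun z => if h : z ∈ Y.J ∧ Y.p z = x then (e ⟨z, h⟩).1 else z,
    fun z => if h : z ∈ Y.J ∧ Y.p z = Y.bpt x then (e.symm ⟨z, h⟩).1 else z, ?_, ?_, ?_, ?_⟩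
  · intro z h1 h2
    have h3 : z ∈ Y.J ∧ Y.p z = x := ⟨h1, h2⟩
    simp only [dif_pos h3]
    refine ⟨(e ⟨z, h3⟩).2.1, (e ⟨z, h3⟩).2.2, ?_⟩
    rw [dif_pos (e ⟨z, h3⟩).2]
    have h4 : e.symm (⟨(e ⟨z, h3⟩).1, (e ⟨z, h3⟩).2⟩) = ⟨z, h3⟩ := e.symm_apply_apply _
    rw [h4]
  · intro z h1 h2
    have h3 : z ∈ Y.J ∧ Y.p z = Y.bpt x := ⟨h1, h2⟩
    simp only [dif_pos h3]
    refine ⟨(e.symm ⟨z, h3⟩).2.1, (e.symm ⟨z, h3⟩).2.2, ?_⟩
    rw [dif_pos (e.symm ⟨z, h3⟩).2]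
    have h4 : e (⟨(e.symm ⟨z, h3⟩).1, (e.symm ⟨z, h3⟩).2⟩) = ⟨z, h3⟩ := e.apply_symm_apply _
    rw [h4]
  · intro z w h1 h2 h3 h4 h
    simp only [dif_pos (show z ∈ Y.J ∧ Y.p z = x from ⟨h1, h2⟩),
      dif_pos (show w ∈ Y.J ∧ Y.p w = x from ⟨h3, h4⟩)]
    exact e.lt_iff_lt.2 h
  · intro z w h1 h2 h3 h4 h
    simp only [dif_pos (show z ∈ Y.J ∧ Y.p z = Y.bpt x from ⟨h1, h2⟩),
      dif_pos (show w ∈ Y.J ∧ Y.p w = Y.bpt x from ⟨h3, h4⟩)]
    exact e.symm.lt_iff_lt.2 h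

/-- Coordinates in the fibres. -/
noncomputable def U (x : ℝ) : Ω → Ω := (Y.exists_uv x).choose

/-- Inverse coordinates. -/
noncomputable def V (x : ℝ) : Ω → Ω := (Y.exists_uv x).choose_spec.choose

variable {Y}

theorem hU {x : ℝ} {z : Ω} (h : z ∈ Y.J) (hx : Y.p z = x) :
    Y.U x z ∈ Y.J ∧ Y.p (Y.U x z) = Y.bpt x ∧ Y.V x (Y.U x z) = z :=
  (Y.exists_uv x).choose_spec.choose_spec.1 z h hx

theorem hV {x : ℝ} {z : Ω} (h : z ∈ Y.J) (hx : Y.p z = Y.bpt x) :
    Y.V x z ∈ Y.J ∧ Y.p (Y.V x z) = x ∧ Y.U x (Y.V x z) = z :=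
  (Y.exists_uv x).choose_spec.choose_spec.2.1 z h hx

theorem hUlt {x : ℝ} {z w : Ω} (h : z ∈ Y.J) (hx : Y.p z = x) (hw : w ∈ Y.J) (hwx : Y.p w = x)
    (hzw : z < w) : Y.U x z < Y.U x w :=
  (Y.exists_uv x).choose_spec.choose_spec.2.2.1 z w h hx hw hwx hzw

theorem hVlt {x : ℝ} {z w : Ω} (h : z ∈ Y.J) (hx : Y.p z = Y.bpt x) (hw : w ∈ Y.J)
    (hwx : Y.p w = Y.bpt x) (hzw : z < w) : Y.V x z < Y.V x w :=
  (Y.exists_uv x).choose_spec.choose_spec.2.2.2 z w h hx hw hwx hzw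

variable (Y) in
open Classical in
/-- The action. -/
noncomputable def act (g : X ≃o X) (z : Ω) : Ω :=
  if z ∈ Y.J then Y.V (ext g (Y.p z)) (Y.U (Y.p z) z) else z

theorem act_in (g : X ≃o X) {z : Ω} (h : z ∈ Y.J) :
    Y.act g z ∈ Y.J ∧ Y.p (Y.act g z) = ext g (Y.p z) ∧
      Y.U (ext g (Y.p z)) (Y.act g z) = Y.U (Y.p z) z := by
  have h1 := hU h rfl
  rw [act, if_pos h]
  exact hV h1.1 (h1.2.1.trans (Y.bpt_ext g _).symm)

theorem act_out (g : X ≃o X) {z : Ω} (h : z ∉ Y.J) : Y.act g z = z := by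
  rw [act, if_neg h]

theorem eq_of_U {x : ℝ} {z w : Ω} (h : z ∈ Y.J) (hx : Y.p z = x) (hw : w ∈ Y.J)
    (hwx : Y.p w = x) (hU' : Y.U x z = Y.U x w) : z = w := by
  rw [← (hU h hx).2.2, hU', (hU hw hwx).2.2]

theorem act_mul (g h : X ≃o X) (z : Ω) : Y.act (g * h) z = Y.act g (Y.act h z) := by
  by_cases hz : z ∈ Y.J
  · obtain ⟨h1, h2, h3⟩ := act_in (g * h) hz
    obtain ⟨h4, h5, h6⟩ := act_in h hz
    obtain ⟨h7, h8, h9⟩ := act_in g h4
    have h10 : ext (g * h) (Y.p z) = ext g (Y.p (Y.act h z)) := by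
      rw [h5]
      exact ext_mul Y.hd g h _
    apply eq_of_U h1 h2 h7
    · rw [h10]
      exact h8
    · rw [h3, h10, h9, h5, h6]
  · rw [act_out _ hz, act_out _ hz, act_out _ hz]

theorem act_one (z : Ω) : Y.act 1 z = z := by
  by_cases hz : z ∈ Y.J
  · obtain ⟨h1, h2, h3⟩ := act_in 1 hz
    have h4 : ext (1 : X ≃o X) (Y.p z) = Y.p z := ext_one Y.hd _
    rw [h4] at h2 h3
    exact eq_of_U h1 h2 hz rfl h3
  · exact act_out _ hz

theorem lt_of_p {z w : Ω} (h : z ∈ Y.J) (hw : w ∈ Y.J) (hp : Y.p z < Y.p w) : z < w := by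
  by_contra hc
  exact absurd (Y.mono hw h (not_lt.1 hc)) (not_le.2 hp)

theorem act_strictMono (g : X ≃o X) : StrictMono (Y.act g) := by
  intro z w hzw
  by_cases hz : z ∈ Y.J
  · obtain ⟨h1, h2, h3⟩ := act_in g hz
    by_cases hw : w ∈ Y.J
    · obtain ⟨h4, h5, h6⟩ := act_in g hw
      rcases (Y.mono hz hw hzw.le).lt_or_eq with h7 | h7
      · apply lt_of_p h1 h4
        rw [h2, h5]
        exact ext_mono Y.hd g h7
      · have h8 := hUlt hz h7 hw rfl hzw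
        have h9 := hU hw rfl
        have h10 := hU hz h7
        rw [act, if_pos hz, act, if_pos hw, h7]
        exact hVlt h10.1 (h10.2.1.trans (Y.bpt_ext g _).symm) h9.1
          (h9.2.1.trans (Y.bpt_ext g _).symm) h8
    · rw [act_out g hw]
      by_contra hc
      exact hw (Y.conv.out hz h1 ⟨hzw.le, not_lt.1 hc⟩)
  · rw [act_out g hz]
    by_cases hw : w ∈ Y.J
    · obtain ⟨h4, _, _⟩ := act_in g hw
      by_contra hc
      exact hz (Y.conv.out h4 hw ⟨not_lt.1 hc, hzw.le⟩)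
    · rw [act_out g hw]
      exact hzw

variable (Y) in
/-- The automorphism of `Ω`. -/
noncomputable def em (g : X ≃o X) : Ω ≃o Ω where
  toFun := Y.act g
  invFun := Y.act g⁻¹
  left_inv z := by rw [← act_mul, inv_mul_cancel, act_one]
  right_inv z := by rw [← act_mul, mul_inv_cancel, act_one]
  map_rel_iff' := (act_strictMono g).le_iff_le

theorem act_sup (g h : X ≃o X) (z : Ω) : Y.act (g ⊔ h) z = max (Y.act g z) (Y.act h z) := by
  by_cases hz : z ∈ Y.J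
  · have h0 : ext (g ⊔ h) (Y.p z) = max (ext g (Y.p z)) (ext h (Y.p z)) :=
      ext_sup Y.hd g h _
    obtain ⟨h1, h2, _⟩ := act_in g hz
    obtain ⟨h4, h5, _⟩ := act_in h hz
    rcases lt_trichotomy (ext g (Y.p z)) (ext h (Y.p z)) with h7 | h7 | h7
    · have h8 : Y.act g z < Y.act h z := lt_of_p h1 h4 (by rw [h2, h5]; exact h7)
      rw [max_eq_right h8.le]
      rw [act, if_pos hz, act, if_pos hz, h0, max_eq_right h7.le]
    · rw [act, if_pos hz, act, if_pos hz, act, if_pos hz, h0, h7, max_self, max_self]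
    · have h8 : Y.act h z < Y.act g z := lt_of_p h4 h1 (by rw [h2, h5]; exact h7)
      rw [max_eq_left h8.le]
      rw [act, if_pos hz, act, if_pos hz, h0, max_eq_left h7.le]
  · rw [act_out _ hz, act_out _ hz, act_out _ hz, max_self]

variable (Y) in
/-- The embedding of `Aut(X)`. -/
noncomputable def emb : LHom (X ≃o X) (Ω ≃o Ω) where
  toFun := Y.em
  mul' g h := by
    apply OrderIso.ext
    funext z
    exact act_mul g h z
  sup' g h := by
    apply OrderIso.ext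
    funext z
    exact act_sup g h z

end Fb

theorem eq_of_ext (hd : Dense X) (hc : Dense Xᶜ) {g h : X ≃o X}
    (H : ∀ x : ℝ, x ∉ X → ext g x = ext h x) : g = h := by
  have key : ∀ {g h : X ≃o X}, (∀ x : ℝ, x ∉ X → ext g x = ext h x) → ∀ q,
      h q ≤ g q := by
    intro g h H q
    by_contra hcon
    have hlt : (g q : ℝ) < (h q : ℝ) := not_le.1 hcon
    obtain ⟨r, h1, h2⟩ := btw hd hlt
    have h3 : (q : ℝ) < ((g.symm r : X) : ℝ) := by
      have h4 : q < g.symm r := by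
        rw [← g.lt_iff_lt, g.apply_symm_apply]
        exact h1
      exact h4
    obtain ⟨x, hx, h4, h5⟩ := hc.exists_between h3
    have h6 := ext_mono hd g h5
    have h7 := ext_mono hd h h4
    rw [ext_app hd, g.apply_symm_apply] at h6
    rw [ext_app hd] at h7
    rw [H x hx] at h6
    exact absurd (h7.trans h6) (not_lt.2 h2.le)
  apply OrderIso.ext
  funext q
  exact le_antisymm (key (fun x hx => (H x hx).symm) q) (key H q)

end FibrePriv

open FibrePriv ExtPriv in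
theorem holds_of_fibred (X : Set ℝ) (hd : Dense X) (Ω : Type u) [LinearOrder Ω] (J : Set Ω)
    (hJ : J.OrdConnected) (hne : J.Nonempty) (p : Ω → ℝ) (hp : MonotoneOn p J)
    (h1 : ∀ x ∈ X, ∀ y ∈ X, Nonempty ({z // z ∈ J ∧ p z = x} ≃o {z // z ∈ J ∧ p z = y}))
    (h2 : ∀ x ∉ X, ∀ y ∉ X, Nonempty ({z // z ∈ J ∧ p z = x} ≃o {z // z ∈ J ∧ p z = y}))
    (h3 : (∃ z ∈ J, p z ∈ X) ∨ Dense Xᶜ) (φ : QId) (hφ : φ.Holds (Ω ≃o Ω)) :
    φ.Holds (X ≃o X) := by
  obtain ⟨x0, hx0⟩ := hd.nonempty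
  obtain ⟨y0, hy0⟩ : ∃ y : ℝ, ∀ r : ℝ, r ∉ X → y ∉ X := by
    by_cases h : ∃ y : ℝ, y ∉ X
    · obtain ⟨y, hy⟩ := h
      exact ⟨y, fun _ _ => hy⟩
    · exact ⟨0, fun r hr => absurd ⟨r, hr⟩ h⟩
  let Y : Fb X Ω :=
    { hd := hd
      J := J
      conv := hJ
      p := p
      mono := hp
      x0 := x0
      y0 := y0
      hx := fun x hx => h1 x hx x0 hx0
      hy := fun x hx => h2 x hx y0 (hy0 x hx) }
  refine Y.emb.holds ?_ hφ
  intro g h hgh
  have hact : ∀ z, Y.act g z = Y.act h z := fun z =>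
    congrArg (fun F : Ω ≃o Ω => F z) hgh
  have hpe : ∀ z ∈ J, ext g (p z) = ext h (p z) := by
    intro z hz
    have e1 := (Fb.act_in (Y := Y) g hz).2.1
    have e2 := (Fb.act_in (Y := Y) h hz).2.1
    rw [← hact z, e1] at e2
    exact e2
  by_cases hX : ∃ z ∈ J, p z ∈ X
  · obtain ⟨z0, hz0, hz0X⟩ := hX
    apply OrderIso.ext
    funext q
    obtain ⟨e⟩ := h1 (p z0) hz0X q q.2
    have h4 := hpe _ (e ⟨z0, hz0, rfl⟩).2.1
    rw [(e ⟨z0, hz0, rfl⟩).2.2, ext_app hd, ext_app hd] at h4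
    exact Subtype.ext h4
  · have hc : Dense Xᶜ := h3.resolve_left hX
    obtain ⟨z0, hz0⟩ := hne
    have hz0X : p z0 ∉ X := fun h => hX ⟨z0, hz0, h⟩
    apply eq_of_ext hd hc
    intro x hx
    obtain ⟨e⟩ := h2 (p z0) hz0X x hx
    have h4 := hpe _ (e ⟨z0, hz0, rfl⟩).2.1
    rw [(e ⟨z0, hz0, rfl⟩).2.2] at h4
    exact h4

open FibrePriv ExtPriv in
theorem dense_compl (X : Set ℝ) (hd : Dense X) (hX : DoublyHom X) (h : X ≠ Set.univ) :
    Dense Xᶜ := by
  by_contra hc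
  apply h
  obtain ⟨a, b, hab, hI⟩ : ∃ a b : ℝ, a < b ∧ ∀ c, a < c → c < b → c ∈ X := by
    by_contra hcon
    apply hc
    refine dense_iff_exists_between.2 fun a b hab => ?_
    by_contra hcon2
    apply hcon
    refine ⟨a, b, hab, fun c h1 h2 => ?_⟩
    by_contra hcX
    exact hcon2 ⟨c, hcX, h1, h2⟩
  rw [Set.eq_univ_iff_forall]
  intro r
  have hx : a + (b - a) / 3 ∈ X := hI _ (by linarith) (by linarith)
  have hy : a + 2 * (b - a) / 3 ∈ X := hI _ (by linarith) (by linarith)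
  obtain ⟨x', -, hx'⟩ := btw hd (show r - 1 < r by linarith)
  obtain ⟨y', hy', -⟩ := btw hd (show r < r + 1 by linarith)
  obtain ⟨g, hg1, hg2⟩ := hX ⟨_, hx⟩ ⟨_, hy⟩ x' y'
    (by
      change a + (b - a) / 3 < a + 2 * (b - a) / 3
      linarith)
    (show (x' : ℝ) < (y' : ℝ) by linarith)
  have e1 : ext g (a + (b - a) / 3) = (x' : ℝ) := by
    have := ext_app hd g ⟨_, hx⟩
    rw [hg1] at this
    exact this
  have e2 : ext g (a + 2 * (b - a) / 3) = (y' : ℝ) := by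
    have := ext_app hd g ⟨_, hy⟩
    rw [hg2] at this
    exact this
  have e3 : ext g (ext g⁻¹ r) = r := by
    rw [← ext_mul hd, mul_inv_cancel, ext_one hd]
  have h4 : a + (b - a) / 3 < ext g⁻¹ r := by
    rw [← (ext_mono hd g).lt_iff_lt, e1, e3]
    exact hx'
  have h5 : ext g⁻¹ r < a + 2 * (b - a) / 3 := by
    rw [← (ext_mono hd g).lt_iff_lt, e2, e3]
    exact hy'
  have h6 : ext g⁻¹ r ∈ X := hI _ (by linarith) (by linarith)
  rw [← e3]
  exact (ext_mem hd g _).2 h6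

end Pool.Agent.Helper17.BHC
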