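import Pool.Agent.Helper17.BHC.Defs

/-!
BHC Hom: a set of real numbers invariant under the rational affine group is doubly homogeneous.

Proof.  Call a pair of real intervals (open, with end points in ℝ ∪ {±∞}) matched by an order
isomorphism φ if φ p ~ p for all p, where p ~ q means q = l p + z with l, z rational, l > 0 (given by
an element of Aff).  Key fact: for reals u < v and u' < v' there is an order isomorphism
Ioo u v ≃o Ioo u' v' with φ p ~ p for all p; the same for Iio u, Iio u' and for Ioi v, Ioi v'.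
Proof of the key fact: choose rational sequences (d n), (d' n), n : ℤ, strictly increasing, tending
to v (resp. v') for n → ∞ and to u (resp. u') for n → -∞, and let φ be on [d n, d (n+1)) the affine
map onto [d' n, d' (n+1)); it has rational coefficients.  (It may be easier to prove it for a half
open interval [r, v), r rational, with sequences n : ℕ, then glue: Ioo u v = (u, r) ∪ [r, v), and the
left half by reflection x ↦ -x.)
Now given a < b and c < d in X, glue the maps Iio a ≃ Iio c, a ↦ c, Ioo a b ≃ Ioo c d, b ↦ d,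
Ioi b ≃ Ioi d; the result g is an order automorphism of ℝ with g a = c, g b = d and g p ~ p for all
p other than a, b; since X is invariant and a, b, c, d ∈ X, g p ∈ X ↔ p ∈ X for all p.  Restrict.
(A convenient form of the intermediate statement: `∀ a b c d : ℝ, a < b → c < d →
∃ g : ℝ ≃o ℝ, g a = c ∧ g b = d ∧ ∀ p, p ≠ a → p ≠ b → ∃ α : Aff, α.toIso p = g p`.)
-/

set_option autoImplicit false

namespace Pool.Agent.Helper17.BHC

namespace HomAux

/-- related by a rational affine map -/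
def Rl (p q : ℝ) : Prop := ∃ α : Aff, α.toIso p = q

theorem Rl.symm {p q : ℝ} (h : Rl p q) : Rl q p := by
  obtain ⟨α, rfl⟩ := h
  refine ⟨α⁻¹, ?_⟩
  have h1 : (Aff.hom (α⁻¹ * α)) p = p := by
    rw [inv_mul_cancel, map_one]
    rfl
  rw [map_mul] at h1
  exact h1

theorem Rl.trans {p q r : ℝ} (h : Rl p q) (h' : Rl q r) : Rl p r := by
  obtain ⟨α, rfl⟩ := h
  obtain ⟨β, rfl⟩ := h'
  refine ⟨β * α, ?_⟩
  have h1 : (Aff.hom (β * α)) p = (Aff.hom β * Aff.hom α) p := by rw [map_mul]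
  exact h1

/-- the sequence on the integers -/
def dd (a b : ℕ → ℚ) : ℤ → ℚ
  | Int.ofNat n => a n
  | Int.negSucc n => b n

theorem dd_mono {a b : ℕ → ℚ} (ha : StrictMono a) (hb : StrictAnti b) (h : b 0 < a 0) :
    StrictMono (dd a b) := by
  refine strictMono_int_of_lt_succ fun n => ?_
  rcases n with n | n
  · exact ha (Nat.lt_succ_self n)
  · rcases n with _ | n
    · exact h
    · have e : Int.negSucc (n + 1) + 1 = Int.negSucc n := by
        rw [Int.negSucc_eq, Int.negSucc_eq]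
        push_cast
        ring
      rw [e]
      exact hb (Nat.lt_succ_self n)

/-- piecewise affine interpolation -/
noncomputable def DD (d : ℤ → ℚ) (x : ℝ) : ℝ :=
  d ⌊x⌋ + (x - ⌊x⌋) * ((d (⌊x⌋ + 1) : ℝ) - d ⌊x⌋)

theorem DD_gap {d : ℤ → ℚ} (hd : StrictMono d) (k : ℤ) : (0 : ℝ) < (d (k + 1) : ℝ) - d k := by
  have h : d k < d (k + 1) := hd (by omega)
  have h' : (d k : ℝ) < d (k + 1) := by exact_mod_cast h
  linarith

theorem DD_ge {d : ℤ → ℚ} (hd : StrictMono d) (x : ℝ) : (d ⌊x⌋ : ℝ) ≤ DD d x := by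
  have h1 := Int.floor_le x
  have h2 := DD_gap hd ⌊x⌋
  have h3 : 0 ≤ (x - ⌊x⌋) * ((d (⌊x⌋ + 1) : ℝ) - d ⌊x⌋) :=
    mul_nonneg (by linarith) h2.le
  unfold DD
  linarith

theorem DD_lt {d : ℤ → ℚ} (hd : StrictMono d) (x : ℝ) : DD d x < (d (⌊x⌋ + 1) : ℝ) := by
  have h1 := Int.lt_floor_add_one x
  have h2 := DD_gap hd ⌊x⌋
  have h3 : (x - ⌊x⌋) * ((d (⌊x⌋ + 1) : ℝ) - d ⌊x⌋) < 1 * ((d (⌊x⌋ + 1) : ℝ) - d ⌊x⌋) :=
    mul_lt_mul_of_pos_right (by linarith) h2
  unfold DD
  linarith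

theorem DD_mono {d : ℤ → ℚ} (hd : StrictMono d) : StrictMono (DD d) := by
  intro x y hxy
  rcases (Int.floor_mono hxy.le).eq_or_lt with h | h
  · have h2 := DD_gap hd ⌊y⌋
    unfold DD
    rw [h]
    have h3 : (x - ⌊y⌋) * ((d (⌊y⌋ + 1) : ℝ) - d ⌊y⌋) < (y - ⌊y⌋) * ((d (⌊y⌋ + 1) : ℝ) - d ⌊y⌋) :=
      mul_lt_mul_of_pos_right (by linarith) h2
    linarith
  · have h1 : d (⌊x⌋ + 1) ≤ d ⌊y⌋ := hd.monotone (by omega)
    have h1' : (d (⌊x⌋ + 1) : ℝ) ≤ d ⌊y⌋ := by exact_mod_cast h1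
    have h2 := DD_lt hd x
    have h3 := DD_ge hd y
    linarith

theorem DD_rl {d : ℤ → ℚ} (hd : StrictMono d) (x : ℝ) : Rl x (DD d x) := by
  refine ⟨⟨d (⌊x⌋ + 1) - d ⌊x⌋, d ⌊x⌋ - ⌊x⌋ * (d (⌊x⌋ + 1) - d ⌊x⌋), ?_⟩, ?_⟩
  · exact sub_pos.2 (hd (by omega))
  · rw [Aff.toIso_apply]
    unfold DD
    push_cast
    ring

theorem DD_surj {d : ℤ → ℚ} (hd : StrictMono d) {y : ℝ} {n m : ℤ} (h1 : (d n : ℝ) ≤ y)
    (h2 : y < (d m : ℝ)) : ∃ x, DD d x = y := by
  obtain ⟨k, hk, hk'⟩ := Int.exists_greatest_of_bdd (P := fun z => (d z : ℝ) ≤ y)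
    ⟨m, fun z hz => by
      by_contra hcon
      push Not at hcon
      have h3 : d m < d z := hd hcon
      have h3' : (d m : ℝ) < d z := by exact_mod_cast h3
      linarith⟩ ⟨n, h1⟩
  have h3 : y < (d (k + 1) : ℝ) := by
    by_contra hcon
    push Not at hcon
    have := hk' (k + 1) hcon
    omega
  have hg := DD_gap hd k
  obtain ⟨t, ht⟩ : ∃ t : ℝ, t = (y - d k) / ((d (k + 1) : ℝ) - d k) := ⟨_, rfl⟩
  have ht0 : 0 ≤ t := by
    rw [ht]
    exact div_nonneg (by linarith) hg.le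
  have ht1 : t < 1 := by
    rw [ht, div_lt_one hg]
    linarith
  have hf : ⌊(k : ℝ) + t⌋ = k := by
    rw [Int.floor_eq_iff]
    constructor <;> linarith
  refine ⟨(k : ℝ) + t, ?_⟩
  unfold DD
  rw [hf, add_sub_cancel_left, ht, div_mul_cancel₀ _ hg.ne']
  ring

/-- right half lines and half open ends -/
def HR (S : Set ℝ) : Prop := ∀ r : ℚ, (r : ℝ) ∈ S →
  ∃ a : ℕ → ℚ, StrictMono a ∧ r < a 0 ∧ ∀ y : ℝ, y ∈ S ↔ ∃ m, y < (a m : ℝ)

/-- left half lines -/
def HL (T : Set ℝ) : Prop := ∀ r : ℚ, (r : ℝ) ∈ T →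
  ∃ b : ℕ → ℚ, StrictAnti b ∧ b 0 < r ∧ ∀ y : ℝ, y ∈ T ↔ ∃ m, (b m : ℝ) ≤ y

theorem HR_univ : HR Set.univ := by
  intro r _
  refine ⟨fun n => r + 1 + n, ?_, ?_, ?_⟩
  · intro n m h
    have : (n : ℚ) < m := by exact_mod_cast h
    simp only
    linarith
  · simp
  · intro y
    refine ⟨fun _ => ?_, fun _ => Set.mem_univ _⟩
    obtain ⟨n, hn⟩ := exists_nat_gt (y - r - 1)
    refine ⟨n, ?_⟩
    push_cast
    linarith

theorem HR_Iio (v : ℝ) : HR (Set.Iio v) := by
  intro r hr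
  obtain ⟨u, hu, huv, hut⟩ := Real.exists_seq_rat_strictMono_tendsto v
  have h1 : ∀ᶠ n in Filter.atTop, (r : ℝ) < u n := hut.eventually (lt_mem_nhds hr)
  obtain ⟨N, hN⟩ := Filter.eventually_atTop.1 h1
  refine ⟨fun n => u (n + N), fun n m h => hu (by omega), ?_, ?_⟩
  · have := hN (0 + N) (by omega)
    exact_mod_cast this
  · intro y
    constructor
    · intro hy
      have h2 : ∀ᶠ n in Filter.atTop, y < u n := hut.eventually (lt_mem_nhds hy)
      obtain ⟨n, hn, hn'⟩ := (h2.and (Filter.eventually_ge_atTop N)).exists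
      refine ⟨n - N, ?_⟩
      have e : n - N + N = n := by omega
      simp only
      rw [e]
      exact hn
    · rintro ⟨m, hm⟩
      exact hm.trans (huv _)

theorem HL_of_HR {S : Set ℝ} (h : HR S) : HL {y | -y ∈ S} := by
  intro r hr
  obtain ⟨a, ha, ha0, has⟩ := h (-r) (by
    have : -(r : ℝ) ∈ S := hr
    rw [Rat.cast_neg]
    exact this)
  refine ⟨fun n => -a n, fun n m hnm => neg_lt_neg (ha hnm), by simp only; linarith, fun y => ?_⟩
  have h1 := has (-y)
  rw [Set.mem_setOf_eq, h1]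
  constructor
  · rintro ⟨m, hm⟩
    refine ⟨m, ?_⟩
    push_cast
    linarith
  · rintro ⟨m, hm⟩
    refine ⟨m + 1, ?_⟩
    have h2 : a m < a (m + 1) := ha (Nat.lt_succ_self m)
    have h2' : (a m : ℝ) < a (m + 1) := by exact_mod_cast h2
    push_cast at hm
    linarith

theorem HL_univ : HL Set.univ := by
  have h := HL_of_HR HR_univ
  have e : {y : ℝ | -y ∈ (Set.univ : Set ℝ)} = Set.univ := by
    ext y
    simp
  rwa [e] at h

theorem HL_Ioi (u : ℝ) : HL (Set.Ioi u) := by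
  have h := HL_of_HR (HR_Iio (-u))
  have e : {y : ℝ | -y ∈ Set.Iio (-u)} = Set.Ioi u := by
    ext y
    simp
  rwa [e] at h

/-- parametrization of an interval -/
def Par (J : Set ℝ) : Prop := ∃ D : ℝ → ℝ, StrictMono D ∧ (∀ y, y ∈ J ↔ ∃ x, D x = y) ∧ ∀ x, Rl x (D x)

theorem par {S T : Set ℝ} (hS : HR S) (hT : HL T) {r : ℚ} (hrS : (r : ℝ) ∈ S) (hrT : (r : ℝ) ∈ T) :
    Par (T ∩ S) := by
  obtain ⟨a, ha, ha0, has⟩ := hS r hrS
  obtain ⟨b, hb, hb0, hbs⟩ := hT r hrT
  have hd := dd_mono ha hb (hb0.trans ha0)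
  have hab : ((b 0 : ℚ) : ℝ) < a 0 := by exact_mod_cast hb0.trans ha0
  refine ⟨DD (dd a b), DD_mono hd, fun y => ?_, DD_rl hd⟩
  constructor
  · rintro ⟨h1, h2⟩
    obtain ⟨k, hk⟩ := (hbs y).1 h1
    obtain ⟨m, hm⟩ := (has y).1 h2
    exact DD_surj hd (n := Int.negSucc k) (m := Int.ofNat m) hk hm
  · rintro ⟨x, rfl⟩
    have h1 := DD_ge hd x
    have h2 := DD_lt hd x
    constructor
    · rw [hbs]
      rcases hk : ⌊x⌋ with n | n
      · rw [hk] at h1
        refine ⟨0, ?_⟩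
        have h3 : a 0 ≤ a n := ha.monotone (Nat.zero_le n)
        have h3' : (a 0 : ℝ) ≤ a n := by exact_mod_cast h3
        have h4 : (a n : ℝ) ≤ DD (dd a b) x := h1
        linarith
      · rw [hk] at h1
        exact ⟨n, h1⟩
    · rw [has]
      rcases hk : ⌊x⌋ + 1 with n | n
      · rw [hk] at h2
        exact ⟨n, h2⟩
      · rw [hk] at h2
        refine ⟨0, ?_⟩
        have h3 : b n ≤ b 0 := hb.antitone (Nat.zero_le n)
        have h3' : (b n : ℝ) ≤ b 0 := by exact_mod_cast h3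
        have h4 : DD (dd a b) x < (b n : ℝ) := h2
        linarith

theorem par_Iio (u : ℝ) : Par (Set.Iio u) := by
  obtain ⟨r, hr⟩ := exists_rat_lt u
  have h := par (HR_Iio u) HL_univ (r := r) hr (Set.mem_univ _)
  rwa [Set.univ_inter] at h

theorem par_Ioi (u : ℝ) : Par (Set.Ioi u) := by
  obtain ⟨r, hr⟩ := exists_rat_gt u
  have h := par HR_univ (HL_Ioi u) (r := r) (Set.mem_univ _) hr
  rwa [Set.inter_univ] at h

theorem par_Ioo {u v : ℝ} (huv : u < v) : Par (Set.Ioo u v) := by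
  obtain ⟨r, hr1, hr2⟩ := exists_rat_btwn huv
  have h := par (HR_Iio v) (HL_Ioi u) (r := r) hr2 hr1
  rwa [Set.Ioi_inter_Iio] at h

theorem match_of {J J' : Set ℝ} (h : Par J) (h' : Par J') : ∃ φ : ℝ → ℝ,
    (∀ p ∈ J, ∀ q ∈ J, p < q → φ p < φ q) ∧ (∀ p ∈ J, φ p ∈ J') ∧ (∀ q ∈ J', ∃ p ∈ J, φ p = q) ∧
      ∀ p ∈ J, Rl p (φ p) := by
  obtain ⟨D, hD, hDJ, hDr⟩ := h
  obtain ⟨D', hD', hDJ', hDr'⟩ := h'
  have hinv : ∀ p ∈ J, D (Function.invFun D p) = p := fun p hp =>
    Function.invFun_eq ((hDJ p).1 hp)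
  have hinv' : ∀ x, Function.invFun D (D x) = x := Function.leftInverse_invFun hD.injective
  refine ⟨fun p => D' (Function.invFun D p), fun p hp q hq hpq => ?_, fun p _ => ?_, fun q hq => ?_,
    fun p hp => ?_⟩
  · refine hD' ?_
    rw [← hD.lt_iff_lt, hinv p hp, hinv q hq]
    exact hpq
  · exact (hDJ' _).2 ⟨_, rfl⟩
  · obtain ⟨x, hx⟩ := (hDJ' q).1 hq
    refine ⟨D x, (hDJ _).2 ⟨x, rfl⟩, ?_⟩
    simp only
    rw [hinv', hx]
  · have h1 := hDr (Function.invFun D p)
    rw [hinv p hp] at h1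
    exact h1.symm.trans (hDr' _)

theorem exists_g {a b c d : ℝ} (hab : a < b) (hcd : c < d) : ∃ g : ℝ ≃o ℝ, g a = c ∧ g b = d ∧
    ∀ p, p ≠ a → p ≠ b → ∃ α : Aff, α.toIso p = g p := by
  obtain ⟨f1, m1, i1, s1, r1⟩ := match_of (par_Iio a) (par_Iio c)
  obtain ⟨f2, m2, i2, s2, r2⟩ := match_of (par_Ioo hab) (par_Ioo hcd)
  obtain ⟨f3, m3, i3, s3, r3⟩ := match_of (par_Ioi b) (par_Ioi d)
  have i1' : ∀ p, p < a → f1 p < c := fun p hp => i1 p hp
  have i2a : ∀ p, a < p → p < b → c < f2 p := fun p h1 h2 => (i2 p ⟨h1, h2⟩).1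
  have i2b : ∀ p, a < p → p < b → f2 p < d := fun p h1 h2 => (i2 p ⟨h1, h2⟩).2
  have i3' : ∀ p, b < p → d < f3 p := fun p hp => i3 p hp
  obtain ⟨g, hg⟩ : ∃ g : ℝ → ℝ, g = fun p => if p < a then f1 p else if p = a then c else
    if p < b then f2 p else if p = b then d else f3 p := ⟨_, rfl⟩
  have g1 : ∀ p, p < a → g p = f1 p := fun p hp => by
    rw [hg]
    simp only
    rw [if_pos hp]
  have g2 : g a = c := by
    rw [hg]
    simp only
    rw [if_neg (lt_irrefl a), if_pos trivial]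
  have g3 : ∀ p, a < p → p < b → g p = f2 p := fun p hp hp' => by
    rw [hg]
    simp only
    rw [if_neg hp.not_gt, if_neg hp.ne', if_pos hp']
  have g4 : g b = d := by
    rw [hg]
    simp only
    rw [if_neg hab.not_gt, if_neg hab.ne', if_neg (lt_irrefl b), if_pos trivial]
  have g5 : ∀ p, b < p → g p = f3 p := fun p hp => by
    rw [hg]
    simp only
    rw [if_neg (hab.trans hp).not_gt, if_neg (hab.trans hp).ne', if_neg hp.not_gt, if_neg hp.ne']
  have hcase : ∀ p : ℝ, p < a ∨ p = a ∨ (a < p ∧ p < b) ∨ p = b ∨ b < p := by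
    intro p
    rcases lt_trichotomy p a with h | h | h
    · exact Or.inl h
    · exact Or.inr (Or.inl h)
    · rcases lt_trichotomy p b with h' | h' | h'
      · exact Or.inr (Or.inr (Or.inl ⟨h, h'⟩))
      · exact Or.inr (Or.inr (Or.inr (Or.inl h')))
      · exact Or.inr (Or.inr (Or.inr (Or.inr h')))
  have hmono : StrictMono g := by
    intro p q hpq
    rcases hcase p with h | h | ⟨h, h'⟩ | h | h
    · rw [g1 p h]
      have k1 := i1' p h
      rcases hcase q with k | k | ⟨k, k'⟩ | k | k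
      · rw [g1 q k]
        exact m1 p h q k hpq
      · rw [k, g2]
        exact k1
      · rw [g3 q k k']
        have := i2a q k k'
        linarith
      · rw [k, g4]
        linarith
      · rw [g5 q k]
        have := i3' q k
        linarith
    · rw [h, g2]
      rw [h] at hpq
      rcases hcase q with k | k | ⟨k, k'⟩ | k | k
      · exact absurd hpq k.not_gt
      · exact absurd hpq k.not_gt
      · rw [g3 q k k']
        exact i2a q k k'
      · rw [k, g4]
        exact hcd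
      · rw [g5 q k]
        have := i3' q k
        linarith
    · rw [g3 p h h']
      have k1 := i2b p h h'
      rcases hcase q with k | k | ⟨k, k'⟩ | k | k
      · exact absurd (h.trans hpq) k.not_gt
      · exact absurd (h.trans hpq) k.not_gt
      · rw [g3 q k k']
        exact m2 p ⟨h, h'⟩ q ⟨k, k'⟩ hpq
      · rw [k, g4]
        exact k1
      · rw [g5 q k]
        have := i3' q k
        linarith
    · rw [h, g4]
      rw [h] at hpq
      rcases hcase q with k | k | ⟨k, k'⟩ | k | k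
      · linarith
      · linarith
      · linarith
      · linarith
      · rw [g5 q k]
        exact i3' q k
    · rw [g5 p h, g5 q (h.trans hpq)]
      exact m3 p h q (h.trans hpq) hpq
  have hsurj : Function.Surjective g := by
    intro y
    rcases lt_trichotomy y c with h | h | h
    · obtain ⟨p, hp, hpy⟩ := s1 y h
      exact ⟨p, by rw [g1 p hp, hpy]⟩
    · exact ⟨a, by rw [g2, h]⟩
    · rcases lt_trichotomy y d with h' | h' | h'
      · obtain ⟨p, hp, hpy⟩ := s2 y ⟨h, h'⟩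
        exact ⟨p, by rw [g3 p hp.1 hp.2, hpy]⟩
      · exact ⟨b, by rw [g4, h']⟩
      · obtain ⟨p, hp, hpy⟩ := s3 y h'
        exact ⟨p, by rw [g5 p hp, hpy]⟩
  refine ⟨hmono.orderIsoOfSurjective g hsurj, ?_, ?_, ?_⟩
  · rw [StrictMono.coe_orderIsoOfSurjective]
    exact g2
  · rw [StrictMono.coe_orderIsoOfSurjective]
    exact g4
  · intro p hpa hpb
    rw [StrictMono.coe_orderIsoOfSurjective]
    rcases hcase p with h | h | ⟨h, h'⟩ | h | h
    · rw [g1 p h]
      exact r1 p h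
    · exact absurd h hpa
    · rw [g3 p h h']
      exact r2 p ⟨h, h'⟩
    · exact absurd h hpb
    · rw [g5 p h]
      exact r3 p h

end HomAux

theorem doublyHom_of_aff (X : Set ℝ) (h : ∀ (a : Aff) (p : ℝ), a.toIso p ∈ X ↔ p ∈ X) :
    DoublyHom X := by
  rintro ⟨a, ha⟩ ⟨b, hb⟩ ⟨c, hc⟩ ⟨d, hd⟩ hab hcd
  obtain ⟨g, ga, gb, gr⟩ := HomAux.exists_g (show a < b from hab) (show c < d from hcd)
  have hX : ∀ p, g p ∈ X ↔ p ∈ X := by
    intro p
    by_cases hpa : p = a
    · rw [hpa, ga]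
      exact iff_of_true hc ha
    by_cases hpb : p = b
    · rw [hpb, gb]
      exact iff_of_true hd hb
    obtain ⟨α, hα⟩ := gr p hpa hpb
    rw [← hα]
    exact h α p
  refine ⟨{ toFun := fun p => ⟨g p, (hX p).2 p.2⟩
            invFun := fun q => ⟨g.symm q, (hX _).1 (by rw [g.apply_symm_apply]; exact q.2)⟩
            left_inv := fun p => Subtype.ext (g.symm_apply_apply _)
            right_inv := fun q => Subtype.ext (g.apply_symm_apply _)
            map_rel_iff' := fun {p q} => g.le_iff_le (x := (p : ℝ)) (y := (q : ℝ)) }, ?_, ?_⟩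
  · exact Subtype.ext ga
  · exact Subtype.ext gb

end Pool.Agent.Helper17.BHC
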