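import Pool.Agent.Helper17.BHC.Defs

/-!
BHC Model (version 2; version 1 by helper84 is in the git history, reuse its H, T, S, B):
the premises of the quasi-identity (new: s * f = f * s instead of |s| ∧ f = 1) have a non-trivial
solution in a NORMAL-VALUED lattice-ordered group.

Proof. H = Lex (ℤ →₀ ℤ), chain Om = ℤ ×ₗ (H ×ₗ ℤ), points (n, x, u).
e (n, x, u) = (n, x + single 0 1, u); s (n, x, u) = (n + 1, S x, u) with (S x) (i + 1) = x i;
b (n, x, u) = (n, B x, u) with (B x) i = x i + (if i is odd then x (i - 1) else 0);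
f (n, x, u) = (n, x, u + 1) if x = 0 and (n, x, u) otherwise.
Relations as in version 1 (s f = f s since S x = 0 iff x = 0; |b| ∧ f = 1 since b fixes (n, 0, u)).
G = the set of all g : Om ≃o Om for which there is m : ℤ with Good m g:
 (i) the first coordinate of g p is the first coordinate of p plus m, for all p;
 (ii) Dif k d p q → Dif (k + m) d (g p) (g q) for all k : WithTop ℤ, d : ℤ, p, q,
where dg p k = x k for p = (n, x, u), k : ℤ, dg p ⊤ = u, and Dif k d p q means: p, q have the same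
first coordinate, dg p j = dg q j for all j < k, dg q k - dg p k = d.
Calculus: Dif k a p q, Dif k c q r → Dif k (a + c) p r; Dif k a p q → Dif k (-a) q p;
Dif k a p q, a > 0 → p < q; if p ≠ q have the same first coordinate there are k, a ≠ 0 with
Dif k a p q (least place where x, x' differ, or ⊤); Dif k a p q, k' < k → Dif k' 0 p q.
G is closed under 1, products, inverses (if g p, g q satisfy Dif (k + m) d and p ≠ q: take k', a ≠ 0
with Dif k' a p q; then Dif (k' + m) a (g p) (g q), compare k' with k), pointwise max and min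
(m for max: if m_g ≠ m_h then g ⊔ h is one of the two; if m_g = m_h = m: suppose Dif k d p q; if at p
and q the max is attained by the same of the two, clear; otherwise say g p ≥ h p, h q ≥ g q:
Dif (k+m) d (g p) (g q) and Dif (k+m) d (h p) (h q); let Dif' = the first difference of h p, g p; if
it is at a place > k + m (less significant) then g p and h p agree up to k + m, fine; if it is at a
place l ≤ k + m with amount c > 0 (g p above h p) then, since Dif l 0 or Dif l d (l = k + m) holds for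
both pairs with the same amount, g q is above h q at l by the same amount c, so g q > h q,
contradiction).
It is an LGroup with the induced operations and order; e, s, b, f ∈ G (m = 0, 1, 0, 0).
NormalValued: x, y ≥ 1 in G, p a point; show x (y p) ≤ y (y (x (x p))).  m_x, m_y ≥ 0.  If
m_x + m_y > 0 compare first coordinates.  If both are 0: put q = y p, r = x q, p ≤ q ≤ r.  If p = q or
q = r this is clear by monotonicity.  Otherwise let k be the more significant of the places of the
first differences of (p, q) and (q, r): Dif k d p q, Dif k d' q r, d, d' ≥ 0, d + d' > 0.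
Then Dif k d (x p) r (apply x), so Dif k d' p (x p), so Dif k (2 d') p z for z = x (x p);
Dif k d q (y q) and Dif k (2 d') (y p = q) (y z), Dif k (2 d') (y q) (y (y z)); so
Dif k (d + 2 d') q (y (y z)) and Dif k (d + d') r (y (y z)), so r < y (y z).
-/

set_option autoImplicit false

namespace Pool.Agent.Helper17.BHC

open Pool.Agent.Helper56.QV

namespace ModelAux

/-- the places -/
abbrev J : Type := WithTop ℤ

/-- the ordered group -/
abbrev H : Type := Lex (J →₀ ℤ)

/-- the chain -/
abbrev Om : Type := ℤ ×ₗ H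

theorem h_ext {x y : H} (h : ∀ k : J, ofLex x k = ofLex y k) : x = y :=
  ofLex.injective (Finsupp.ext h)

theorem h_ext2 {x y : H} (h : ∀ i : ℤ, ofLex x (i : J) = ofLex y (i : J))
    (ht : ofLex x ⊤ = ofLex y ⊤) : x = y := by
  apply h_ext
  intro k
  induction k using WithTop.recTopCoe with
  | top => exact ht
  | coe i => exact h i

/-- the shift of the places -/
noncomputable def sf (m : ℤ) : J ≃o J := (OrderIso.addRight m).withTopCongr

theorem sf_top (m : ℤ) : sf m ⊤ = ⊤ := rfl

theorem sf_coe (m i : ℤ) : sf m (i : J) = ((i + m : ℤ) : J) := rfl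

theorem sf_zero (k : J) : sf 0 k = k := by
  induction k using WithTop.recTopCoe with
  | top => rfl
  | coe i => rw [sf_coe, add_zero]

theorem sf_sf (m m' : ℤ) (k : J) : sf m (sf m' k) = sf (m' + m) k := by
  induction k using WithTop.recTopCoe with
  | top => rfl
  | coe i => rw [sf_coe, sf_coe, sf_coe, add_assoc]

/-- the first difference is at `k` or later, and it is `d` at `k` -/
def HD (k : J) (d : ℤ) (x y : H) : Prop :=
  (∀ j < k, ofLex x j = ofLex y j) ∧ ofLex y k - ofLex x k = d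

theorem HD.lt {k : J} {d : ℤ} {x y : H} (h : HD k d x y) (hd : 0 < d) : x < y := by
  rw [Finsupp.Lex.lt_iff]
  refine ⟨k, h.1, ?_⟩
  have h2 := h.2
  linarith

theorem HD.exists {x y : H} (h : x < y) : ∃ k d, 0 < d ∧ HD k d x y := by
  rw [Finsupp.Lex.lt_iff] at h
  obtain ⟨k, h1, h2⟩ := h
  exact ⟨k, _, by linarith, h1, rfl⟩

/-- order isomorphisms from bijections which preserve the differences -/
def mkH (φ : H ≃ H) (m : ℤ) (h : ∀ k d x y, HD k d x y → HD (sf m k) d (φ x) (φ y)) :
    H ≃o H where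
  toEquiv := φ
  map_rel_iff' := by
    intro a b
    have hs : StrictMono φ := fun a b hab => by
      obtain ⟨k, d, hd, h1⟩ := HD.exists hab
      exact (h _ _ _ _ h1).lt hd
    exact hs.le_iff_le

/-- translations -/
noncomputable def T (n : ℤ) : H ≃o H :=
  OrderIso.addRight (toLex (Finsupp.single (n : J) (1 : ℤ)))

theorem T_at (n : ℤ) (x : H) (k : J) :
    ofLex (T n x) k = ofLex x k + (Finsupp.single (n : J) (1 : ℤ)) k := rfl

theorem T_coe (n : ℤ) (x : H) (i : ℤ) :
    ofLex (T n x) (i : J) = ofLex x (i : J) + if n = i then 1 else 0 := by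
  rw [T_at, Finsupp.single_apply]
  simp only [WithTop.coe_inj]

theorem T_top (n : ℤ) (x : H) : ofLex (T n x) ⊤ = ofLex x ⊤ := by
  rw [T_at, Finsupp.single_apply, if_neg (WithTop.coe_ne_top), add_zero]

theorem T_comm (n m : ℤ) : T n * T m = T m * T n := by
  apply OrderIso.ext
  funext x
  change x + _ + _ = x + _ + _
  rw [add_right_comm]

theorem T_HD (n : ℤ) (k : J) (d : ℤ) (x y : H) (h : HD k d x y) : HD k d (T n x) (T n y) := by
  refine ⟨fun j hj => ?_, ?_⟩
  · rw [T_at, T_at, h.1 j hj]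
  · rw [T_at, T_at, ← h.2]
    ring

/-- the shift of finitely supported functions -/
noncomputable def shf : (J →₀ ℤ) ≃ (J →₀ ℤ) := (Finsupp.domCongr (M := ℤ) (sf 1).toEquiv).toEquiv

theorem shf_at (x : J →₀ ℤ) (k : J) : shf x k = x ((sf 1).symm k) := by
  change Finsupp.equivMapDomain (sf 1).toEquiv x k = _
  rw [Finsupp.equivMapDomain_apply]
  rfl

theorem shf_coe (x : J →₀ ℤ) (i : ℤ) : shf x (i : J) = x ((i - 1 : ℤ) : J) := by
  rw [shf_at]
  congr 1

theorem shf_top (x : J →₀ ℤ) : shf x ⊤ = x ⊤ := by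
  rw [shf_at]
  congr 1

/-- the shift -/
noncomputable def S0 : H ≃ H := ofLex.trans (shf.trans toLex)

theorem S0_HD (k : J) (d : ℤ) (x y : H) (h : HD k d x y) : HD (sf 1 k) d (S0 x) (S0 y) := by
  refine ⟨fun j hj => ?_, ?_⟩
  · change shf (ofLex x) j = shf (ofLex y) j
    rw [shf_at, shf_at]
    exact h.1 _ ((sf 1).symm_apply_lt.2 hj)
  · change shf (ofLex y) _ - shf (ofLex x) _ = _
    rw [shf_at, shf_at, OrderIso.symm_apply_apply]
    exact h.2

/-- the shift as an order isomorphism -/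
noncomputable def S : H ≃o H := mkH S0 1 S0_HD

theorem S_coe (x : H) (i : ℤ) : ofLex (S x) (i : J) = ofLex x ((i - 1 : ℤ) : J) := shf_coe _ _

theorem S_top (x : H) : ofLex (S x) ⊤ = ofLex x ⊤ := shf_top _

/-- odd places -/
def OddJ (k : J) : Prop := ∃ i : ℤ, Odd i ∧ k = (i : J)

theorem oddJ_coe (i : ℤ) : OddJ (i : J) ↔ Odd i := by
  constructor
  · rintro ⟨a, ha, h⟩
    rw [WithTop.coe_inj] at h
    rw [h]
    exact ha
  · intro h
    exact ⟨i, h, rfl⟩

theorem oddJ_top : ¬ OddJ ⊤ := by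
  rintro ⟨a, _, h⟩
  exact WithTop.coe_ne_top h.symm

open Classical in
/-- the part of the shift at the odd places -/
noncomputable def C (x : J →₀ ℤ) : J →₀ ℤ := (shf x).filter OddJ

open Classical in
theorem C_coe (x : J →₀ ℤ) (i : ℤ) :
    C x (i : J) = if Odd i then x ((i - 1 : ℤ) : J) else 0 := by
  unfold C
  rw [Finsupp.filter_apply, shf_coe]
  simp only [oddJ_coe]

theorem C_top (x : J →₀ ℤ) : C x ⊤ = 0 := by
  classical
  unfold C
  rw [Finsupp.filter_apply, if_neg oddJ_top]

theorem not_odd_sub {i : ℤ} (h : Odd i) : ¬ Odd (i - 1) := by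
  obtain ⟨a, ha⟩ := h
  rintro ⟨b, hb⟩
  omega

open Classical in
/-- the transvection -/
noncomputable def B0 : H ≃ H where
  toFun x := toLex (ofLex x + C (ofLex x))
  invFun x := toLex (ofLex x - C (ofLex x))
  left_inv x := by
    apply h_ext2
    · intro i
      change ofLex x i + C (ofLex x) i - C (ofLex x + C (ofLex x)) i = ofLex x i
      rw [C_coe, C_coe]
      split_ifs with h
      · rw [Finsupp.add_apply, C_coe, if_neg (not_odd_sub h)]
        ring
      · ring
    · change ofLex x ⊤ + C (ofLex x) ⊤ - C (ofLex x + C (ofLex x)) ⊤ = ofLex x ⊤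
      rw [C_top, C_top]
      ring
  right_inv x := by
    apply h_ext2
    · intro i
      change ofLex x i - C (ofLex x) i + C (ofLex x - C (ofLex x)) i = ofLex x i
      rw [C_coe, C_coe]
      split_ifs with h
      · rw [Finsupp.sub_apply, C_coe, if_neg (not_odd_sub h)]
        ring
      · ring
    · change ofLex x ⊤ - C (ofLex x) ⊤ + C (ofLex x - C (ofLex x)) ⊤ = ofLex x ⊤
      rw [C_top, C_top]
      ring

open Classical in
theorem B0_coe (x : H) (i : ℤ) :
    ofLex (B0 x) (i : J) = ofLex x (i : J) + if Odd i then ofLex x ((i - 1 : ℤ) : J) else 0 := by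
  change ofLex x (i : J) + C (ofLex x) (i : J) = _
  rw [C_coe]

theorem B0_top (x : H) : ofLex (B0 x) ⊤ = ofLex x ⊤ := by
  change ofLex x ⊤ + C (ofLex x) ⊤ = _
  rw [C_top, add_zero]

theorem B0_HD' (k : J) (d : ℤ) (x y : H) (h : HD k d x y) : HD k d (B0 x) (B0 y) := by
  classical
  have h0 : ∀ j : J, (∀ j' < j, ofLex x j' = ofLex y j') →
      ofLex (B0 y) j - ofLex (B0 x) j = ofLex y j - ofLex x j := by
    intro j hj
    induction j using WithTop.recTopCoe with
    | top => rw [B0_top, B0_top]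
    | coe i =>
      rw [B0_coe, B0_coe, hj ((i - 1 : ℤ) : J) (by
        rw [WithTop.coe_lt_coe]
        omega)]
      ring
  refine ⟨fun j hj => ?_, ?_⟩
  · have h1 := h0 j (fun j' hj' => h.1 j' (hj'.trans hj))
    rw [h.1 j hj, sub_self] at h1
    linarith
  · rw [h0 k h.1]
    exact h.2

/-- the transvection as an order isomorphism -/
noncomputable def B : H ≃o H := mkH B0 0 (by
  intro k d x y h
  rw [sf_zero]
  exact B0_HD' k d x y h)

open Classical in
theorem B_coe (x : H) (i : ℤ) :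
    ofLex (B x) (i : J) = ofLex x (i : J) + if Odd i then ofLex x ((i - 1 : ℤ) : J) else 0 :=
  B0_coe _ _

theorem B_top (x : H) : ofLex (B x) ⊤ = ofLex x ⊤ := B0_top _

/-- all integral places vanish -/
def Z (x : H) : Prop := ∀ i : ℤ, ofLex x (i : J) = 0

/-- the unit at the last place -/
noncomputable def u1 : H := toLex (Finsupp.single (⊤ : J) (1 : ℤ))

theorem u1_coe (i : ℤ) : ofLex u1 (i : J) = 0 := by
  change (Finsupp.single (⊤ : J) (1 : ℤ)) (i : J) = 0
  rw [Finsupp.single_apply, if_neg WithTop.top_ne_coe]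

theorem u1_top : ofLex u1 ⊤ = 1 := by
  change (Finsupp.single (⊤ : J) (1 : ℤ)) ⊤ = 1
  rw [Finsupp.single_eq_same]

theorem add_at (x y : H) (k : J) : ofLex (x + y) k = ofLex x k + ofLex y k := rfl

theorem sub_at (x y : H) (k : J) : ofLex (x - y) k = ofLex x k - ofLex y k := rfl

theorem Z_add (x : H) : Z (x + u1) ↔ Z x := by
  unfold Z
  simp only [add_at, u1_coe, add_zero]

theorem Z_sub (x : H) : Z (x - u1) ↔ Z x := by
  unfold Z
  simp only [sub_at, u1_coe, sub_zero]

open Classical in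
/-- the translation of the fibre over zero -/
noncomputable def F0 : H ≃ H where
  toFun x := if Z x then x + u1 else x
  invFun x := if Z x then x - u1 else x
  left_inv x := by
    dsimp only
    by_cases h : Z x
    · rw [if_pos h, if_pos ((Z_add x).2 h), add_sub_cancel_right]
    · rw [if_neg h, if_neg h]
  right_inv x := by
    dsimp only
    by_cases h : Z x
    · rw [if_pos h, if_pos ((Z_sub x).2 h), sub_add_cancel]
    · rw [if_neg h, if_neg h]

theorem F0_pos {x : H} (h : Z x) : F0 x = x + u1 := by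
  classical
  exact if_pos h

theorem F0_neg {x : H} (h : ¬ Z x) : F0 x = x := by
  classical
  exact if_neg h

theorem F0_coe (x : H) (i : ℤ) : ofLex (F0 x) (i : J) = ofLex x (i : J) := by
  by_cases h : Z x
  · rw [F0_pos h, add_at, u1_coe, add_zero]
  · rw [F0_neg h]

theorem F0_HD' (k : J) (d : ℤ) (x y : H) (h : HD k d x y) : HD k d (F0 x) (F0 y) := by
  refine ⟨fun j hj => ?_, ?_⟩
  · induction j using WithTop.recTopCoe with
    | top => exact absurd hj not_top_lt
    | coe i =>
      rw [F0_coe, F0_coe]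
      exact h.1 _ hj
  · induction k using WithTop.recTopCoe with
    | top =>
      have h1 : ∀ i : ℤ, ofLex x (i : J) = ofLex y (i : J) := fun i => h.1 _ (WithTop.coe_lt_top i)
      by_cases hx : Z x
      · have hy : Z y := fun i => (h1 i).symm.trans (hx i)
        rw [F0_pos hx, F0_pos hy, add_at, add_at, ← h.2]
        ring
      · have hy : ¬ Z y := fun hy => hx fun i => (h1 i).trans (hy i)
        rw [F0_neg hx, F0_neg hy]
        exact h.2
    | coe i =>
      rw [F0_coe, F0_coe]
      exact h.2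

/-- the translation of the fibre over zero as an order isomorphism -/
noncomputable def F : H ≃o H := mkH F0 0 (by
  intro k d x y h
  rw [sf_zero]
  exact F0_HD' k d x y h)

theorem F_eq (x : H) : F x = F0 x := rfl

theorem S_T (n : ℤ) : S * T n = T (n + 1) * S := by
  apply OrderIso.ext
  funext x
  apply h_ext2
  · intro i
    change ofLex (S (T n x)) (i : J) = ofLex (T (n + 1) (S x)) (i : J)
    rw [S_coe, T_coe, T_coe, S_coe]
    congr 1
    by_cases h : n = i - 1
    · rw [if_pos h, if_pos (by omega)]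
    · rw [if_neg h, if_neg (by omega)]
  · change ofLex (S (T n x)) ⊤ = ofLex (T (n + 1) (S x)) ⊤
    rw [S_top, T_top, T_top, S_top]

theorem STS (n : ℤ) : S * T n * S⁻¹ = T (n + 1) := by
  rw [S_T, mul_assoc, mul_inv_cancel, mul_one]

theorem B_T0 : B * T 0 = T 0 * T 1 * B := by
  classical
  apply OrderIso.ext
  funext x
  apply h_ext2
  · intro i
    change ofLex (B (T 0 x)) (i : J) = ofLex (T 0 (T 1 (B x))) (i : J)
    rw [B_coe, T_coe, T_coe, T_coe, T_coe, B_coe]
    by_cases h : Odd i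
    · rw [if_pos h, if_pos h]
      have h0 : (0 : ℤ) ≠ i := by
        rintro rfl
        exact absurd h (by decide)
      rw [if_neg h0]
      by_cases h1 : i = 1
      · subst h1
        norm_num
        ring
      · rw [if_neg (show (0 : ℤ) ≠ i - 1 by omega), if_neg (show (1 : ℤ) ≠ i by omega)]
        ring
    · rw [if_neg h, if_neg h]
      have h1 : (1 : ℤ) ≠ i := by
        rintro rfl
        exact h (by decide)
      rw [if_neg h1]
      ring
  · change ofLex (B (T 0 x)) ⊤ = ofLex (T 0 (T 1 (B x))) ⊤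
    rw [B_top, T_top, T_top, T_top, B_top]

theorem B_T1 : B * T 1 = T 1 * B := by
  classical
  apply OrderIso.ext
  funext x
  apply h_ext2
  · intro i
    change ofLex (B (T 1 x)) (i : J) = ofLex (T 1 (B x)) (i : J)
    rw [B_coe, T_coe, T_coe, T_coe, B_coe]
    by_cases h : Odd i
    · rw [if_pos h, if_pos h]
      have h0 : (1 : ℤ) ≠ i - 1 := by
        intro h1
        have h2 : i = 2 := by omega
        subst h2
        exact absurd h (by decide)
      rw [if_neg h0]
      ring
    · rw [if_neg h, if_neg h]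
      ring
  · change ofLex (B (T 1 x)) ⊤ = ofLex (T 1 (B x)) ⊤
    rw [B_top, T_top, T_top, B_top]

theorem SSB : S * S * B = B * (S * S) := by
  classical
  apply OrderIso.ext
  funext x
  apply h_ext2
  · intro i
    change ofLex (S (S (B x))) (i : J) = ofLex (B (S (S x))) (i : J)
    rw [S_coe, S_coe, B_coe, B_coe, S_coe, S_coe, S_coe, S_coe]
    congr 1
    by_cases h : Odd i
    · rw [if_pos h, if_pos (by
        obtain ⟨a, ha⟩ := h
        exact ⟨a - 1, by omega⟩)]
    · rw [if_neg h, if_neg (by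
        rintro ⟨a, ha⟩
        exact h ⟨a + 1, by omega⟩)]
  · change ofLex (S (S (B x))) ⊤ = ofLex (B (S (S x))) ⊤
    rw [S_top, S_top, B_top, B_top, S_top, S_top]

theorem Z_S (x : H) : Z (S x) ↔ Z x := by
  constructor
  · intro h i
    have h1 := h (i + 1)
    rw [S_coe, add_sub_cancel_right] at h1
    exact h1
  · intro h i
    rw [S_coe]
    exact h _

theorem S_F : S * F = F * S := by
  apply OrderIso.ext
  funext x
  change S (F0 x) = F0 (S x)
  by_cases h : Z x
  · rw [F0_pos h, F0_pos ((Z_S x).2 h)]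
    apply h_ext2
    · intro i
      rw [S_coe, add_at, add_at, S_coe, u1_coe, u1_coe]
    · rw [S_top, add_at, add_at, S_top]
  · rw [F0_neg h, F0_neg (fun h' => h ((Z_S x).1 h'))]

theorem B_Z {x : H} (h : Z x) : B x = x := by
  classical
  apply h_ext2
  · intro i
    rw [B_coe, h i, h (i - 1)]
    simp
  · rw [B_top]

theorem F_ne {x : H} (h : F x ≠ x) : B x = x := by
  apply B_Z
  by_contra h1
  exact h (F0_neg h1)

theorem le_F (x : H) : x ≤ F x := by
  rw [F_eq]
  by_cases h : Z x
  · rw [F0_pos h]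
    refine le_of_lt (HD.lt (k := ⊤) (d := 1) ⟨fun j hj => ?_, ?_⟩ one_pos)
    · induction j using WithTop.recTopCoe with
      | top => exact absurd hj not_top_lt
      | coe i => rw [add_at, u1_coe, add_zero]
    · rw [add_at, u1_top]
      ring
  · rw [F0_neg h]

theorem F_le (x : H) : F x ≤ T 0 x := by
  refine le_of_lt (HD.lt (k := ((0 : ℤ) : J)) (d := 1) ⟨fun j hj => ?_, ?_⟩ one_pos)
  · induction j using WithTop.recTopCoe with
    | top => exact absurd hj not_top_lt
    | coe i =>
      rw [WithTop.coe_lt_coe] at hj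
      rw [F_eq, F0_coe, T_coe, if_neg (by omega), add_zero]
  · rw [F_eq, F0_coe, T_coe, if_pos rfl]
    ring

/-! ### the chain of levels -/

/-- the level -/
def lv (p : Om) : ℤ := (ofLex p).1

/-- the point -/
def pt (p : Om) : H := (ofLex p).2

theorem om_ext {p q : Om} (h1 : lv p = lv q) (h2 : pt p = pt q) : p = q :=
  ofLex.injective (Prod.ext h1 h2)

theorem om_lt {p q : Om} : p < q ↔ lv p < lv q ∨ lv p = lv q ∧ pt p < pt q :=
  Prod.Lex.lt_iff

theorem lv_mono {p q : Om} (h : p ≤ q) : lv p ≤ lv q := by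
  rcases h.lt_or_eq with h | h
  · rcases om_lt.1 h with h | h
    · exact h.le
    · exact h.1.le
  · rw [h]

/-- the differences of points of the same level -/
def Dif (k : J) (d : ℤ) (p q : Om) : Prop := lv p = lv q ∧ HD k d (pt p) (pt q)

theorem Dif.refl (k : J) (p : Om) : Dif k 0 p p := ⟨rfl, fun _ _ => rfl, sub_self _⟩

theorem Dif.trans {k : J} {a c : ℤ} {p q r : Om} (h : Dif k a p q) (h' : Dif k c q r) :
    Dif k (a + c) p r := by
  refine ⟨h.1.trans h'.1, fun j hj => (h.2.1 j hj).trans (h'.2.1 j hj), ?_⟩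
  rw [← h.2.2, ← h'.2.2]
  ring

theorem Dif.symm {k : J} {a : ℤ} {p q : Om} (h : Dif k a p q) : Dif k (-a) q p := by
  refine ⟨h.1.symm, fun j hj => (h.2.1 j hj).symm, ?_⟩
  rw [← h.2.2]
  ring

theorem Dif.lt {k : J} {a : ℤ} {p q : Om} (h : Dif k a p q) (ha : 0 < a) : p < q :=
  om_lt.2 (Or.inr ⟨h.1, h.2.lt ha⟩)

theorem Dif.mono {k k' : J} {a : ℤ} {p q : Om} (h : Dif k a p q) (hk : k' < k) :
    Dif k' 0 p q :=
  ⟨h.1, fun j hj => h.2.1 j (hj.trans hk), by rw [h.2.1 k' hk, sub_self]⟩

theorem Dif.uniq {k : J} {a c : ℤ} {p q : Om} (h : Dif k a p q) (h' : Dif k c p q) : a = c :=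
  h.2.2.symm.trans h'.2.2

theorem Dif.exists {p q : Om} (h : p < q) (hl : lv p = lv q) : ∃ k d, 0 < d ∧ Dif k d p q := by
  rcases om_lt.1 h with h1 | h1
  · exact absurd hl h1.ne
  · obtain ⟨k, d, hd, h2⟩ := HD.exists h1.2
    exact ⟨k, d, hd, hl, h2⟩

/-- the automorphisms considered -/
structure Good (m : ℤ) (g : Om ≃o Om) : Prop where
  lvl : ∀ p, lv (g p) = lv p + m
  dif : ∀ k d p q, Dif k d p q → Dif (sf m k) d (g p) (g q)

theorem Good.one : Good 0 (1 : Om ≃o Om) :=
  ⟨fun p => (add_zero _).symm, fun k d p q h => by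
    rw [sf_zero]
    exact h⟩

theorem Good.mul {m m' : ℤ} {g h : Om ≃o Om} (hg : Good m g) (hh : Good m' h) :
    Good (m' + m) (g * h) := by
  refine ⟨fun p => ?_, fun k d p q hd => ?_⟩
  · change lv (g (h p)) = _
    rw [hg.lvl, hh.lvl, add_assoc]
  · rw [← sf_sf]
    exact hg.dif _ _ _ _ (hh.dif _ _ _ _ hd)

theorem Good.back {m : ℤ} {g : Om ≃o Om} (hg : Good m g) {k : J} {d : ℤ} {p q : Om}
    (h : Dif (sf m k) d (g p) (g q)) : Dif k d p q := by
  have hl : lv p = lv q := by
    have h1 := h.1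
    rw [hg.lvl, hg.lvl] at h1
    omega
  have key : ∀ (d : ℤ) (p q : Om), p < q → lv p = lv q → Dif (sf m k) d (g p) (g q) →
      Dif k d p q := by
    intro d p q hpq hl h
    obtain ⟨k', a, ha, h1⟩ := Dif.exists hpq hl
    have h2 := hg.dif _ _ _ _ h1
    rcases lt_trichotomy k' k with hk | hk | hk
    · have h3 := h.mono ((sf m).lt_iff_lt.2 hk)
      have h4 := h2.uniq h3
      omega
    · subst hk
      rw [h.uniq h2]
      exact h1
    · have h3 := h2.mono ((sf m).lt_iff_lt.2 hk)
      rw [h.uniq h3]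
      exact h1.mono hk
  rcases lt_trichotomy p q with hpq | hpq | hpq
  · exact key d p q hpq hl h
  · subst hpq
    rw [h.uniq (Dif.refl _ _)]
    exact Dif.refl _ _
  · have h1 := (key (-d) q p hpq hl.symm h.symm).symm
    rwa [neg_neg] at h1

theorem Good.inv {m : ℤ} {g : Om ≃o Om} (hg : Good m g) : Good (-m) g⁻¹ := by
  have hgg : ∀ p, g (g⁻¹ p) = p := fun p => g.apply_symm_apply p
  refine ⟨fun p => ?_, fun k d p q hd => ?_⟩
  · have h1 := hg.lvl (g⁻¹ p)
    rw [hgg] at h1
    omega
  · apply hg.back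
    rw [hgg, hgg, sf_sf, neg_add_cancel, sf_zero]
    exact hd

theorem sup_aux {κ : J} {d : ℤ} {a a' c c' : Om} (h1 : Dif κ d a a') (h2 : Dif κ d c c')
    (hl : lv c = lv a) (h3 : c ≤ a) (h4 : a' ≤ c') : Dif κ d a c' := by
  rcases h3.lt_or_eq with h3 | h3
  · obtain ⟨j, x, hx, h5⟩ := Dif.exists h3 hl
    rcases lt_trichotomy j κ with hj | hj | hj
    · have h6 := ((h2.mono hj).symm.trans h5).trans (h1.mono hj)
      exact absurd h4 (not_le.2 (h6.lt (by omega)))
    · subst hj
      have h6 := (h2.symm.trans h5).trans h1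
      exact absurd h4 (not_le.2 (h6.lt (by omega)))
    · have h6 := (h5.mono hj).symm.trans h2
      rwa [neg_zero, zero_add] at h6
  · rw [← h3]
    exact h2

theorem sup_app (g h : Om ≃o Om) (p : Om) : (g ⊔ h) p = max (g p) (h p) := rfl

theorem lt_of_lv {p q : Om} (h : lv p < lv q) : p < q := om_lt.2 (Or.inl h)

theorem Good.sup {m m' : ℤ} {g h : Om ≃o Om} (hg : Good m g) (hh : Good m' h) :
    ∃ l, Good l (g ⊔ h) := by
  rcases lt_trichotomy m m' with hm | hm | hm
  · have h1 : g ≤ h := fun p => (lt_of_lv (by rw [hg.lvl, hh.lvl]; omega)).le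
    rw [sup_eq_right.2 h1]
    exact ⟨m', hh⟩
  · subst hm
    refine ⟨m, fun p => ?_, fun k d p q hd => ?_⟩
    · rw [sup_app]
      rcases max_choice (g p) (h p) with h1 | h1
      · rw [h1]
        exact hg.lvl p
      · rw [h1]
        exact hh.lvl p
    · have e1 := hg.dif _ _ _ _ hd
      have e2 := hh.dif _ _ _ _ hd
      rw [sup_app, sup_app]
      have hl : lv (h p) = lv (g p) := by rw [hg.lvl, hh.lvl]
      rcases le_total (g p) (h p) with h1 | h1
      · rcases le_total (g q) (h q) with h2 | h2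
        · rw [max_eq_right h1, max_eq_right h2]
          exact e2
        · rw [max_eq_right h1, max_eq_left h2]
          exact sup_aux e2 e1 hl.symm h1 h2
      · rcases le_total (g q) (h q) with h2 | h2
        · rw [max_eq_left h1, max_eq_right h2]
          exact sup_aux e1 e2 hl h1 h2
        · rw [max_eq_left h1, max_eq_left h2]
          exact e1
  · have h1 : h ≤ g := fun p => (lt_of_lv (by rw [hg.lvl, hh.lvl]; omega)).le
    rw [sup_eq_left.2 h1]
    exact ⟨m, hg⟩

/-- the group -/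
def K : Subgroup (Om ≃o Om) where
  carrier := {g | ∃ m, Good m g}
  mul_mem' := by
    rintro g h ⟨m, hg⟩ ⟨m', hh⟩
    exact ⟨_, hg.mul hh⟩
  one_mem' := ⟨0, Good.one⟩
  inv_mem' := by
    rintro g ⟨m, hg⟩
    exact ⟨_, hg.inv⟩

theorem K_sup {g h : Om ≃o Om} (hg : g ∈ K) (hh : h ∈ K) : g ⊔ h ∈ K := by
  obtain ⟨m, hg⟩ := hg
  obtain ⟨m', hh⟩ := hh
  exact hg.sup hh

theorem K_inf {g h : Om ≃o Om} (hg : g ∈ K) (hh : h ∈ K) : g ⊓ h ∈ K := by
  have h1 := K.inv_mem (K_sup (K.inv_mem hg) (K.inv_mem hh))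
  have h2 : (g⁻¹ ⊔ h⁻¹)⁻¹ = g ⊓ h := by
    rw [← inv_inf, inv_inv]
  rw [h2] at h1
  exact h1

instance : LGroup K :=
  { (inferInstance : Group K),
    (Subtype.lattice (P := fun g => g ∈ K) (fun _ _ hx hy => K_sup hx hy)
      (fun _ _ hx hy => K_inf hx hy) : Lattice K) with
    mul_le_mul_mul := fun a b c d h => LGroup.mul_le_mul_mul a.1 b.1 c.1 d.1 h }

theorem nv_point {x y : Om ≃o Om} {m m' : ℤ} (hx : Good m x) (hy : Good m' y)
    (h1 : ∀ p, p ≤ x p) (h2 : ∀ p, p ≤ y p) (p : Om) : x (y p) ≤ y (y (x (x p))) := by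
  have hm : 0 ≤ m := by
    have h3 := lv_mono (h1 p)
    rw [hx.lvl] at h3
    omega
  have hm' : 0 ≤ m' := by
    have h3 := lv_mono (h2 p)
    rw [hy.lvl] at h3
    omega
  by_cases h0 : m = 0 ∧ m' = 0
  · obtain ⟨rfl, rfl⟩ := h0
    rcases (h2 p).lt_or_eq with h3 | h3
    · rcases (h1 (y p)).lt_or_eq with h4 | h4
      · have l1 : lv p = lv (y p) := by rw [hy.lvl, add_zero]
        have l2 : lv (y p) = lv (x (y p)) := by rw [hx.lvl, add_zero]
        obtain ⟨k1, a, ha, d1⟩ := Dif.exists h3 l1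
        obtain ⟨k2, c, hc, d2⟩ := Dif.exists h4 l2
        obtain ⟨k, d, d', e0, e1, e2, e3, e4⟩ : ∃ k : J, ∃ d d' : ℤ, 0 ≤ d ∧ 0 ≤ d' ∧
            0 < d + d' ∧ Dif k d p (y p) ∧ Dif k d' (y p) (x (y p)) := by
          rcases lt_trichotomy k1 k2 with hk | hk | hk
          · exact ⟨k1, a, 0, ha.le, le_rfl, by omega, d1, d2.mono hk⟩
          · subst hk
            exact ⟨k1, a, c, ha.le, hc.le, by omega, d1, d2⟩
          · exact ⟨k2, 0, c, le_rfl, hc.le, by omega, d1.mono hk, d2⟩
        have ax : ∀ {d : ℤ} {p q : Om}, Dif k d p q → Dif k d (x p) (x q) := by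
          intro d p q h
          have h5 := hx.dif _ _ _ _ h
          rwa [sf_zero] at h5
        have ay : ∀ {d : ℤ} {p q : Om}, Dif k d p q → Dif k d (y p) (y q) := by
          intro d p q h
          have h5 := hy.dif _ _ _ _ h
          rwa [sf_zero] at h5
        have f1 := ((e3.trans e4).trans (ax e3).symm)
        have f2 := f1.trans (ax f1)
        have f3 := (ay e3).trans (ay (ay f2))
        have f4 := e4.symm.trans f3
        exact (f4.lt (by omega)).le
      · rw [← h4]
        have h5 : p ≤ x (x p) := (h1 p).trans (h1 _)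
        have h6 : y p ≤ y (x (x p)) := y.le_iff_le.2 h5
        exact h6.trans (h2 _)
    · rw [← h3]
      exact (h1 (x p)).trans ((h2 _).trans (h2 _))
  · refine (lt_of_lv ?_).le
    rw [hx.lvl, hy.lvl, hy.lvl, hy.lvl, hx.lvl, hx.lvl]
    omega

theorem nvK : NormalValued K := by
  rintro ⟨x, m, hx⟩ ⟨y, m', hy⟩ h1 h2
  exact fun p => nv_point hx hy h1 h2 p

/-- the action on the levels -/
noncomputable def lift : (H ≃o H) →* (Om ≃o Om) where
  toFun φ := Prod.Lex.prodLexCongr (OrderIso.refl ℤ) φ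
  map_one' := by
    apply OrderIso.ext
    funext x
    rfl
  map_mul' φ ψ := by
    apply OrderIso.ext
    funext x
    rfl

theorem lift_lv (φ : H ≃o H) (p : Om) : lv (lift φ p) = lv p := rfl

theorem lift_pt (φ : H ≃o H) (p : Om) : pt (lift φ p) = φ (pt p) := rfl

/-- the shift of the levels -/
noncomputable def Lv : Om ≃o Om := Prod.Lex.prodLexCongr (OrderIso.addRight (1 : ℤ)) (OrderIso.refl H)

theorem Lv_lv (p : Om) : lv (Lv p) = lv p + 1 := rfl

theorem Lv_pt (p : Om) : pt (Lv p) = pt p := rfl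

theorem Lv_comm (φ : H ≃o H) : Lv * lift φ = lift φ * Lv := by
  apply OrderIso.ext
  funext x
  rfl

/-- the shift of the chain -/
noncomputable def SS : Om ≃o Om := Lv * lift S

theorem SS_conj (φ : H ≃o H) : SS * lift φ * SS⁻¹ = lift (S * φ * S⁻¹) := by
  unfold SS
  rw [map_mul, map_mul, map_inv, mul_inv_rev]
  calc Lv * lift S * lift φ * ((lift S)⁻¹ * Lv⁻¹)
      = Lv * (lift S * lift φ * (lift S)⁻¹) * Lv⁻¹ := by group
    _ = Lv * lift (S * φ * S⁻¹) * Lv⁻¹ := by rw [map_mul, map_mul, map_inv]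
    _ = lift (S * φ * S⁻¹) := by rw [Lv_comm, mul_assoc, mul_inv_cancel, mul_one]
    _ = lift S * lift φ * (lift S)⁻¹ := by rw [map_mul, map_mul, map_inv]

theorem SS_comm {φ : H ≃o H} (h : S * φ = φ * S) : SS * lift φ = lift φ * SS := by
  unfold SS
  rw [mul_assoc, ← map_mul, h, map_mul, ← mul_assoc, Lv_comm, mul_assoc]

theorem SS_e : SS * lift (T 0) * SS⁻¹ = lift (T 1) := by
  rw [SS_conj, STS]
  rfl

theorem SSSS_e : SS * SS * lift (T 0) * (SS * SS)⁻¹ = lift (T 2) := by
  have h1 : SS * SS * lift (T 0) * (SS * SS)⁻¹ = SS * (SS * lift (T 0) * SS⁻¹) * SS⁻¹ := by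
    group
  rw [h1, SS_e, SS_conj, STS]
  rfl

theorem SS_b : SS * SS * lift B = lift B * (SS * SS) := by
  have h1 : SS * SS = Lv * Lv * lift (S * S) := by
    unfold SS
    rw [map_mul, mul_assoc, ← mul_assoc (lift S) Lv, ← Lv_comm]
    group
  have hc : Commute Lv (lift B) := Lv_comm B
  rw [h1, mul_assoc, ← map_mul, SSB, map_mul, ← mul_assoc, (hc.mul_left hc).eq, mul_assoc]

theorem good_lift {φ : H ≃o H} (h : ∀ k d x y, HD k d x y → HD k d (φ x) (φ y)) :
    Good 0 (lift φ) :=
  ⟨fun p => (add_zero _).symm, fun k d p q hd => by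
    rw [sf_zero]
    exact ⟨hd.1, h _ _ _ _ hd.2⟩⟩

theorem good_SS : Good 1 SS :=
  ⟨fun _ => rfl, fun _ _ _ _ hd => ⟨congrArg (· + 1) hd.1, S0_HD _ _ _ _ hd.2⟩⟩

theorem disj {X : Type} [LinearOrder X] (g f : X ≃o X) (h1 : 1 ≤ f)
    (h : ∀ x, f x ≠ x → g x = x) : (g ⊔ g⁻¹) ⊓ f = 1 := by
  apply OrderIso.ext
  funext x
  change min (max (g x) (g.symm x)) (f x) = x
  have hx : x ≤ f x := h1 x
  by_cases hf : f x = x
  · rw [hf, min_eq_right]
    rcases le_total x (g x) with h2 | h2
    · exact h2.trans (le_max_left _ _)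
    · exact ((g.le_symm_apply).2 h2).trans (le_max_right _ _)
  · have h3 : g x = x := h x hf
    have h4 : g.symm x = x := (g.symm_apply_eq).2 h3.symm
    rw [h3, h4, max_self, min_eq_left hx]

theorem lift_le {φ ψ : H ≃o H} (h : ∀ x, φ x ≤ ψ x) : lift φ ≤ lift ψ := by
  intro p
  rcases (h (pt p)).lt_or_eq with h1 | h1
  · have h2 : lift φ p < lift ψ p := om_lt.2 (Or.inr ⟨rfl, h1⟩)
    exact h2.le
  · have h2 : lift φ p = lift ψ p := om_ext rfl h1
    exact h2.le

end ModelAux

open ModelAux in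
theorem model : ∃ (G : Type) (_ : LGroup G), NormalValued G ∧
    ∃ e s b f : G, Cfg e s b f ∧ f ≠ 1 := by
  classical
  have o1 : (1 : Om ≃o Om) ≤ lift F := by
    rw [← map_one lift]
    exact lift_le le_F
  refine ⟨K, inferInstance, nvK, ⟨lift (T 0), 0, good_lift (T_HD 0)⟩, ⟨SS, 1, good_SS⟩,
    ⟨lift B, 0, good_lift B0_HD'⟩, ⟨lift F, 0, good_lift F0_HD'⟩,
    ⟨o1, lift_le F_le, Subtype.ext (SS_comm S_F), Subtype.ext (disj _ _ o1 ?_),
      Subtype.ext ?_, Subtype.ext ?_, Subtype.ext ?_, Subtype.ext ?_, Subtype.ext SS_b⟩, ?_⟩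
  · intro p hp
    refine om_ext rfl (F_ne fun h => hp (om_ext rfl h))
  · change lift (T 0) * (SS * lift (T 0) * SS⁻¹) = SS * lift (T 0) * SS⁻¹ * lift (T 0)
    rw [SS_e, ← map_mul, ← map_mul, T_comm]
  · change lift (T 0) * (SS * SS * lift (T 0) * (SS * SS)⁻¹) =
      SS * SS * lift (T 0) * (SS * SS)⁻¹ * lift (T 0)
    rw [SSSS_e, ← map_mul, ← map_mul, T_comm]
  · change lift B * lift (T 0) = lift (T 0) * (SS * lift (T 0) * SS⁻¹) * lift B
    rw [SS_e, ← map_mul, ← map_mul, ← map_mul, B_T0]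
  · change lift B * (SS * lift (T 0) * SS⁻¹) = SS * lift (T 0) * SS⁻¹ * lift B
    rw [SS_e, ← map_mul, ← map_mul, B_T1]
  · intro h
    have h1 : lift F = 1 := congrArg Subtype.val h
    have h2 : F (0 : H) = 0 := by
      have h3 := congrArg (fun g : Om ≃o Om => pt (g (toLex ((0 : ℤ), (0 : H))))) h1
      exact h3
    have hZ : Z (0 : H) := fun i => rfl
    rw [F_eq, F0_pos hZ, zero_add] at h2
    have h4 := congrArg (fun x : H => ofLex x ⊤) h2
    have h5 : (1 : ℤ) = 0 := by
      rw [← u1_top]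
      exact h4
    exact one_ne_zero h5

end Pool.Agent.Helper17.BHC
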