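import Pool.Agent.Helper17.BHC.Defs

/-!
BHC Fol: the rational affine group is amenable (a Folner condition with a permuted index set).

Proof.  B = {β_j : j ∈ J} with β_j = (λ_j, z_j) (J = the subtype of B).  Choose n large (n > 2 N).
I₁ = J → Fin n (or ZMod n), c₁ k = ∏_j λ_j ^ (k j).  I₂ = I₁ × J → Fin n,
c₂ l = Σ_{(k, j)} l (k, j) * (c₁ k * z_j).  I = I₁ × I₂, c (k, l) = (c₁ k, c₂ l) ∈ Aff.
c (k, l) * β_j = (c₁ k λ_j, c₂ l + c₁ k z_j) = c (k + 1_j, l + 1_(k, j)) provided k j ≠ n - 1 and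
l (k, j) ≠ n - 1.  π (k, l) = (k + 1_j, l + 1_(k, j)) (cyclic addition) is a permutation of I.  The
exceptional set has cardinality ≤ (2 / n) * card I.
-/

set_option autoImplicit false

namespace Pool.Agent.Helper17.BHC

private theorem val_shift {X : Type} [DecidableEq X] {m : ℕ} (f : X → Fin (m + 1)) (x0 : X)
    (h : f x0 ≠ Fin.last m) (t : X) :
    ((f + Pi.single x0 1 : X → Fin (m + 1)) t : ℕ) = (f t : ℕ) + if t = x0 then 1 else 0 := by
  rw [Pi.add_apply]
  by_cases ht : t = x0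
  · subst ht
    rw [Pi.single_eq_same, Fin.val_add_one, if_neg h, if_pos rfl]
  · rw [Pi.single_eq_of_ne ht, add_zero, if_neg ht]
    rfl

theorem aff_folner (B : Finset Aff) (N : ℕ) : ∃ (I : Type) (_ : Finite I) (_ : Nonempty I)
    (c : I → Aff), ∀ β ∈ B, ∃ π : Equiv.Perm I,
      N * Nat.card {i // c (π i) ≠ c i * β} ≤ Nat.card I := by
  classical
  obtain ⟨m, hm⟩ : ∃ m, m = 2 * N := ⟨_, rfl⟩
  let I₁ : Type := {x // x ∈ B} → Fin (m + 1)
  let I : Type := I₁ × (I₁ × {x // x ∈ B} → Fin (m + 1))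
  have hFI : Finite I := inferInstanceAs
    (Finite (({x // x ∈ B} → Fin (m + 1)) ×
      (({x // x ∈ B} → Fin (m + 1)) × {x // x ∈ B} → Fin (m + 1))))
  let c1 : I₁ → ℚ := fun k => ∏ j, (j.1.l) ^ (k j : ℕ)
  have hc1 : ∀ k, 0 < c1 k := fun k => Finset.prod_pos (fun j _ => pow_pos j.1.pos _)
  let c2 : (I₁ × {x // x ∈ B} → Fin (m + 1)) → ℚ :=
    fun l => ∑ p, ((l p : ℕ) : ℚ) * (c1 p.1 * p.2.1.z)
  refine ⟨I, hFI, ⟨(fun _ => 0, fun _ => 0)⟩, fun i => ⟨c1 i.1, c2 i.2, hc1 i.1⟩, ?_⟩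
  intro β hβ
  let j : {x // x ∈ B} := ⟨β, hβ⟩
  let π : Equiv.Perm I :=
    { toFun := fun i => (i.1 + Pi.single j 1, i.2 + Pi.single (i.1, j) 1)
      invFun := fun i => (i.1 - Pi.single j 1, i.2 - Pi.single (i.1 - Pi.single j 1, j) 1)
      left_inv := by
        rintro ⟨a, b⟩
        simp only [add_sub_cancel_right]
      right_inv := by
        rintro ⟨a, b⟩
        simp only [sub_add_cancel] }
  refine ⟨π, ?_⟩
  have hgood : ∀ i : I, i.1 j ≠ Fin.last m → i.2 (i.1, j) ≠ Fin.last m →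
      (⟨c1 (π i).1, c2 (π i).2, hc1 (π i).1⟩ : Aff) = ⟨c1 i.1, c2 i.2, hc1 i.1⟩ * β := by
    rintro ⟨a, b⟩ h1 h2
    have h1' : a j ≠ Fin.last m := h1
    have h2' : b (a, j) ≠ Fin.last m := h2
    apply Aff.ext
    · change ∏ t : {x // x ∈ B}, (t.1.l) ^ ((a + Pi.single j 1 : {x // x ∈ B} → Fin (m + 1)) t : ℕ) =
        (∏ t : {x // x ∈ B}, (t.1.l) ^ (a t : ℕ)) * β.l
      have h3 : ∀ t : {x // x ∈ B}, (t.1.l) ^ ((a + Pi.single j 1 : {x // x ∈ B} → Fin (m + 1)) t : ℕ) =
          (t.1.l) ^ (a t : ℕ) * (if t = j then t.1.l else 1) := by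
        intro t
        rw [val_shift a j h1' t, pow_add]
        by_cases ht : t = j
        · rw [if_pos ht, if_pos ht, pow_one]
        · rw [if_neg ht, if_neg ht, pow_zero]
      rw [Finset.prod_congr rfl (fun t _ => h3 t), Finset.prod_mul_distrib,
        Finset.prod_ite_eq' Finset.univ j (fun t => t.1.l), if_pos (Finset.mem_univ _)]
    · change ∑ p : I₁ × {x // x ∈ B},
          (((b + Pi.single (a, j) 1 : I₁ × {x // x ∈ B} → Fin (m + 1)) p : ℕ) : ℚ) *
            (c1 p.1 * p.2.1.z) =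
        (∑ p : I₁ × {x // x ∈ B}, ((b p : ℕ) : ℚ) * (c1 p.1 * p.2.1.z)) + c1 a * β.z
      have h3 : ∀ p : I₁ × {x // x ∈ B},
          (((b + Pi.single (a, j) 1 : I₁ × {x // x ∈ B} → Fin (m + 1)) p : ℕ) : ℚ) *
            (c1 p.1 * p.2.1.z) =
            ((b p : ℕ) : ℚ) * (c1 p.1 * p.2.1.z) +
              (if p = (a, j) then c1 p.1 * p.2.1.z else 0) := by
        intro p
        rw [val_shift b (a, j) h2' p]
        by_cases ht : p = (a, j)
        · rw [if_pos ht, if_pos ht]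
          push_cast
          ring
        · rw [if_neg ht, if_neg ht]
          push_cast
          ring
      rw [Finset.sum_congr rfl (fun p _ => h3 p), Finset.sum_add_distrib,
        Finset.sum_ite_eq' Finset.univ (a, j) (fun p : I₁ × {x // x ∈ B} => c1 p.1 * p.2.1.z),
        if_pos (Finset.mem_univ _)]
  -- counting
  let S1 : Set I := {i | i.1 j = Fin.last m}
  let S2 : Set I := {i | i.2 (i.1, j) = Fin.last m}
  have hS1 : S1.ncard * (m + 1) ≤ Nat.card I := by
    have h1 : Nat.card (S1 × Fin (m + 1)) ≤ Nat.card I := by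
      apply Nat.card_le_card_of_injective
        (fun q : S1 × Fin (m + 1) => ((Function.update q.1.1.1 j q.2, q.1.1.2) : I))
      rintro ⟨⟨⟨a, b⟩, ha⟩, t⟩ ⟨⟨⟨a', b'⟩, ha'⟩, t'⟩ h
      have ha1 : a j = Fin.last m := ha
      have ha1' : a' j = Fin.last m := ha'
      have h2 : Function.update a j t = Function.update a' j t' := congrArg Prod.fst h
      have h3 : b = b' := congrArg Prod.snd h
      have h4 : t = t' := by
        have h5 := congrFun h2 j
        rwa [Function.update_self, Function.update_self] at h5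
      have h5 : a = a' := by
        funext u
        by_cases hu : u = j
        · rw [hu, ha1, ha1']
        · have h6 := congrFun h2 u
          rwa [Function.update_of_ne hu, Function.update_of_ne hu] at h6
      subst h3 h4 h5
      rfl
    rwa [Nat.card_prod, Nat.card_eq_fintype_card (α := Fin (m + 1)), Fintype.card_fin,
      Nat.card_coe_set_eq] at h1
  have hS2 : S2.ncard * (m + 1) ≤ Nat.card I := by
    have h1 : Nat.card (S2 × Fin (m + 1)) ≤ Nat.card I := by
      apply Nat.card_le_card_of_injective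
        (fun q : S2 × Fin (m + 1) =>
          ((q.1.1.1, Function.update q.1.1.2 (q.1.1.1, j) q.2) : I))
      rintro ⟨⟨⟨a, b⟩, ha⟩, t⟩ ⟨⟨⟨a', b'⟩, ha'⟩, t'⟩ h
      have ha1 : b (a, j) = Fin.last m := ha
      have ha1' : b' (a', j) = Fin.last m := ha'
      have h3 : a = a' := congrArg Prod.fst h
      subst h3
      have h2 : Function.update b (a, j) t = Function.update b' (a, j) t' := congrArg Prod.snd h
      have h4 : t = t' := by
        have h5 := congrFun h2 (a, j)
        rwa [Function.update_self, Function.update_self] at h5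
      have h5 : b = b' := by
        funext u
        by_cases hu : u = (a, j)
        · rw [hu, ha1, ha1']
        · have h6 := congrFun h2 u
          rwa [Function.update_of_ne hu, Function.update_of_ne hu] at h6
      subst h4 h5
      rfl
    rwa [Nat.card_prod, Nat.card_eq_fintype_card (α := Fin (m + 1)), Fintype.card_fin,
      Nat.card_coe_set_eq] at h1
  have hbad : Nat.card {i : I // (⟨c1 (π i).1, c2 (π i).2, hc1 (π i).1⟩ : Aff) ≠
      ⟨c1 i.1, c2 i.2, hc1 i.1⟩ * β} ≤ S1.ncard + S2.ncard := by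
    have h1 : Nat.card {i : I // (⟨c1 (π i).1, c2 (π i).2, hc1 (π i).1⟩ : Aff) ≠
        ⟨c1 i.1, c2 i.2, hc1 i.1⟩ * β} = {i : I | (⟨c1 (π i).1, c2 (π i).2, hc1 (π i).1⟩ : Aff) ≠
        ⟨c1 i.1, c2 i.2, hc1 i.1⟩ * β}.ncard := Nat.card_coe_set_eq _
    rw [h1]
    refine (Set.ncard_le_ncard ?_ (Set.toFinite _)).trans (Set.ncard_union_le S1 S2)
    intro i hi
    by_contra hcon
    rw [Set.mem_union, not_or] at hcon
    exact hi (hgood i hcon.1 hcon.2)
  have h2 : N * Nat.card {i : I // (⟨c1 (π i).1, c2 (π i).2, hc1 (π i).1⟩ : Aff) ≠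
      ⟨c1 i.1, c2 i.2, hc1 i.1⟩ * β} ≤ Nat.card I := by
    set b := Nat.card {i : I // (⟨c1 (π i).1, c2 (π i).2, hc1 (π i).1⟩ : Aff) ≠
      ⟨c1 i.1, c2 i.2, hc1 i.1⟩ * β}
    have h3 : b * (m + 1) ≤ 2 * Nat.card I := by
      calc b * (m + 1) ≤ (S1.ncard + S2.ncard) * (m + 1) := Nat.mul_le_mul_right _ hbad
        _ = S1.ncard * (m + 1) + S2.ncard * (m + 1) := by ring
        _ ≤ 2 * Nat.card I := by omega
    have h4 : (N * b) * 2 ≤ Nat.card I * 2 := by
      calc (N * b) * 2 = b * (2 * N) := by ring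
        _ ≤ b * (m + 1) := Nat.mul_le_mul_left _ (by omega)
        _ ≤ 2 * Nat.card I := h3
        _ = Nat.card I * 2 := by ring
    omega
  exact h2

end Pool.Agent.Helper17.BHC
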