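import Pool.Agent.Helper17.BHC.Defs

/-!
BHC Meas: an almost invariant probability measure on pairs of sequences.

Proof.  L i = 100 ^ ((i + 1) ^ 2).  ν n = uniform probability measure on the integers y with
L n ≤ y < 2 L n.  μ = (infinitePi (fun k => ν (2 k))).prod (infinitePi (fun k => ν (2 k + 1)))
(`MeasureTheory.Measure.infinitePi`).  For c : ℤ the map rot n c : y ↦ L n + (y + c) % L n preserves
ν n (it permutes the integers y with L n ≤ y < 2 L n), and it is y ↦ y + c if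
L n ≤ y + c < 2 L n.  T false (u, v) = (u, fun k => rot (2k+1) (u k) (v k)),
T true (u, v) = (fun k => if k = 0 then u 0 else rot (2k) (v (k-1)) (u k), v).
These are skew products (`MeasureTheory.MeasurePreserving.skew_product`, after swapping the factors
for T true; `MeasureTheory.Measure.infinitePi_map_pi` for the fibre maps), so they preserve μ.
T false x ≠ mB x only if for some k : u k + v k is not in [L (2k+1), 2 L (2k+1)) [or x is outside
the support, a null set]: given u k < 2 L (2k) this has probability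
≤ 2 L (2k) / L (2k+1) = 2 * 100^-(4k+3) (v k must be one of the last u k values), sum < 1/10; the
same for T true (k ≥ 1, v (k-1) + u k, ratio 2 L (2k-1) / L (2k)).
μ {x} = 0: μ {x} ≤ ν (2k) {x.1 k} ≤ 1 / L (2k) for all k.
The growth condition: L (i+1) / L i = 100^(2i+3).
-/

set_option autoImplicit false

namespace Pool.Agent.Helper17.BHC

open MeasureTheory

namespace Meas

open Measure ENNReal

/-- the uniform measure on the integers `y` with `L ≤ y < 2 L` -/
noncomputable def nu (L : ℤ) : Measure ℤ :=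
  (ENNReal.ofReal (L : ℝ))⁻¹ • ∑ y ∈ Finset.Ico L (2 * L), Measure.dirac y

theorem nu_apply (L : ℤ) (A : Set ℤ) :
    nu L A = (ENNReal.ofReal (L : ℝ))⁻¹ * ∑ y ∈ Finset.Ico L (2 * L), A.indicator 1 y := by
  unfold nu
  rw [Measure.smul_apply, Measure.finsetSum_apply, smul_eq_mul]
  congr 1
  refine Finset.sum_congr rfl fun y _ => ?_
  rw [Measure.dirac_apply' _ (MeasurableSet.of_discrete)]

theorem ofReal_pos {L : ℤ} (hL : 0 < L) : ENNReal.ofReal (L : ℝ) ≠ 0 := by
  have : (0 : ℝ) < L := by exact_mod_cast hL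
  rw [Ne, ENNReal.ofReal_eq_zero, not_le]
  exact this

theorem card_Ico' {L : ℤ} (hL : 0 < L) :
    (((Finset.Ico L (2 * L)).card : ℕ) : ℝ≥0∞) = ENNReal.ofReal (L : ℝ) := by
  rw [Int.card_Ico]
  have h1 : 2 * L - L = L := by ring
  rw [h1, ← ENNReal.ofReal_natCast]
  congr 1
  have h2 : ((L.toNat : ℤ) : ℝ) = (L : ℝ) := by rw [Int.toNat_of_nonneg hL.le]
  exact_mod_cast h2

theorem nu_prob {L : ℤ} (hL : 0 < L) : IsProbabilityMeasure (nu L) := by
  refine ⟨?_⟩
  rw [nu_apply]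
  simp only [Set.indicator_univ, Pi.one_apply, Finset.sum_const, nsmul_eq_mul, mul_one]
  rw [card_Ico' hL]
  exact ENNReal.inv_mul_cancel (ofReal_pos hL) ENNReal.ofReal_ne_top

/-- rotation of the interval `[L, 2 L)` -/
def rot (L c y : ℤ) : ℤ := L + (y + c) % L

theorem rot_mem {L : ℤ} (hL : 0 < L) (c y : ℤ) : L ≤ rot L c y ∧ rot L c y < 2 * L := by
  unfold rot
  have h1 := Int.emod_nonneg (y + c) hL.ne'
  have h2 := Int.emod_lt_of_pos (y + c) hL
  constructor <;> omega

theorem rot_eq {L c y : ℤ} (h1 : L ≤ y + c) (h2 : y + c < 2 * L) : rot L c y = y + c := by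
  unfold rot
  have h3 : (y + c) % L = y + c - L := by
    have h4 : (y + c - L) % L = (y + c) % L := Int.sub_emod_right (y + c) L
    rw [← h4]
    exact Int.emod_eq_of_lt (by omega) (by omega)
  rw [h3]
  ring

theorem rot_inv {L c y : ℤ} (h1 : L ≤ y) (h2 : y < 2 * L) : rot L (-c) (rot L c y) = y := by
  unfold rot
  have h3 : (L + (y + c) % L + -c) % L = y - L := by
    have e1 : L + (y + c) % L + -c = (y - L) + L * (2 - (y + c) / L) := by
      have := Int.emod_add_mul_ediv (y + c) L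
      have h5 : (y + c) % L = y + c - L * ((y + c) / L) := by linarith
      rw [h5]
      ring
    rw [e1, Int.add_mul_emod_self_left]
    exact Int.emod_eq_of_lt (by omega) (by omega)
  rw [h3]
  ring

theorem nu_map {L : ℤ} (hL : 0 < L) (c : ℤ) : (nu L).map (rot L c) = nu L := by
  refine Measure.ext fun s hs => ?_
  rw [Measure.map_apply (measurable_from_top) hs, nu_apply, nu_apply]
  congr 1
  refine Finset.sum_nbij' (rot L c) (rot L (-c)) ?_ ?_ ?_ ?_ ?_
  · intro y _
    exact Finset.mem_Ico.2 (rot_mem hL c y)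
  · intro y _
    exact Finset.mem_Ico.2 (rot_mem hL (-c) y)
  · intro y hy
    have h := Finset.mem_Ico.1 hy
    exact rot_inv h.1 h.2
  · intro y hy
    have h := Finset.mem_Ico.1 hy
    have h1 := rot_inv (c := -c) h.1 h.2
    rwa [neg_neg] at h1
  · intro y _
    rfl

theorem nu_out (L : ℤ) : nu L {y | ¬ (L ≤ y ∧ y < 2 * L)} = 0 := by
  rw [nu_apply]
  have h : ∑ y ∈ Finset.Ico L (2 * L),
      ({y | ¬ (L ≤ y ∧ y < 2 * L)} : Set ℤ).indicator (1 : ℤ → ℝ≥0∞) y = 0 := by
    refine Finset.sum_eq_zero fun y hy => ?_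
    rw [Set.indicator_of_notMem]
    intro h
    exact h (Finset.mem_Ico.1 hy)
  rw [h, mul_zero]

theorem nu_singleton (L z : ℤ) : nu L {z} ≤ (ENNReal.ofReal (L : ℝ))⁻¹ := by
  rw [nu_apply]
  have h : ∑ y ∈ Finset.Ico L (2 * L), ({z} : Set ℤ).indicator (1 : ℤ → ℝ≥0∞) y ≤ 1 := by
    have h1 : ∀ y ∈ Finset.Ico L (2 * L), ({z} : Set ℤ).indicator (1 : ℤ → ℝ≥0∞) y
        = if y = z then 1 else 0 := by
      intro y _
      rw [Set.indicator_apply]
      rfl
    rw [Finset.sum_congr rfl h1, Finset.sum_ite_eq']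
    split_ifs <;> simp
  calc (ENNReal.ofReal (L : ℝ))⁻¹ * _ ≤ (ENNReal.ofReal (L : ℝ))⁻¹ * 1 := by gcongr
    _ = _ := mul_one _

theorem nu_tail {L t : ℤ} (ht : 0 ≤ t) :
    nu L {y | 2 * L - t ≤ y} ≤ ENNReal.ofReal (t : ℝ) / ENNReal.ofReal (L : ℝ) := by
  rw [nu_apply, ENNReal.div_eq_inv_mul]
  gcongr
  have h1 : ∀ y ∈ Finset.Ico L (2 * L),
      ({y | 2 * L - t ≤ y} : Set ℤ).indicator (1 : ℤ → ℝ≥0∞) y
        ≤ if y ∈ Finset.Ico (2 * L - t) (2 * L) then 1 else 0 := by
    intro y hy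
    have h := Finset.mem_Ico.1 hy
    rw [Set.indicator_apply]
    by_cases hyt : 2 * L - t ≤ y
    · rw [if_pos (Finset.mem_Ico.2 ⟨hyt, h.2⟩)]
      split_ifs <;> simp
    · rw [if_neg (by simpa using hyt)]
      exact zero_le
  refine (Finset.sum_le_sum h1).trans ?_
  rw [← Finset.sum_filter, Finset.sum_const, nsmul_eq_mul, mul_one]
  have h2 : (Finset.filter (fun y => y ∈ Finset.Ico (2 * L - t) (2 * L))
      (Finset.Ico L (2 * L))).card ≤ t.toNat := by
    refine (Finset.card_le_card (t := Finset.Ico (2 * L - t) (2 * L)) ?_).trans ?_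
    · intro y hy
      exact (Finset.mem_filter.1 hy).2
    · rw [Int.card_Ico]
      have : 2 * L - (2 * L - t) = t := by ring
      rw [this]
  have h3 : ((t.toNat : ℕ) : ℝ≥0∞) = ENNReal.ofReal (t : ℝ) := by
    rw [← ENNReal.ofReal_natCast]
    congr 1
    have h4 : ((t.toNat : ℤ) : ℝ) = (t : ℝ) := by rw [Int.toNat_of_nonneg ht]
    exact_mod_cast h4
  rw [← h3]
  exact_mod_cast h2

/-- the scale -/
def Lq (i : ℕ) : ℤ := 100 ^ ((i + 1) ^ 2)

theorem Lq_pos (i : ℕ) : 0 < Lq i := by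
  unfold Lq
  positivity

theorem Lq_succ (i : ℕ) : Lq (i + 1) = 100 ^ (2 * i + 3) * Lq i := by
  unfold Lq
  rw [← pow_add]
  congr 1
  ring

instance (i : ℕ) : IsProbabilityMeasure (nu (Lq i)) := nu_prob (Lq_pos i)

/-- the even part -/
noncomputable def m1 : Measure (ℕ → ℤ) := Measure.infinitePi fun k => nu (Lq (2 * k))

/-- the odd part -/
noncomputable def m2 : Measure (ℕ → ℤ) := Measure.infinitePi fun k => nu (Lq (2 * k + 1))

instance : IsProbabilityMeasure m1 := by
  unfold m1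
  infer_instance

instance : IsProbabilityMeasure m2 := by
  unfold m2
  infer_instance

theorem map1 (c : ℕ → ℤ) : m1.map (fun x k => rot (Lq (2 * k)) (c k) (x k)) = m1 := by
  unfold m1
  rw [Measure.infinitePi_map_pi (fun k => nu (Lq (2 * k)))
    (f := fun k y => rot (Lq (2 * k)) (c k) y) (fun k => measurable_from_top)]
  congr 1
  funext k
  exact nu_map (Lq_pos _) _

theorem map2 (c : ℕ → ℤ) : m2.map (fun x k => rot (Lq (2 * k + 1)) (c k) (x k)) = m2 := by
  unfold m2
  rw [Measure.infinitePi_map_pi (fun k => nu (Lq (2 * k + 1)))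
    (f := fun k y => rot (Lq (2 * k + 1)) (c k) y) (fun k => measurable_from_top)]
  congr 1
  funext k
  exact nu_map (Lq_pos _) _

theorem meas_rot (L : ℤ) : Measurable (fun p : ℤ × ℤ => rot L p.1 p.2) := by
  apply measurable_from_prod_countable_right
  intro x
  exact measurable_from_top

/-- the perturbed maps -/
def TT : Bool → W → W
  | false, x => (x.1, fun k => rot (Lq (2 * k + 1)) (x.1 k) (x.2 k))
  | true, x => (fun k => rot (Lq (2 * k)) (sh x.2 k) (x.1 k), x.2)

theorem meas_sh (k : ℕ) : Measurable (fun v : ℕ → ℤ => sh v k) := by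
  cases k with
  | zero => exact measurable_const
  | succ k => exact measurable_pi_apply k

theorem mp_false : MeasurePreserving (TT false) (m1.prod m2) (m1.prod m2) := by
  have h := (MeasurePreserving.id m1).skew_product (μc := m2) (μd := m2)
    (g := fun u v k => rot (Lq (2 * k + 1)) (u k) (v k)) ?_ ?_
  · exact h
  · refine measurable_pi_iff.2 fun k => ?_
    have h1 : Measurable (fun p : (ℕ → ℤ) × (ℕ → ℤ) => (p.1 k, p.2 k)) :=
      ((measurable_pi_apply k).comp measurable_fst).prodMk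
        ((measurable_pi_apply k).comp measurable_snd)
    exact (meas_rot (Lq (2 * k + 1))).comp h1
  · exact ae_of_all _ fun u => map2 u

theorem mp_true : MeasurePreserving (TT true) (m1.prod m2) (m1.prod m2) := by
  have h := (MeasurePreserving.id m2).skew_product (μc := m1) (μd := m1)
    (g := fun v u k => rot (Lq (2 * k)) (sh v k) (u k)) ?_ ?_
  · have h1 : MeasurePreserving Prod.swap (m1.prod m2) (m2.prod m1) := Measure.measurePreserving_swap
    have h2 : MeasurePreserving Prod.swap (m2.prod m1) (m1.prod m2) := Measure.measurePreserving_swap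
    exact h2.comp (h.comp h1)
  · refine measurable_pi_iff.2 fun k => ?_
    have h1 : Measurable (fun p : (ℕ → ℤ) × (ℕ → ℤ) => (sh p.1 k, p.2 k)) :=
      ((meas_sh k).comp measurable_fst).prodMk ((measurable_pi_apply k).comp measurable_snd)
    exact (meas_rot (Lq (2 * k))).comp h1
  · exact ae_of_all _ fun v => map1 _

theorem marg1 (k : ℕ) (A : Set ℤ) :
    (m1.prod m2) {x : W | x.1 k ∈ A} = nu (Lq (2 * k)) A := by
  have h1 : MeasurePreserving (Prod.fst : W → (ℕ → ℤ)) (m1.prod m2) m1 := measurePreserving_fst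
  have h2 : MeasurePreserving (Function.eval k) m1 (nu (Lq (2 * k))) :=
    measurePreserving_eval_infinitePi (fun k => nu (Lq (2 * k))) k
  have h3 := (h2.comp h1).measure_preimage (s := A) (MeasurableSet.of_discrete).nullMeasurableSet
  exact h3

theorem marg2 (k : ℕ) (A : Set ℤ) :
    (m1.prod m2) {x : W | x.2 k ∈ A} = nu (Lq (2 * k + 1)) A := by
  have h1 : MeasurePreserving (Prod.snd : W → (ℕ → ℤ)) (m1.prod m2) m2 := measurePreserving_snd
  have h2 : MeasurePreserving (Function.eval k) m2 (nu (Lq (2 * k + 1))) :=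
    measurePreserving_eval_infinitePi (fun k => nu (Lq (2 * k + 1))) k
  have h3 := (h2.comp h1).measure_preimage (s := A) (MeasurableSet.of_discrete).nullMeasurableSet
  exact h3

/-- the good set -/
def Sup (x : W) (k : ℕ) : Prop :=
  Lq (2 * k) ≤ x.1 k ∧ x.1 k < 2 * Lq (2 * k) ∧
      Lq (2 * k + 1) ≤ x.2 k ∧ x.2 k < 2 * Lq (2 * k + 1)

theorem ae_sup : ∀ᵐ x ∂(m1.prod m2), ∀ k, Sup x k := by
  rw [ae_all_iff]
  intro k
  have h1 : ∀ᵐ x ∂(m1.prod m2), Lq (2 * k) ≤ x.1 k ∧ x.1 k < 2 * Lq (2 * k) := by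
    rw [ae_iff]
    exact (marg1 k {y | ¬ (Lq (2 * k) ≤ y ∧ y < 2 * Lq (2 * k))}).trans (nu_out _)
  have h2 : ∀ᵐ x ∂(m1.prod m2), Lq (2 * k + 1) ≤ x.2 k ∧ x.2 k < 2 * Lq (2 * k + 1) := by
    rw [ae_iff]
    exact (marg2 k {y | ¬ (Lq (2 * k + 1) ≤ y ∧ y < 2 * Lq (2 * k + 1))}).trans (nu_out _)
  filter_upwards [h1, h2] with x hx1 hx2
  exact ⟨hx1.1, hx1.2, hx2.1, hx2.2⟩

theorem ratio_le {i k : ℕ} (h : k ≤ i) :
    ENNReal.ofReal ((2 * Lq i : ℤ) : ℝ) / ENNReal.ofReal ((Lq (i + 1) : ℤ) : ℝ)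
      ≤ ENNReal.ofReal (1 / 20 * (1 / 2) ^ k) := by
  have hp : (0 : ℝ) < (Lq i : ℝ) := by exact_mod_cast Lq_pos i
  have hp' : (0 : ℝ) < (Lq (i + 1) : ℝ) := by exact_mod_cast Lq_pos (i + 1)
  rw [← ENNReal.ofReal_div_of_pos hp']
  apply ENNReal.ofReal_le_ofReal
  rw [div_le_iff₀ hp', Lq_succ]
  push_cast
  have h1 : (40 : ℝ) * 2 ^ k ≤ 100 ^ (2 * i + 3) := by
    calc (40 : ℝ) * 2 ^ k ≤ 100 * 100 ^ k := by
          gcongr
          · norm_num
          · norm_num
      _ = 100 ^ (k + 1) := by ring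
      _ ≤ 100 ^ (2 * i + 3) := pow_le_pow_right₀ (by norm_num) (by omega)
  have h2 : (1 / 2 : ℝ) ^ k * 2 ^ k = 1 := by
    rw [← mul_pow]
    norm_num
  have h3 : (0 : ℝ) < (1 / 2) ^ k := by positivity
  have h4 : (2 : ℝ) ≤ 1 / 20 * (1 / 2) ^ k * 100 ^ (2 * i + 3) := by
    have h5 := mul_le_mul_of_nonneg_left h1 h3.le
    nlinarith
  calc (2 : ℝ) * Lq i ≤ (1 / 20 * (1 / 2) ^ k * 100 ^ (2 * i + 3)) * Lq i := by gcongr
    _ = _ := by ring

theorem tsum_le (a : ℕ → ℝ≥0∞) (ha : ∀ k, a k ≤ ENNReal.ofReal (1 / 20 * (1 / 2) ^ k)) :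
    ∑' k, a k ≤ 1 / 10 := by
  refine (ENNReal.tsum_le_tsum ha).trans ?_
  rw [← ENNReal.ofReal_tsum_of_nonneg (fun k => by positivity)
    (summable_geometric_two.mul_left _), tsum_mul_left, tsum_geometric_two]
  have : (1 / 20 * 2 : ℝ) = 1 / 10 := by norm_num
  rw [this, ENNReal.ofReal_div_of_pos (by norm_num)]
  simp

theorem bad_false : (m1.prod m2) {x | TT false x ≠ gen false x} ≤ 1 / 10 := by
  have hsub : {x | TT false x ≠ gen false x} ⊆ {x : W | ¬ ∀ k, Sup x k} ∪
      ⋃ k : ℕ, {x : W | x.2 k ∈ {y : ℤ | 2 * Lq (2 * k + 1) - 2 * Lq (2 * k) ≤ y}} := by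
    intro x hx
    by_contra hcon
    rw [Set.mem_union, not_or] at hcon
    obtain ⟨h1, h2⟩ := hcon
    simp only [Set.mem_ofPred_eq, not_not] at h1
    simp only [Set.mem_iUnion, Set.mem_ofPred_eq, not_exists, not_le] at h2
    apply hx
    refine Prod.ext rfl ?_
    funext k
    have h3 := h1 k
    have h4 := h2 k
    have h5 := Lq_pos (2 * k)
    unfold Sup at h3
    change rot (Lq (2 * k + 1)) (x.1 k) (x.2 k) = x.2 k + x.1 k
    exact rot_eq (by omega) (by omega)
  refine (measure_mono hsub).trans ((measure_union_le _ _).trans ?_)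
  have h0 : (m1.prod m2) {x : W | ¬ ∀ k, Sup x k} = 0 := ae_iff.1 ae_sup
  rw [h0, zero_add]
  refine (measure_iUnion_le _).trans ?_
  apply tsum_le
  intro k
  rw [marg2]
  refine (nu_tail (by have := Lq_pos (2 * k); omega)).trans ?_
  exact ratio_le (by omega)

theorem bad_true : (m1.prod m2) {x | TT true x ≠ gen true x} ≤ 1 / 10 := by
  have hsub : {x | TT true x ≠ gen true x} ⊆ {x : W | ¬ ∀ k, Sup x k} ∪
      ⋃ k : ℕ, {x : W | x.1 (k + 1) ∈
        {y : ℤ | 2 * Lq (2 * (k + 1)) - 2 * Lq (2 * k + 1) ≤ y}} := by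
    intro x hx
    by_contra hcon
    rw [Set.mem_union, not_or] at hcon
    obtain ⟨h1, h2⟩ := hcon
    simp only [Set.mem_ofPred_eq, not_not] at h1
    simp only [Set.mem_iUnion, Set.mem_ofPred_eq, not_exists, not_le] at h2
    apply hx
    refine Prod.ext ?_ rfl
    funext k
    change rot (Lq (2 * k)) (sh x.2 k) (x.1 k) = x.1 k + sh x.2 k
    cases k with
    | zero =>
      have h3 := h1 0
      unfold Sup at h3
      have h4 : sh x.2 0 = 0 := rfl
      exact rot_eq (by omega) (by omega)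
    | succ k =>
      have h3 := h1 (k + 1)
      have h3' := h1 k
      have h4 := h2 k
      unfold Sup at h3 h3'
      have h5 := Lq_pos (2 * k + 1)
      have h6 : sh x.2 (k + 1) = x.2 k := rfl
      exact rot_eq (by omega) (by omega)
  refine (measure_mono hsub).trans ((measure_union_le _ _).trans ?_)
  have h0 : (m1.prod m2) {x : W | ¬ ∀ k, Sup x k} = 0 := ae_iff.1 ae_sup
  rw [h0, zero_add]
  refine (measure_iUnion_le _).trans ?_
  apply tsum_le
  intro k
  rw [marg1]
  refine (nu_tail (by have := Lq_pos (2 * k + 1); omega)).trans ?_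
  exact ratio_le (i := 2 * k + 1) (by omega)

theorem atom (x : W) : (m1.prod m2) {x} = 0 := by
  have h1 : ∀ k : ℕ, (m1.prod m2) {x} ≤ (k : ℝ≥0∞)⁻¹ := by
    intro k
    have h2 : ({x} : Set W) ⊆ {z : W | z.1 k ∈ ({x.1 k} : Set ℤ)} := by
      rintro z rfl
      rfl
    refine (measure_mono h2).trans ?_
    rw [marg1]
    refine (nu_singleton _ _).trans ?_
    rw [ENNReal.inv_le_inv, ← ENNReal.ofReal_natCast]
    apply ENNReal.ofReal_le_ofReal
    have h3 : (k : ℤ) ≤ Lq (2 * k) := by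
      have h4 : k < 100 ^ ((2 * k + 1) ^ 2) := by
        refine lt_of_le_of_lt ?_ (Nat.lt_pow_self (by norm_num : 1 < 100))
        nlinarith
      unfold Lq
      exact_mod_cast h4.le
    exact_mod_cast h3
  have h5 := ge_of_tendsto' ENNReal.tendsto_inv_nat_nhds_zero h1
  exact le_antisymm h5 zero_le

end Meas

open Meas in
theorem exists_measure : ∃ (L : ℕ → ℤ) (μ : Measure W) (T : Bool → W → W),
    IsProbabilityMeasure μ ∧ (∀ i, 0 < L i) ∧ Monotone L ∧
    (∀ C : ℤ, ∃ i₀, ∀ i, i₀ ≤ i → C * L i < L (i + 1)) ∧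
    (∀ᵐ x ∂μ, ∀ k, L (2 * k) ≤ x.1 k ∧ x.1 k < 2 * L (2 * k) ∧
      L (2 * k + 1) ≤ x.2 k ∧ x.2 k < 2 * L (2 * k + 1)) ∧
    (∀ s, MeasurePreserving (T s) μ μ) ∧ (∀ s, μ {x | T s x ≠ gen s x} ≤ 1 / 10) ∧
    (∀ x, μ {x} = 0) := by
  refine ⟨Lq, m1.prod m2, TT, inferInstance, Lq_pos, ?_, ?_, ae_sup, ?_, ?_, atom⟩
  · refine monotone_nat_of_le_succ fun i => ?_
    rw [Lq_succ]
    have h1 := Lq_pos i
    have h2 : (1 : ℤ) ≤ 100 ^ (2 * i + 3) := one_le_pow₀ (by norm_num)
    nlinarith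
  · intro C
    refine ⟨C.toNat, fun i hi => ?_⟩
    rw [Lq_succ]
    have h1 := Lq_pos i
    have h2 : (i : ℤ) < 100 ^ (2 * i + 3) := by
      have h3 : i < 100 ^ (2 * i + 3) := by
        refine lt_of_le_of_lt ?_ (Nat.lt_pow_self (by norm_num : 1 < 100))
        omega
      exact_mod_cast h3
    have h4 : C ≤ i := by omega
    exact mul_lt_mul_of_pos_right (by omega) h1
  · intro s
    cases s
    · exact mp_false
    · exact mp_true
  · intro s
    cases s
    · exact bad_false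
    · exact bad_true

end Pool.Agent.Helper17.BHC
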