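import Pool.Agent.Helper17.BHC.Free
import Pool.Agent.Helper17.BHC.Meas
import Pool.Agent.Helper17.BHC.Fol
import Pool.Agent.Helper17.BHC.Amen

/-! There is no equivariant injection with orbits in the orbits of the affine group. -/

set_option autoImplicit false

namespace Pool.Agent.Helper17.BHC

open MeasureTheory

theorem act_of (s : Bool) : act (FreeGroup.of s) = gen s := by
  unfold act
  rw [FreeGroup.lift_apply_of]

theorem measurable_sh : Measurable sh := by
  refine measurable_pi_lambda _ fun k => ?_
  cases k with
  | zero => exact measurable_const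
  | succ k => exact measurable_pi_apply _

theorem measurable_mA : Measurable mA :=
  (measurable_fst.add (measurable_sh.comp measurable_snd)).prodMk measurable_snd

theorem measurable_mA_inv : Measurable (mA⁻¹ : Equiv.Perm W) :=
  (measurable_fst.sub (measurable_sh.comp measurable_snd)).prodMk measurable_snd

theorem measurable_mB : Measurable mB :=
  measurable_fst.prodMk (measurable_snd.add measurable_fst)

theorem measurable_mB_inv : Measurable (mB⁻¹ : Equiv.Perm W) :=
  measurable_fst.prodMk (measurable_snd.sub measurable_fst)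

theorem measurable_gen (s : Bool) : Measurable (gen s) := by
  cases s
  · exact measurable_mB
  · exact measurable_mA

theorem measurable_gen_inv (s : Bool) : Measurable ((gen s)⁻¹ : Equiv.Perm W) := by
  cases s
  · exact measurable_mB_inv
  · exact measurable_mA_inv

theorem measurable_act (h : FreeGroup Bool) : Measurable (act h) := by
  induction h using FreeGroup.induction_on with
  | C1 =>
    rw [map_one]
    exact measurable_id
  | of s =>
    rw [act_of]
    exact measurable_gen s
  | inv_of s _ =>
    rw [map_inv, act_of]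
    exact measurable_gen_inv s
  | mul x y hx hy =>
    rw [map_mul]
    exact hx.comp hy

/-- The affine group acting by permutations. -/
noncomputable def psi : Aff →* Equiv.Perm ℝ where
  toFun a := (Aff.hom a).toEquiv
  map_one' := by
    rw [map_one]
    rfl
  map_mul' a b := by
    rw [map_mul]
    rfl

theorem psi_apply (a : Aff) (x : ℝ) : psi a x = a.toIso x := rfl

instance : Countable Aff := by
  have : Function.Injective fun a : Aff => (a.l, a.z) := by
    intro a b h
    have h1 : a.l = b.l := congrArg Prod.fst h
    have h2 : a.z = b.z := congrArg Prod.snd h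
    exact Aff.ext h1 h2
  exact this.countable

theorem measurable_psi (a : Aff) : Measurable (psi a) := by
  have : (psi a : ℝ → ℝ) = a.toIso := rfl
  rw [this]
  exact a.toIso.continuous.measurable

theorem orbit_aux (P : W → ℝ) (g : Bool → ℝ ≃o ℝ) (hg : ∀ s x, P (gen s x) = g s (P x))
    (h : FreeGroup Bool) :
    ∀ x : W, (∀ (h : FreeGroup Bool) (s : Bool), ∃ α : Aff, α.toIso (P (act h x)) =
      g s (P (act h x))) → ∃ a, P (act h x) = psi a (P x) := by
  induction h using FreeGroup.induction_on with
  | C1 =>
    intro x _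
    exact ⟨1, by rw [map_one, map_one]; rfl⟩
  | of s =>
    intro x hx
    obtain ⟨α, hα⟩ := hx 1 s
    rw [map_one] at hα
    refine ⟨α, ?_⟩
    rw [act_of, hg, psi_apply]
    exact hα.symm
  | inv_of s _ =>
    intro x hx
    obtain ⟨α, hα⟩ := hx (FreeGroup.of s)⁻¹ s
    refine ⟨α⁻¹, ?_⟩
    set y := act (FreeGroup.of s)⁻¹ x with hy
    have h1 : gen s y = x := by
      rw [hy, map_inv, act_of]
      exact (gen s).apply_symm_apply x
    have h2 : P x = psi α (P y) := by
      rw [psi_apply, hα, ← hg, h1]
    rw [h2, map_inv]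
    exact ((psi α).symm_apply_apply (P y)).symm
  | mul h₁ h₂ ih₁ ih₂ =>
    intro x hx
    obtain ⟨a, ha⟩ := ih₂ x hx
    obtain ⟨c, hc⟩ := ih₁ (act h₂ x) (fun h s => by
      have := hx (h * h₂) s
      rwa [map_mul, Equiv.Perm.mul_apply] at this)
    refine ⟨c * a, ?_⟩
    rw [map_mul, Equiv.Perm.mul_apply, hc, ha, map_mul, Equiv.Perm.mul_apply]

theorem no_tree (P : W → ℝ) (hinj : Function.Injective P) (hmeas : Measurable P)
    (ga gb : ℝ ≃o ℝ) (hA : ∀ x, P (mA x) = ga (P x)) (hB : ∀ x, P (mB x) = gb (P x))
    (ca : {p | ¬ ∃ α : Aff, α.toIso p = ga p}.Countable)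
    (cb : {p | ¬ ∃ α : Aff, α.toIso p = gb p}.Countable) : False := by
  obtain ⟨L, μ, T, hμ, hL, hm, hgr, hsup, hT, hTs, hat⟩ := exists_measure
  set g : Bool → ℝ ≃o ℝ := fun s => if s then ga else gb with hgdef
  have hg : ∀ s x, P (gen s x) = g s (P x) := by
    intro s x
    cases s
    · exact hB x
    · exact hA x
  have hc : ∀ s, {p | ¬ ∃ α : Aff, α.toIso p = g s p}.Countable := by
    intro s
    cases s
    · exact cb
    · exact ca
  have hbad : {x : W | ∃ (h : FreeGroup Bool) (s : Bool),
      ¬ ∃ α : Aff, α.toIso (P (act h x)) = g s (P (act h x))}.Countable := by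
    have : {x : W | ∃ (h : FreeGroup Bool) (s : Bool),
        ¬ ∃ α : Aff, α.toIso (P (act h x)) = g s (P (act h x))} =
        ⋃ (h : FreeGroup Bool) (s : Bool),
          (fun x => P (act h x)) ⁻¹' {p | ¬ ∃ α : Aff, α.toIso p = g s p} := by
      ext x
      simp only [Set.mem_ofPred_eq, Set.mem_iUnion, Set.mem_preimage]
    rw [this]
    refine Set.countable_iUnion fun h => Set.countable_iUnion fun s => ?_
    exact (hc s).preimage_of_injOn ((hinj.comp (act h).injective).injOn)
  have hnull : μ {x : W | ∃ (h : FreeGroup Bool) (s : Bool),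
      ¬ ∃ α : Aff, α.toIso (P (act h x)) = g s (P (act h x))} = 0 := by
    rw [← Set.biUnion_of_singleton {x : W | ∃ (h : FreeGroup Bool) (s : Bool),
      ¬ ∃ α : Aff, α.toIso (P (act h x)) = g s (P (act h x))}]
    exact (measure_biUnion_null_iff hbad).2 fun x _ => hat x
  refine amenable_contra μ act measurable_act psi measurable_psi P hmeas hinj ?_ ?_ T hT ?_
    aff_folner
  · have : ∀ᵐ x ∂μ, ¬ ∃ (h : FreeGroup Bool) (s : Bool),
        ¬ ∃ α : Aff, α.toIso (P (act h x)) = g s (P (act h x)) := by
      rw [ae_iff]
      simpa only [not_not] using hnull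
    filter_upwards [this] with x hx h
    push Not at hx
    exact orbit_aux P g hg h x hx
  · filter_upwards [hsup] with x hx h hh
    exact act_free L hL hm hgr x hx h hh
  · intro s
    rw [act_of]
    exact hTs s

end Pool.Agent.Helper17.BHC
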