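import Pool.Agent.Helper17.BHC.Cantor
import Pool.Agent.Helper56.QV.RealLike

/-!
BHC NotBern: doubly homogeneous dense sets of real numbers that are not Bernstein sets.

Proof of `ioo_iso`: write X ∩ (u, v) as the union of the X ∩ [x n, x (n+1)), n : ℤ, with x n ∈ X
strictly increasing, x n → v for n → ∞ and x n → u for n → -∞ (X is dense); the same for (u', v').
By double homogeneity there is g : X ≃o X with g (x n) = x' n, g (x (n+1)) = x' (n+1), which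
restricts to an isomorphism of X ∩ [x n, x (n+1)) with X ∩ [x' n, x' (n+1)).  Glue.
Proof of `inQV_of_closed`.  If K has an interior point, K contains an interval (c, d); as X is dense
X ∩ K ≠ ∅, so K ⊆ X, and (c, d) ⊆ X.  Apply `Fib.holds` (Pool.Agent.Helper56.QV.RealLike, see also
the statement of Pool.Agent.Results.MP_39e98c_al.RealFibred.result) to the part of J corresponding
to (c, d) and p = an increasing bijection of (c, d) with ℝ; all fibres are single points.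
If K has no interior, take a, b, m from `exists_cantor_map`.  The part of J corresponding to
X ∩ (a, b), and p = m.  If K ⊆ X: the fibres over the rational numbers are X ∩ [u, v] with u < v in
X; X ∩ [u, v] ≃o X ∩ [u', v'] by double homogeneity; the fibres over the irrational numbers are
single points.  If K ∩ X = ∅: the fibres over the rationals are X ∩ [u, v] = X ∩ (u, v), use
`ioo_iso`; the fibres over the irrationals are empty.
-/

set_option autoImplicit false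

namespace Pool.Agent.Helper17.BHC

open Pool.Agent.Helper56.QV

universe u v

private def congrIso {α : Type*} [LE α] {p q : α → Prop} (h : ∀ z, p z ↔ q z) :
    {z // p z} ≃o {z // q z} where
  toEquiv := Equiv.subtypeEquivRight h
  map_rel_iff' := Iff.rfl

private def subIso (X : Set ℝ) (P : ℝ → Prop) : {z : ℝ // z ∈ X ∧ P z} ≃o {x : X // P x} where
  toFun z := ⟨⟨z.1, z.2.1⟩, z.2.2⟩
  invFun x := ⟨x.1.1, x.1.2, x.2⟩
  left_inv _ := rfl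
  right_inv _ := rfl
  map_rel_iff' := Iff.rfl

private def restIso {α β : Type*} [LE α] [LE β] (e : α ≃o β) {p : α → Prop} {q : β → Prop}
    (h : ∀ z, p z ↔ q (e z)) : {z // p z} ≃o {w // q w} where
  toEquiv := e.toEquiv.subtypeEquiv h
  map_rel_iff' := e.le_iff_le

private theorem phi_lem (a b : ℝ) (hab : a < b) : ∃ φ : ℝ → ℝ, StrictMono φ ∧
    (∀ t, a < φ t ∧ φ t < b) ∧ ∀ z, a < z → z < b → ∃ t, φ t = z := by
  have h0 : 0 < (b - a) / 2 := by linarith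
  refine ⟨fun t => (a + b) / 2 + (b - a) / 2 * (orderIsoIooNegOneOne ℝ t : ℝ), ?_, ?_, ?_⟩
  · intro s t hst
    have h1 : ((orderIsoIooNegOneOne ℝ s : Set.Ioo (-1 : ℝ) 1) : ℝ) < orderIsoIooNegOneOne ℝ t :=
      (orderIsoIooNegOneOne ℝ).strictMono hst
    have h2 := mul_lt_mul_of_pos_left h1 h0
    simp only
    linarith
  · intro t
    have h1 := (orderIsoIooNegOneOne ℝ t).2.1
    have h2 := (orderIsoIooNegOneOne ℝ t).2.2
    simp only
    constructor <;> nlinarith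
  · intro z hz1 hz2
    have h1 : (z - (a + b) / 2) / ((b - a) / 2) ∈ Set.Ioo (-1 : ℝ) 1 := by
      constructor
      · rw [lt_div_iff₀ h0]
        linarith
      · rw [div_lt_iff₀ h0]
        linarith
    refine ⟨(orderIsoIooNegOneOne ℝ).symm ⟨_, h1⟩, ?_⟩
    simp only [OrderIso.apply_symm_apply]
    rw [mul_div_cancel₀ _ h0.ne']
    ring

private theorem ladder (X : Set ℝ) (hd : Dense X) (a b : ℝ) (hab : a < b) :
    ∃ x : ℤ → X, StrictMono x ∧ (∀ n, a < (x n : ℝ) ∧ (x n : ℝ) < b) ∧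
      ∀ z, a < z → z < b → ∃ n : ℤ, (x n : ℝ) ≤ z ∧ z < x (n + 1) := by
  obtain ⟨φ, hm, hφ, hs⟩ := phi_lem a b hab
  have h1 : ∀ n : ℤ, ∃ y ∈ X, φ n < y ∧ y < φ ((n + 1 : ℤ) : ℝ) := by
    intro n
    obtain ⟨y, hy, h2⟩ := hd.exists_between (hm (show (n : ℝ) < ((n + 1 : ℤ) : ℝ) by
      push_cast
      linarith))
    exact ⟨y, hy, h2⟩
  choose y hyX hy1 hy2 using h1
  refine ⟨fun n => ⟨y n, hyX n⟩, strictMono_int_of_lt_succ fun n => ?_, fun n => ?_, fun z h2 h3 => ?_⟩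
  · exact (hy2 n).trans (hy1 (n + 1))
  · exact ⟨(hφ _).1.trans (hy1 n), (hy2 n).trans (hφ _).2⟩
  · obtain ⟨t, rfl⟩ := hs z h2 h3
    have h4 : φ (⌊t⌋ : ℤ) ≤ φ t := hm.monotone (Int.floor_le t)
    have h5 : φ t < φ ((⌊t⌋ + 1 : ℤ) : ℝ) := hm (by
      push_cast
      exact Int.lt_floor_add_one t)
    by_cases h6 : y ⌊t⌋ ≤ φ t
    · exact ⟨⌊t⌋, h6, h5.trans (hy1 _)⟩
    · refine ⟨⌊t⌋ - 1, ?_, ?_⟩
      · have h7 := (hy2 (⌊t⌋ - 1)).le
        rw [sub_add_cancel] at h7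
        exact h7.trans h4
      · rw [sub_add_cancel]
        exact not_le.1 h6

private theorem uniq_step {X : Set ℝ} {x : ℤ → X} (hx : StrictMono x) {z w : ℝ} {n m : ℤ}
    (h1 : (x n : ℝ) ≤ z) (h2 : w < x (m + 1)) (hzw : z ≤ w) : n ≤ m := by
  by_contra hc
  have h3 : x (m + 1) ≤ x n := hx.monotone (by omega)
  have h4 : (x (m + 1) : ℝ) ≤ x n := h3
  linarith

theorem ioo_iso (X : Set ℝ) (hd : Dense X) (hX : DoublyHom X) (a b c d : ℝ) (hab : a < b)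
    (hcd : c < d) : Nonempty ({z // z ∈ X ∧ a < z ∧ z < b} ≃o {z // z ∈ X ∧ c < z ∧ z < d}) := by
  obtain ⟨x, hx, hx1, hx2⟩ := ladder X hd a b hab
  obtain ⟨y, hy, hy1, hy2⟩ := ladder X hd c d hcd
  have hg : ∀ n : ℤ, ∃ g : X ≃o X, g (x n) = y n ∧ g (x (n + 1)) = y (n + 1) := fun n =>
    hX _ _ _ _ (hx (by omega)) (hy (by omega))
  choose g hg1 hg2 using hg
  choose N hN1 hN2 using hx2
  let F : {z // z ∈ X ∧ a < z ∧ z < b} → {z // z ∈ X ∧ c < z ∧ z < d} := fun z =>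
    ⟨(g (N z.1 z.2.2.1 z.2.2.2) ⟨z.1, z.2.1⟩ : X), (g (N z.1 z.2.2.1 z.2.2.2) ⟨z.1, z.2.1⟩).2, by
      have h1 : y (N z.1 z.2.2.1 z.2.2.2) ≤ g (N z.1 z.2.2.1 z.2.2.2) ⟨z.1, z.2.1⟩ := by
        rw [← hg1, OrderIso.le_iff_le]
        exact hN1 _ _ _
      have h2 : g (N z.1 z.2.2.1 z.2.2.2) ⟨z.1, z.2.1⟩ < y (N z.1 z.2.2.1 z.2.2.2 + 1) := by
        rw [← hg2, OrderIso.lt_iff_lt]
        exact hN2 _ _ _
      exact ⟨(hy1 _).1.trans_le h1, lt_trans (show _ < _ from h2) (hy1 _).2⟩⟩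
  have hF : StrictMono F := by
    intro z w hzw
    have hzw' : z.1 < w.1 := hzw
    have h0 : N z.1 z.2.2.1 z.2.2.2 ≤ N w.1 w.2.2.1 w.2.2.2 :=
      uniq_step hx (hN1 _ _ _) (hN2 _ _ _) hzw'.le
    show ((g (N z.1 z.2.2.1 z.2.2.2) ⟨z.1, z.2.1⟩ : X) : ℝ) < (g (N w.1 w.2.2.1 w.2.2.2) ⟨w.1, w.2.1⟩ : X)
    rcases h0.lt_or_eq with h1 | h1
    · have h2 : g (N z.1 z.2.2.1 z.2.2.2) ⟨z.1, z.2.1⟩ < y (N z.1 z.2.2.1 z.2.2.2 + 1) := by
        rw [← hg2, OrderIso.lt_iff_lt]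
        exact hN2 _ _ _
      have h3 : y (N z.1 z.2.2.1 z.2.2.2 + 1) ≤ y (N w.1 w.2.2.1 w.2.2.2) := hy.monotone (by omega)
      have h4 : y (N w.1 w.2.2.1 w.2.2.2) ≤ g (N w.1 w.2.2.1 w.2.2.2) ⟨w.1, w.2.1⟩ := by
        rw [← hg1, OrderIso.le_iff_le]
        exact hN1 _ _ _
      exact (h2.trans_le h3).trans_le h4
    · rw [h1]
      exact (OrderIso.lt_iff_lt (g _)).2 hzw'
  have hS : Function.Surjective F := by
    rintro ⟨w, hw, hw1, hw2⟩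
    obtain ⟨n, hn1, hn2⟩ := hy2 w hw1 hw2
    have h1 : x n ≤ (g n).symm ⟨w, hw⟩ := by
      rw [OrderIso.le_symm_apply, hg1]
      exact hn1
    have h2 : (g n).symm ⟨w, hw⟩ < x (n + 1) := by
      rw [OrderIso.symm_apply_lt, hg2]
      exact hn2
    have h3 : a < (((g n).symm ⟨w, hw⟩ : X) : ℝ) := (hx1 n).1.trans_le h1
    have h4 : (((g n).symm ⟨w, hw⟩ : X) : ℝ) < b := lt_trans (show _ < _ from h2) (hx1 _).2
    refine ⟨⟨((g n).symm ⟨w, hw⟩ : X), ((g n).symm ⟨w, hw⟩).2, h3, h4⟩, ?_⟩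
    have h5 : N _ h3 h4 = n := le_antisymm
      (uniq_step hx (hN1 _ h3 h4) h2 le_rfl) (uniq_step hx h1 (hN2 _ h3 h4) le_rfl)
    apply Subtype.ext
    show ((g (N _ h3 h4) ⟨(((g n).symm ⟨w, hw⟩ : X) : ℝ), _⟩ : X) : ℝ) = w
    rw [h5]
    have h6 : g n ((g n).symm ⟨w, hw⟩) = ⟨w, hw⟩ := OrderIso.apply_symm_apply _ _
    exact congrArg Subtype.val h6
  exact ⟨hF.orderIsoOfSurjective F hS⟩

private theorem icc_iso (X : Set ℝ) (hX : DoublyHom X) {u v u' v' : ℝ} (h1 : u ∈ X) (h2 : v ∈ X)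
    (h3 : u' ∈ X) (h4 : v' ∈ X) (h : u < v) (h' : u' < v') :
    Nonempty ({z // z ∈ X ∧ (u ≤ z ∧ z ≤ v)} ≃o {z // z ∈ X ∧ (u' ≤ z ∧ z ≤ v')}) := by
  obtain ⟨g, hg1, hg2⟩ := hX ⟨u, h1⟩ ⟨v, h2⟩ ⟨u', h3⟩ ⟨v', h4⟩ h h'
  refine ⟨(subIso X (fun z => u ≤ z ∧ z ≤ v)).trans ((restIso g fun z => ?_).trans
    (subIso X (fun z => u' ≤ z ∧ z ≤ v')).symm)⟩
  have e1 : (u' ≤ ((g z : X) : ℝ)) ↔ (⟨u', h3⟩ : X) ≤ g z := Iff.rfl
  have e2 : (((g z : X) : ℝ) ≤ v') ↔ g z ≤ (⟨v', h4⟩ : X) := Iff.rfl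
  rw [e1, e2, ← hg1, ← hg2, OrderIso.le_iff_le, OrderIso.le_iff_le]
  exact Iff.rfl

private theorem uniq_iso {α β : Type*} [Preorder α] [Preorder β] {p : α → Prop} {q : β → Prop}
    (h1 : ∃! z, p z) (h2 : ∃! z, q z) : Nonempty ({z // p z} ≃o {z // q z}) := by
  obtain ⟨z, hz, hz'⟩ := h1
  obtain ⟨w, hw, hw'⟩ := h2
  have : Unique {z // p z} := ⟨⟨⟨z, hz⟩⟩, fun y => Subtype.ext (hz' y.1 y.2)⟩
  have : Unique {z // q z} := ⟨⟨⟨w, hw⟩⟩, fun y => Subtype.ext (hw' y.1 y.2)⟩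
  exact ⟨OrderIso.ofUnique _ _⟩

private theorem empty_iso {α β : Type*} [Preorder α] [Preorder β] {p : α → Prop} {q : β → Prop}
    (h1 : ∀ z, ¬ p z) (h2 : ∀ z, ¬ q z) : Nonempty ({z // p z} ≃o {z // q z}) := by
  have : IsEmpty {z // p z} := ⟨fun y => h1 y.1 y.2⟩
  have : IsEmpty {z // q z} := ⟨fun y => h2 y.1 y.2⟩
  exact ⟨OrderIso.ofIsEmpty _ _⟩

private theorem fib_red (X : Set ℝ) (hd : Dense X) (c d : ℝ) (hcd : c < d) (m : ℝ → ℝ)
    (hm : MonotoneOn m (Set.Ioo c d))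
    (hq : ∀ x y : ℚ, Nonempty ({t // t ∈ X ∧ (t ∈ Set.Ioo c d ∧ m t = x)} ≃o
      {t // t ∈ X ∧ (t ∈ Set.Ioo c d ∧ m t = y)}))
    (hi : ∀ x y : ℝ, Irrational x → Irrational y →
      Nonempty ({t // t ∈ X ∧ (t ∈ Set.Ioo c d ∧ m t = x)} ≃o
        {t // t ∈ X ∧ (t ∈ Set.Ioo c d ∧ m t = y)}))
    (Ω : Type u) [LinearOrder Ω] (J : Set Ω) (hJ : J.OrdConnected) (e : J ≃o X)
    (G : Type v) [LGroup G] : InQV (Ω ≃o Ω) G := by
  classical
  let p : Ω → ℝ := fun z => if h : z ∈ J then m (e ⟨z, h⟩ : X) else 0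
  have hp : ∀ z (h : z ∈ J), p z = m (e ⟨z, h⟩ : X) := fun z h => dif_pos h
  let J' : Set Ω := {z | ∃ h : z ∈ J, ((e ⟨z, h⟩ : X) : ℝ) ∈ Set.Ioo c d}
  have key : ∀ x : ℝ, Nonempty ({z // z ∈ J' ∧ p z = x} ≃o
      {t // t ∈ X ∧ (t ∈ Set.Ioo c d ∧ m t = x)}) := by
    intro x
    refine ⟨(?_ : {z // z ∈ J' ∧ p z = x} ≃o {z : J // ((e z : X) : ℝ) ∈ Set.Ioo c d ∧ m (e z : X) = x}).trans
      ((restIso e (q := fun t : X => (t : ℝ) ∈ Set.Ioo c d ∧ m t = x) fun z => Iff.rfl).trans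
        (subIso X (fun t => t ∈ Set.Ioo c d ∧ m t = x)).symm)⟩
    exact
      { toFun := fun z => ⟨⟨z.1, z.2.1.1⟩, z.2.1.2, by rw [← hp z.1 z.2.1.1]; exact z.2.2⟩
        invFun := fun z => ⟨z.1.1, ⟨z.1.2, z.2.1⟩, by rw [hp z.1.1 z.1.2]; exact z.2.2⟩
        left_inv := fun _ => rfl
        right_inv := fun _ => rfl
        map_rel_iff' := Iff.rfl }
  have hconv : J'.OrdConnected := by
    refine ⟨fun z hz w hw y hy => ?_⟩
    obtain ⟨hz1, hz2⟩ := hz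
    obtain ⟨hw1, hw2⟩ := hw
    have hyJ : y ∈ J := hJ.out hz1 hw1 hy
    refine ⟨hyJ, ?_, ?_⟩
    · have h1 : e ⟨z, hz1⟩ ≤ e ⟨y, hyJ⟩ := e.monotone hy.1
      exact hz2.1.trans_le h1
    · have h1 : e ⟨y, hyJ⟩ ≤ e ⟨w, hw1⟩ := e.monotone hy.2
      exact lt_of_le_of_lt (show _ ≤ _ from h1) hw2.2
  have hne : J'.Nonempty := by
    obtain ⟨t, ht, h1⟩ := hd.exists_between hcd
    refine ⟨(e.symm ⟨t, ht⟩ : J), (e.symm ⟨t, ht⟩).2, ?_⟩
    have h2 : e ⟨((e.symm ⟨t, ht⟩ : J) : Ω), (e.symm ⟨t, ht⟩).2⟩ = ⟨t, ht⟩ := e.apply_symm_apply _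
    rw [h2]
    exact h1
  have hmono : MonotoneOn p J' := by
    rintro z ⟨hz1, hz2⟩ w ⟨hw1, hw2⟩ hzw
    rw [hp z hz1, hp w hw1]
    exact hm hz2 hw2 (e.monotone (show (⟨z, hz1⟩ : J) ≤ ⟨w, hw1⟩ from hzw))
  intro φ hφ
  refine Fib.holds ⟨J', hconv, hne, p, hmono, fun x y => ?_, fun x y hx hy => ?_⟩ hφ G
  · obtain ⟨e1⟩ := key x
    obtain ⟨e2⟩ := key y
    obtain ⟨e3⟩ := hq x y
    exact ⟨e1.trans (e3.trans e2.symm)⟩
  · obtain ⟨e1⟩ := key x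
    obtain ⟨e2⟩ := key y
    obtain ⟨e3⟩ := hi x y hx hy
    exact ⟨e1.trans (e3.trans e2.symm)⟩

theorem inQV_of_closed (X : Set ℝ) (hd : Dense X) (hX : DoublyHom X) (K : Set ℝ)
    (hK : IsClosed K) (hKu : ¬ K.Countable) (h : K ⊆ X ∨ K ∩ X = ∅)
    (Ω : Type u) [LinearOrder Ω] (J : Set Ω) (hJ : J.OrdConnected) (e : J ≃o X)
    (G : Type v) [LGroup G] : InQV (Ω ≃o Ω) G := by
  by_cases hint : interior K = ∅
  · obtain ⟨a, b, m, hab, hm, hq, hi⟩ := exists_cantor_map K hK hKu hint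
    have hqf : ∀ q : ℚ, ∃ u v : ℝ, u < v ∧ u ∈ K ∧ v ∈ K ∧
        ∀ z, (z ∈ Set.Ioo a b ∧ m z = q) ↔ (u ≤ z ∧ z ≤ v) := by
      intro q
      obtain ⟨u, v, h1, h2, h3, h4⟩ := hq q
      exact ⟨u, v, h1, h2, h3, fun z => Set.ext_iff.1 h4 z⟩
    have hif : ∀ r : ℝ, Irrational r → ∃ z ∈ K, ∀ y, (y ∈ Set.Ioo a b ∧ m y = r) ↔ y = z := by
      intro r hr
      obtain ⟨z, hz, h1⟩ := hi r hr
      exact ⟨z, hz, fun y => Set.ext_iff.1 h1 y⟩
    refine fib_red X hd a b hab m hm (fun x y => ?_) (fun x y hx hy => ?_) Ω J hJ e G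
    · obtain ⟨u, v, huv, hu, hv, h1⟩ := hqf x
      obtain ⟨u', v', huv', hu', hv', h2⟩ := hqf y
      rcases h with h | h
      · obtain ⟨f⟩ := icc_iso X hX (h hu) (h hv) (h hu') (h hv') huv huv'
        exact ⟨(congrIso fun z => and_congr_right fun _ => h1 z).trans
          (f.trans (congrIso fun z => and_congr_right fun _ => (h2 z).symm))⟩
      · have hn : ∀ t ∈ K, t ∉ X := fun t ht ht' => by
          have : t ∈ K ∩ X := ⟨ht, ht'⟩
          rw [h] at this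
          exact this
        obtain ⟨f⟩ := ioo_iso X hd hX u v u' v' huv huv'
        have h3 : ∀ (u v z : ℝ), u ∈ K → v ∈ K → ((z ∈ X ∧ (u ≤ z ∧ z ≤ v)) ↔ (z ∈ X ∧ u < z ∧ z < v)) := by
          intro u v z hu hv
          constructor
          · rintro ⟨h4, h5, h6⟩
            exact ⟨h4, h5.lt_of_ne (fun h7 => hn u hu (h7 ▸ h4)), h6.lt_of_ne (fun h7 => hn v hv (h7 ▸ h4))⟩
          · rintro ⟨h4, h5, h6⟩
            exact ⟨h4, h5.le, h6.le⟩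
        exact ⟨(congrIso fun z => (and_congr_right fun _ => h1 z).trans (h3 u v z hu hv)).trans
          (f.trans (congrIso fun z => ((and_congr_right fun _ => h2 z).trans (h3 u' v' z hu' hv')).symm))⟩
    · obtain ⟨z, hz, h1⟩ := hif x hx
      obtain ⟨w, hw, h2⟩ := hif y hy
      rcases h with h | h
      · exact uniq_iso ⟨z, ⟨h hz, (h1 z).2 rfl⟩, fun t ht => (h1 t).1 ht.2⟩
          ⟨w, ⟨h hw, (h2 w).2 rfl⟩, fun t ht => (h2 t).1 ht.2⟩
      · have hn : ∀ t ∈ K, t ∉ X := fun t ht ht' => by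
          have : t ∈ K ∩ X := ⟨ht, ht'⟩
          rw [h] at this
          exact this
        exact empty_iso (fun t ht => hn z hz ((h1 t).1 ht.2 ▸ ht.1))
          (fun t ht => hn w hw ((h2 t).1 ht.2 ▸ ht.1))
  · obtain ⟨t, ht⟩ := Set.nonempty_iff_ne_empty.2 hint
    obtain ⟨ε, hε, hb⟩ := Metric.isOpen_iff.1 isOpen_interior t ht
    have hI : Set.Ioo (t - ε) (t + ε) ⊆ K := by
      rw [← Real.ball_eq_Ioo]
      exact hb.trans interior_subset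
    have hcd : t - ε < t + ε := by linarith
    have hKX : K ⊆ X := by
      rcases h with h | h
      · exact h
      · exfalso
        obtain ⟨s, hs, h1⟩ := hd.exists_between hcd
        have h2 : s ∈ K ∩ X := ⟨hI h1, hs⟩
        rw [h] at h2
        exact h2
    obtain ⟨φ, hφm, hφ1, hφ2⟩ := phi_lem (t - ε) (t + ε) hcd
    have hinv : ∀ z : ℝ, ∃ s : ℝ, z ∈ Set.Ioo (t - ε) (t + ε) → φ s = z := by
      intro z
      by_cases hz : z ∈ Set.Ioo (t - ε) (t + ε)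
      · obtain ⟨s, hs⟩ := hφ2 z hz.1 hz.2
        exact ⟨s, fun _ => hs⟩
      · exact ⟨0, fun h1 => absurd h1 hz⟩
    choose m hm using hinv
    have hfib : ∀ x : ℝ, ∃! z, z ∈ X ∧ (z ∈ Set.Ioo (t - ε) (t + ε) ∧ m z = x) := by
      intro x
      have h1 : φ x ∈ Set.Ioo (t - ε) (t + ε) := hφ1 x
      refine ⟨φ x, ⟨hKX (hI h1), h1, hφm.injective (hm _ h1)⟩, ?_⟩
      rintro z ⟨_, h3, h4⟩
      rw [← h4, hm z h3]
    refine fib_red X hd _ _ hcd m ?_ (fun x y => uniq_iso (hfib x) (hfib y))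
      (fun x y _ _ => uniq_iso (hfib x) (hfib y)) Ω J hJ e G
    intro z hz w hw hzw
    by_contra hc
    have h1 := hφm (not_le.1 hc)
    rw [hm z hz, hm w hw] at h1
    exact absurd hzw (not_le.2 h1)

end Pool.Agent.Helper17.BHC
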