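import Pool.Agent.Helper17.BHC.Defs

/-!
BHC Rec: a recursion of length continuum.

Proof of `exists_inv_set`.  Write p ~ q for ∃ γ ∈ Γ, γ p = q (an equivalence relation, classes
countable).  Tasks: T = {K : Set ℝ // IsClosed K ∧ ¬ K.Countable} ⊕
{g : ℝ ≃o ℝ // ¬ {p | ¬ ∃ γ ∈ Γ, γ p = g p}.Countable}.  #T ≤ 𝔠 (closed sets of a second countable
space; g is determined by its values at rational points, #(ℚ → ℝ) = 𝔠).  Well-order T so that all
initial segments have cardinality < 𝔠 (`Cardinal.ord_eq`; #{t' | t' < t} < #T ≤ 𝔠).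
By well-founded recursion choose for every t a pair (p t, q t) of real numbers such that
(i) p t, q t are both in K if t = K, and q t = g (p t) if t = g; (ii) q t is not ~ p t;
(iii) for all t' < t : p t is not ~ q t' and q t is not ~ p t'.
This is possible: the set of the real numbers to be avoided (the union of fewer than 𝔠 countable
classes) has cardinality < 𝔠; an uncountable closed set has cardinality 𝔠; for t = g the set
B = {p | ¬ ∃ γ ∈ Γ, γ p = g p} = ⋂ γ ∈ Γ, {p | γ p ≠ g p} is a countable intersection of open sets,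
so it is measurable and uncountable, hence of cardinality 𝔠 (e.g. an uncountable standard Borel
space is Borel isomorphic to ℝ: `PolishSpace.measurableEquivOfNotCountable`), and one avoids p ∈ Bad
and g p ∈ Bad, i.e. p ∈ g⁻¹ Bad (< 𝔠 many).  For t = K one first picks p then q (q not ~ p).
X := {x | ∃ t, p t ~ x}.  X is Γ-invariant, p t ∈ X, and q t ∉ X: if p t' ~ q t then t' < t is
excluded by (iii), t' = t by (ii), t < t' by (iii) for t'.  So X is a Bernstein set, and for t = g :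
p t ∈ X, g (p t) ∉ X.
-/

set_option autoImplicit false

namespace Pool.Agent.Helper17.BHC

open Cardinal Set

private theorem mk42 {B : Set ℝ} (hB : MeasurableSet B) (h : ¬ B.Countable) : #B = 𝔠 := by
  have : StandardBorelSpace B := hB.standardBorel
  have h' : ¬ Countable B := fun hc => h (Set.countable_coe_iff.1 hc)
  have e := (PolishSpace.measurableEquivNatBoolOfNotCountable h').toEquiv
  rw [Cardinal.mk_congr e]
  simp

private theorem ex42 {B C : Set ℝ} (hB : #B = 𝔠) (hC : #C < 𝔠) : ∃ x ∈ B, x ∉ C := by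
  by_contra hcon
  push Not at hcon
  have : #B ≤ #C := Cardinal.mk_le_mk_of_subset hcon
  rw [hB] at this
  exact absurd hC (not_lt.2 this)

private theorem closed42 : #{K : Set ℝ // IsClosed K ∧ ¬ K.Countable} ≤ 𝔠 := by
  have h1 : Function.Injective (fun K : {K : Set ℝ // IsClosed K ∧ ¬ K.Countable} =>
      {ab : ℚ × ℚ | Ioo (ab.1 : ℝ) (ab.2 : ℝ) ∩ K.1 = ∅}) := by
    have aux : ∀ K L : {K : Set ℝ // IsClosed K ∧ ¬ K.Countable},
        {ab : ℚ × ℚ | Ioo (ab.1 : ℝ) (ab.2 : ℝ) ∩ K.1 = ∅} =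
        {ab : ℚ × ℚ | Ioo (ab.1 : ℝ) (ab.2 : ℝ) ∩ L.1 = ∅} → ∀ x, x ∈ K.1 → x ∈ L.1 := by
      intro K L h x hx
      by_contra hxL
      have hop : IsOpen (L.1)ᶜ := L.2.1.isOpen_compl
      obtain ⟨ε, hε, hb⟩ := Metric.isOpen_iff.1 hop x hxL
      obtain ⟨a, ha1, ha2⟩ := exists_rat_btwn (sub_lt_self x hε)
      obtain ⟨b, hb1, hb2⟩ := exists_rat_btwn (lt_add_of_pos_right x hε)
      have hm : (a, b) ∈ {ab : ℚ × ℚ | Ioo (ab.1 : ℝ) (ab.2 : ℝ) ∩ L.1 = ∅} := by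
        rw [Set.mem_ofPred_eq, Set.eq_empty_iff_forall_notMem]
        rintro y ⟨hy, hyL⟩
        refine hb ?_ hyL
        rw [Real.ball_eq_Ioo]
        exact ⟨ha1.trans hy.1, hy.2.trans hb2⟩
      rw [← h, Set.mem_ofPred_eq, Set.eq_empty_iff_forall_notMem] at hm
      exact hm x ⟨⟨ha2, hb1⟩, hx⟩
    intro K L h
    apply Subtype.ext
    ext x
    exact ⟨aux K L h x, aux L K h.symm x⟩
  refine (Cardinal.mk_le_of_injective h1).trans ?_
  rw [Cardinal.mk_set]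
  simp

private theorem iso42 : #(ℝ ≃o ℝ) ≤ 𝔠 := by
  have h1 : Function.Injective (fun g : ℝ ≃o ℝ => fun q : ℚ => g (q : ℝ)) := by
    intro g g' h
    have h2 : (g : ℝ → ℝ) = g' := by
      refine DenseRange.equalizer Rat.denseRange_cast g.continuous g'.continuous ?_
      exact h
    exact DFunLike.coe_injective h2
  refine (Cardinal.mk_le_of_injective h1).trans ?_
  rw [← Cardinal.power_def, Cardinal.mk_real]
  simp

/-- the recursion -/
private theorem rec42 {T : Type} (hT : #T ≤ 𝔠) (R : ℝ → ℝ → Prop)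
    (hs : ∀ p q, R p q → R q p) (hc : ∀ p, {q | R p q}.Countable) (S : T → Set (ℝ × ℝ))
    (hS : ∀ t (Bad : Set ℝ), #Bad < 𝔠 → ∃ pq ∈ S t, pq.1 ∉ Bad ∧ pq.2 ∉ Bad ∧ ¬ R pq.1 pq.2) :
    ∃ f : T → ℝ × ℝ, (∀ t, f t ∈ S t) ∧ ∀ t t', ¬ R (f t).1 (f t').2 := by
  classical
  obtain ⟨r, hwo, hr⟩ := Cardinal.exists_ord_eq T
  let Bad : ∀ t : T, (∀ t', r t' t → ℝ × ℝ) → Set ℝ := fun t ih =>
    ⋃ t' : {t' // r t' t}, ({x | R (ih t'.1 t'.2).1 x} ∪ {x | R (ih t'.1 t'.2).2 x})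
  have hBad : ∀ t ih, #(Bad t ih) < 𝔠 := by
    intro t ih
    refine lt_of_le_of_lt (Cardinal.mk_iUnion_le _) ?_
    refine Cardinal.mul_lt_of_lt Cardinal.aleph0_le_continuum ?_ ?_
    · exact lt_of_lt_of_le (Cardinal.card_typein_lt t hr) hT
    · refine lt_of_le_of_lt ?_ Cardinal.aleph0_lt_continuum
      refine ciSup_le' fun t' => ?_
      rw [Cardinal.le_aleph0_iff_set_countable]
      exact (hc _).union (hc _)
  have hwf : WellFounded r := hwo.wf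
  let f : T → ℝ × ℝ := hwf.fix (fun t ih => (hS t (Bad t ih) (hBad t ih)).choose)
  have hf : ∀ t, f t ∈ S t ∧ (f t).1 ∉ Bad t (fun t' _ => f t') ∧
      (f t).2 ∉ Bad t (fun t' _ => f t') ∧ ¬ R (f t).1 (f t).2 := by
    intro t
    have h1 : f t = (hS t (Bad t (fun t' _ => f t')) (hBad t (fun t' _ => f t'))).choose :=
      hwf.fix_eq _ t
    have h2 := (hS t (Bad t (fun t' _ => f t')) (hBad t (fun t' _ => f t'))).choose_spec
    rw [← h1] at h2
    exact h2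
  refine ⟨f, fun t => (hf t).1, ?_⟩
  intro t t' hR
  rcases trichotomous_of r t t' with h | h | h
  · refine (hf t').2.2.1 (Set.mem_iUnion.2 ⟨⟨t, h⟩, Or.inl hR⟩)
  · rw [← h] at hR
    exact (hf t).2.2.2 hR
  · refine (hf t).2.1 (Set.mem_iUnion.2 ⟨⟨t', h⟩, Or.inr (hs _ _ hR)⟩)

theorem exists_inv_set (Γ : Subgroup (ℝ ≃o ℝ)) (hΓ : (Γ : Set (ℝ ≃o ℝ)).Countable) :
    ∃ X : Set ℝ, (∀ γ ∈ Γ, ∀ p, γ p ∈ X ↔ p ∈ X) ∧ Bernstein X ∧
      ∀ g : ℝ ≃o ℝ, (∀ p, g p ∈ X ↔ p ∈ X) → {p | ¬ ∃ γ ∈ Γ, γ p = g p}.Countable := by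
  classical
  let R : ℝ → ℝ → Prop := fun p q => ∃ γ ∈ Γ, γ p = q
  have hrefl : ∀ p, R p p := fun p => ⟨1, Γ.one_mem, rfl⟩
  have hsymm : ∀ p q, R p q → R q p := by
    rintro p q ⟨γ, hγ, rfl⟩
    exact ⟨γ⁻¹, Γ.inv_mem hγ, γ.symm_apply_apply p⟩
  have htrans : ∀ p q x, R p q → R q x → R p x := by
    rintro p q x ⟨γ, hγ, rfl⟩ ⟨δ, hδ, rfl⟩
    exact ⟨δ * γ, Γ.mul_mem hδ hγ, rfl⟩
  have hcount : ∀ p, {q | R p q}.Countable := by
    intro p
    have : {q | R p q} = (fun γ : ℝ ≃o ℝ => γ p) '' (Γ : Set (ℝ ≃o ℝ)) := by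
      ext q
      exact Iff.rfl
    rw [this]
    exact hΓ.image _
  let S : ({K : Set ℝ // IsClosed K ∧ ¬ K.Countable} ⊕
      {g : ℝ ≃o ℝ // ¬ {p | ¬ ∃ γ ∈ Γ, γ p = g p}.Countable}) → Set (ℝ × ℝ) := fun t =>
    match t with
    | .inl K => {pq | pq.1 ∈ K.1 ∧ pq.2 ∈ K.1}
    | .inr g => {pq | pq.2 = g.1 pq.1}
  have hT : #({K : Set ℝ // IsClosed K ∧ ¬ K.Countable} ⊕
      {g : ℝ ≃o ℝ // ¬ {p | ¬ ∃ γ ∈ Γ, γ p = g p}.Countable}) ≤ 𝔠 := by
    rw [Cardinal.mk_sum, Cardinal.lift_id, Cardinal.lift_id]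
    refine (add_le_add closed42 ((Cardinal.mk_subtype_le _).trans iso42)).trans ?_
    rw [Cardinal.continuum_add_self]
  obtain ⟨f, hf1, hf2⟩ := rec42 hT R hsymm hcount S (by
    rintro (K | g) Bad hBad
    · have hK := mk42 K.2.1.measurableSet K.2.2
      obtain ⟨p, hp, hpB⟩ := ex42 hK hBad
      have hBad2 : #(Bad ∪ {q | R p q} : Set ℝ) < 𝔠 := by
        refine lt_of_le_of_lt (Cardinal.mk_union_le _ _) ?_
        refine Cardinal.add_lt_of_lt Cardinal.aleph0_le_continuum hBad ?_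
        refine lt_of_le_of_lt ?_ Cardinal.aleph0_lt_continuum
        rw [Cardinal.le_aleph0_iff_set_countable]
        exact hcount p
      obtain ⟨q, hq, hqB⟩ := ex42 hK hBad2
      exact ⟨(p, q), ⟨hp, hq⟩, hpB, fun h => hqB (Or.inl h), fun h => hqB (Or.inr h)⟩
    · have hm : MeasurableSet {p | ¬ ∃ γ ∈ Γ, γ p = g.1 p} := by
        have : {p | ¬ ∃ γ ∈ Γ, γ p = g.1 p} =
            (⋃ γ ∈ (Γ : Set (ℝ ≃o ℝ)), {p | γ p = g.1 p})ᶜ := by
          ext p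
          simp
        rw [this]
        refine (MeasurableSet.biUnion hΓ fun γ _ => ?_).compl
        exact (isClosed_eq γ.continuous g.1.continuous).measurableSet
      have hK := mk42 hm g.2
      have hBad2 : #(Bad ∪ g.1 ⁻¹' Bad : Set ℝ) < 𝔠 := by
        refine lt_of_le_of_lt (Cardinal.mk_union_le _ _) ?_
        refine Cardinal.add_lt_of_lt Cardinal.aleph0_le_continuum hBad ?_
        exact lt_of_le_of_lt (Cardinal.mk_preimage_of_injective _ _ g.1.injective) hBad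
      obtain ⟨p, hp, hpB⟩ := ex42 hK hBad2
      exact ⟨(p, g.1 p), rfl, fun h => hpB (Or.inl h), fun h => hpB (Or.inr h), hp⟩)
  refine ⟨{x | ∃ t, R (f t).1 x}, ?_, ?_, ?_⟩
  · intro γ hγ p
    constructor
    · rintro ⟨t, ht⟩
      exact ⟨t, htrans _ _ _ ht (hsymm _ _ ⟨γ, hγ, rfl⟩)⟩
    · rintro ⟨t, ht⟩
      exact ⟨t, htrans _ _ _ ht ⟨γ, hγ, rfl⟩⟩
  · intro K hK hKc
    have h1 := hf1 (.inl ⟨K, hK, hKc⟩)
    refine ⟨⟨_, h1.1, ⟨_, hrefl _⟩⟩, ⟨_, h1.2, ?_⟩⟩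
    rintro ⟨t, ht⟩
    exact hf2 t _ ht
  · intro g hg
    by_contra hcon
    have h1 : (f (.inr ⟨g, hcon⟩)).2 = g (f (.inr ⟨g, hcon⟩)).1 := hf1 (.inr ⟨g, hcon⟩)
    have h2 : g (f (.inr ⟨g, hcon⟩)).1 ∈ {x | ∃ t, R (f t).1 x} :=
      (hg _).2 ⟨_, hrefl _⟩
    rw [← h1] at h2
    obtain ⟨t, ht⟩ := h2
    exact hf2 t _ ht

end Pool.Agent.Helper17.BHC
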