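import Pool.Agent.Helper17.BHC.Defs

/-! Group theoretic consequences of the premises. -/

set_option autoImplicit false

namespace Pool.Agent.Helper17.BHC

universe u

/-- The group relations. -/
structure GRel {G : Type u} [Group G] (e s b : G) : Prop where
  c1 : e * (s * e * s⁻¹) = (s * e * s⁻¹) * e
  c2 : e * (s * s * e * (s * s)⁻¹) = (s * s * e * (s * s)⁻¹) * e
  be : b * e = e * (s * e * s⁻¹) * b
  b1 : b * (s * e * s⁻¹) = (s * e * s⁻¹) * b
  sb : s * s * b = b * (s * s)

/-- The conjugates of e by the powers of s. -/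
def en {G : Type u} [Group G] (e s : G) (n : ℤ) : G := s ^ n * e * (s ^ n)⁻¹

section

variable {G : Type u} [Group G] {e s b : G}

theorem en_add (m n : ℤ) : s ^ m * en e s n * (s ^ m)⁻¹ = en e s (m + n) := by
  unfold en
  rw [zpow_add]
  group

theorem en_zero : en e s 0 = e := by simp [en]

theorem en_one : en e s 1 = s * e * s⁻¹ := by simp [en]

theorem en_two : en e s 2 = s * s * e * (s * s)⁻¹ := by
  unfold en
  rw [show (2 : ℤ) = 1 + 1 by norm_num, zpow_add, zpow_one]

theorem comm_shift (m : ℤ) {i j : ℤ} (h : Commute (en e s i) (en e s j)) :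
    Commute (en e s (m + i)) (en e s (m + j)) := by
  rw [← en_add m i, ← en_add m j]
  exact h.conj _

theorem comm_move {i j i' j' : ℤ} (h : Commute (en e s i) (en e s j)) (hij : j - i = j' - i') :
    Commute (en e s i') (en e s j') := by
  have h1 := comm_shift (i' - i) h
  rw [sub_add_cancel] at h1
  rwa [show i' - i + j = j' by omega] at h1

end

namespace GRel

variable {G : Type u} [Group G] {e s b : G}

theorem comm_b_pow (h : GRel e s b) (k : ℤ) : Commute b (s ^ (2 * k)) := by
  have h1 : Commute b (s * s) := h.sb.symm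
  have h2 := h1.zpow_right k
  rwa [← pow_two, ← zpow_natCast, ← zpow_mul] at h2

/-- b on the even translations. -/
theorem b_even (h : GRel e s b) (k : ℤ) :
    SemiconjBy b (en e s (2 * k)) (en e s (2 * k) * en e s (2 * k + 1)) := by
  have h0 : SemiconjBy b (en e s 0) (en e s 0 * en e s 1) := by
    rw [en_zero, en_one]
    exact h.be
  have h1 := (SemiconjBy.conj_iff (b := s ^ (2 * k))).2 h0
  have h2 : s ^ (2 * k) * b * (s ^ (2 * k))⁻¹ = b := by
    rw [← (h.comm_b_pow k).eq, mul_inv_cancel_right]
  rw [h2, en_add, add_zero] at h1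
  have h3 : s ^ (2 * k) * (en e s 0 * en e s 1) * (s ^ (2 * k))⁻¹ =
      en e s (2 * k) * en e s (2 * k + 1) := by
    rw [← en_add (2 * k) 1, show en e s (2 * k) = s ^ (2 * k) * en e s 0 * (s ^ (2 * k))⁻¹ by
      rw [en_add, add_zero]]
    group
  rwa [h3] at h1

/-- b on the odd translations. -/
theorem b_odd (h : GRel e s b) (k : ℤ) : Commute b (en e s (2 * k + 1)) := by
  have h0 : Commute b (en e s 1) := by
    rw [en_one]
    exact h.b1
  have h1 := h0.conj (s ^ (2 * k))
  have h2 : s ^ (2 * k) * b * (s ^ (2 * k))⁻¹ = b := by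
    rw [← (h.comm_b_pow k).eq, mul_inv_cancel_right]
  rwa [h2, en_add] at h1

theorem a_odd (h : GRel e s b) (k : ℤ) :
    SemiconjBy (s * b * s⁻¹) (en e s (2 * k + 1)) (en e s (2 * k + 1) * en e s (2 * k + 2)) := by
  have h1 := (SemiconjBy.conj_iff (b := s)).2 (h.b_even k)
  have h2 : s * en e s (2 * k) * s⁻¹ = en e s (2 * k + 1) := by
    have := en_add (e := e) (s := s) 1 (2 * k)
    rwa [zpow_one, add_comm] at this
  have h3 : s * en e s (2 * k + 1) * s⁻¹ = en e s (2 * k + 2) := by
    have := en_add (e := e) (s := s) 1 (2 * k + 1)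
    rwa [zpow_one, show 1 + (2 * k + 1) = 2 * k + 2 by ring] at this
  have h4 : s * (en e s (2 * k) * en e s (2 * k + 1)) * s⁻¹ =
      en e s (2 * k + 1) * en e s (2 * k + 2) := by
    rw [← h2, ← h3, ← h2]
    group
  rwa [h2, h4] at h1

theorem a_even (h : GRel e s b) (k : ℤ) : Commute (s * b * s⁻¹) (en e s (2 * k)) := by
  have h1 := (h.b_odd (k - 1)).conj s
  have h3 : s * en e s (2 * (k - 1) + 1) * s⁻¹ = en e s (2 * k) := by
    have := en_add (e := e) (s := s) 1 (2 * (k - 1) + 1)
    rwa [zpow_one, show 1 + (2 * (k - 1) + 1) = 2 * k by ring] at this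
  rwa [h3] at h1

theorem comm_dist (h : GRel e s b) (d : ℕ) : ∀ i : ℤ, Commute (en e s i) (en e s (i + d)) := by
  induction d using Nat.strong_induction_on with
  | _ d ih =>
    intro i
    match d, ih with
    | 0, _ => simp
    | 1, _ =>
      refine comm_move (i := 0) (j := 1) ?_ (by push_cast; ring)
      rw [en_zero, en_one]
      exact h.c1
    | 2, _ =>
      refine comm_move (i := 0) (j := 2) ?_ (by push_cast; ring)
      rw [en_zero, en_two]
      exact h.c2
    | d + 3, ih =>
      rcases Nat.even_or_odd d with ⟨m, hm⟩ | ⟨m, hm⟩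
      · -- distance d + 2 = 2 (m + 1) even; start at 0
        have e1 : Commute (en e s 0) (en e s (2 * (m + 1))) :=
          comm_move (ih (d + 2) (by omega) 0) (by push_cast; omega)
        have e2 : Commute (en e s 1) (en e s (2 * (m + 1))) :=
          comm_move (ih (d + 1) (by omega) 1) (by push_cast; omega)
        have e3 : Commute (en e s 1) (en e s (2 * (m + 1) + 1)) :=
          comm_move (ih (d + 2) (by omega) 1) (by push_cast; omega)
        have s1 := h.b_even 0
        rw [mul_zero, zero_add] at s1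
        have s2 := h.b_even ((m : ℤ) + 1)
        -- conjugate e1 by b
        have c1 := e1.conj b
        have t1 : b * en e s 0 * b⁻¹ = en e s 0 * en e s 1 := by
          rw [s1.eq, mul_inv_cancel_right]
        have t2 : b * en e s (2 * (m + 1)) * b⁻¹ =
            en e s (2 * (m + 1)) * en e s (2 * (m + 1) + 1) := by
          rw [s2.eq, mul_inv_cancel_right]
        rw [t1, t2] at c1
        have c2 : Commute (en e s 1) (en e s (2 * (m + 1)) * en e s (2 * (m + 1) + 1)) :=
          e2.mul_right e3
        have c3 : Commute (en e s 0) (en e s (2 * (m + 1)) * en e s (2 * (m + 1) + 1)) := by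
          have := c1.mul_left c2.inv_left
          rwa [mul_inv_cancel_right] at this
        have c4 : Commute (en e s 0) (en e s (2 * (m + 1) + 1)) := by
          have := e1.inv_right.mul_right c3
          rwa [inv_mul_cancel_left] at this
        exact comm_move c4 (by push_cast; omega)
      · -- distance d + 2 = 2 m + 3 odd; start at 1
        have e1 : Commute (en e s (2 * 0 + 1)) (en e s (2 * (m + 2))) :=
          comm_move (ih (d + 2) (by omega) 1) (by push_cast; omega)
        have s1 := h.b_odd 0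
        have s2 := h.b_even ((m : ℤ) + 2)
        have c1 := e1.conj b
        have t1 : b * en e s (2 * 0 + 1) * b⁻¹ = en e s (2 * 0 + 1) := by
          rw [s1.eq, mul_inv_cancel_right]
        have t2 : b * en e s (2 * (m + 2)) * b⁻¹ =
            en e s (2 * (m + 2)) * en e s (2 * (m + 2) + 1) := by
          rw [s2.eq, mul_inv_cancel_right]
        rw [t1, t2] at c1
        have c4 : Commute (en e s (2 * 0 + 1)) (en e s (2 * (m + 2) + 1)) := by
          have := e1.inv_right.mul_right c1
          rwa [inv_mul_cancel_left] at this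
        exact comm_move c4 (by push_cast; omega)

theorem comm_all (h : GRel e s b) (i j : ℤ) : Commute (en e s i) (en e s j) := by
  rcases le_total i j with hij | hij
  · obtain ⟨d, rfl⟩ := Int.le.dest hij
    exact h.comm_dist d i
  · obtain ⟨d, rfl⟩ := Int.le.dest hij
    exact (h.comm_dist d j).symm

/-- b^k e b^-k = e (s e s⁻¹)^k. -/
theorem b_zpow (h : GRel e s b) (k : ℤ) : b ^ k * e * (b ^ k)⁻¹ = e * en e s 1 ^ k := by
  have hb1 : Commute b (en e s 1) := by
    rw [en_one]
    exact h.b1
  have hbe : b * e * b⁻¹ = e * en e s 1 := by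
    rw [en_one, h.be, mul_inv_cancel_right]
  have key : ∀ k : ℤ, b * (e * en e s 1 ^ k) * b⁻¹ = e * en e s 1 ^ (k + 1) := by
    intro k
    calc b * (e * en e s 1 ^ k) * b⁻¹ = (b * e * b⁻¹) * (b * en e s 1 ^ k * b⁻¹) := by group
      _ = (e * en e s 1) * en e s 1 ^ k := by
        rw [hbe, (hb1.zpow_right k).eq, mul_inv_cancel_right]
      _ = e * en e s 1 ^ (k + 1) := by rw [mul_assoc, ← zpow_one_add, add_comm]
  induction k using Int.induction_on with
  | zero => simp
  | succ k ih =>
    have h1 : b ^ ((k : ℤ) + 1) * e * (b ^ ((k : ℤ) + 1))⁻¹ =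
        b * (b ^ (k : ℤ) * e * (b ^ (k : ℤ))⁻¹) * b⁻¹ := by
      rw [add_comm, zpow_one_add]
      group
    rw [h1, ih, key]
  | pred k ih =>
    have h1 : b * (b ^ (-(k : ℤ) - 1) * e * (b ^ (-(k : ℤ) - 1))⁻¹) * b⁻¹ =
        b ^ (-(k : ℤ)) * e * (b ^ (-(k : ℤ)))⁻¹ := by
      have : b ^ (-(k : ℤ)) = b * b ^ (-(k : ℤ) - 1) := by
        rw [← zpow_one_add]
        congr 1
        ring
      rw [this]
      group
    have h2 : b * (e * en e s 1 ^ (-(k : ℤ) - 1)) * b⁻¹ = e * en e s 1 ^ (-(k : ℤ)) := by
      rw [key, sub_add_cancel]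
    rw [ih, ← h2] at h1
    exact mul_left_cancel (mul_right_cancel h1)

end GRel

end Pool.Agent.Helper17.BHC
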