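import Pool.Agent.Helper17.BHC.Tow
import Pool.Agent.Helper17.BHC.Grp

/-! The equivariant injection of the pairs of sequences into the real line. -/

set_option autoImplicit false

namespace Pool.Agent.Helper17.BHC

open Filter Topology

namespace RCfg

variable {e s b : ℝ ≃o ℝ} {p : ℝ}

theorem grel (h : RCfg e s b p) : GRel e s b := ⟨h.c1, h.c2, h.be, h.b1, h.sb⟩

theorem dom_zero (h : RCfg e s b p) (k : ℤ) (y : ℝ) : (en e s 1 ^ k) y ≤ e y := by
  have h1 := h.grel.b_zpow (-k)
  have h2 : ∀ z, z ≤ (b ^ (-k) * e * (b ^ (-k))⁻¹) z := by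
    intro z
    rw [RelIso.mul_apply, RelIso.mul_apply]
    have := (b ^ (-k)).monotone (h.le ((b ^ (-k))⁻¹ z))
    rwa [RelIso.apply_inv_self] at this
  rw [h1] at h2
  have h3 := h2 ((en e s 1 ^ k) y)
  rwa [RelIso.mul_apply, ← RelIso.mul_apply (en e s 1 ^ (-k)), ← zpow_add, neg_add_cancel,
    zpow_zero, RelIso.one_apply] at h3

theorem tow (h : RCfg e s b p) : Tow (en e s) p where
  comm := h.grel.comm_all
  dom n k y := by
    have h1 : en e s (n + 1) ^ k = s ^ n * en e s 1 ^ k * (s ^ n)⁻¹ := by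
      rw [← en_add n 1, conj_zpow]
    rw [h1, RelIso.mul_apply, RelIso.mul_apply]
    have h2 := (s ^ n).monotone (h.dom_zero k ((s ^ n)⁻¹ y))
    exact h2
  lt := h.lt

end RCfg

/-- Interleaving. -/
def il (x : W) : ℕ → ℤ := fun n => if n % 2 = 0 then x.1 (n / 2) else x.2 (n / 2)

theorem il_even (x : W) (k : ℕ) : il x (2 * k) = x.1 k := by
  unfold il
  rw [if_pos (by omega), show 2 * k / 2 = k by omega]

theorem il_odd (x : W) (k : ℕ) : il x (2 * k + 1) = x.2 k := by
  unfold il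
  rw [if_neg (by omega), show (2 * k + 1) / 2 = k by omega]

theorem il_injective : Function.Injective il := by
  intro x y h
  apply Prod.ext
  · funext k
    rw [← il_even, ← il_even, h]
  · funext k
    rw [← il_odd, ← il_odd, h]

theorem measurable_il : Measurable il := by
  refine measurable_pi_lambda _ fun n => ?_
  unfold il
  by_cases hn : n % 2 = 0
  · simp only [hn, if_true]
    exact (measurable_pi_apply _).comp measurable_fst
  · simp only [hn, if_false]
    exact (measurable_pi_apply _).comp measurable_snd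

namespace RCfg

variable {e s b : ℝ ≃o ℝ} {p : ℝ}

open Tow

theorem pr_b (h : RCfg e s b p) (x : W) (m : ℕ) :
    b * pr (en e s) (il x) (2 * m) = pr (en e s) (il (mB x)) (2 * m) * b := by
  induction m with
  | zero => simp [pr]
  | succ m ih =>
    have e1 : pr (en e s) (il x) (2 * (m + 1)) =
        pr (en e s) (il x) (2 * m) * en e s (2 * m) ^ x.1 m * en e s (2 * m + 1) ^ x.2 m := by
      rw [show 2 * (m + 1) = 2 * m + 1 + 1 by ring, pr, pr, il_even, il_odd]
      push_cast
      rfl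
    have e2 : pr (en e s) (il (mB x)) (2 * (m + 1)) =
        pr (en e s) (il (mB x)) (2 * m) * en e s (2 * m) ^ x.1 m *
          en e s (2 * m + 1) ^ (x.2 m + x.1 m) := by
      rw [show 2 * (m + 1) = 2 * m + 1 + 1 by ring, pr, pr, il_even, il_odd]
      push_cast
      rfl
    rw [e1, e2, ← mul_assoc, ← mul_assoc, ih]
    have s1 : SemiconjBy b (en e s (2 * m) ^ x.1 m)
        ((en e s (2 * m) * en e s (2 * m + 1)) ^ x.1 m) := (h.grel.b_even m).zpow_right _
    have s2 : Commute b (en e s (2 * m + 1) ^ x.2 m) := (h.grel.b_odd m).zpow_right _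
    have c : Commute (en e s (2 * (m : ℤ))) (en e s (2 * m + 1)) := h.grel.comm_all _ _
    calc pr (en e s) (il (mB x)) (2 * m) * b * en e s (2 * ↑m) ^ x.1 m *
          en e s (2 * ↑m + 1) ^ x.2 m
        = pr (en e s) (il (mB x)) (2 * m) * (b * en e s (2 * ↑m) ^ x.1 m) *
          en e s (2 * ↑m + 1) ^ x.2 m := by group
      _ = pr (en e s) (il (mB x)) (2 * m) *
          ((en e s (2 * ↑m) * en e s (2 * ↑m + 1)) ^ x.1 m * b) *
          en e s (2 * ↑m + 1) ^ x.2 m := by rw [s1.eq]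
      _ = pr (en e s) (il (mB x)) (2 * m) *
          (en e s (2 * ↑m) * en e s (2 * ↑m + 1)) ^ x.1 m * (b *
          en e s (2 * ↑m + 1) ^ x.2 m) := by group
      _ = pr (en e s) (il (mB x)) (2 * m) *
          (en e s (2 * ↑m) * en e s (2 * ↑m + 1)) ^ x.1 m *
          (en e s (2 * ↑m + 1) ^ x.2 m * b) := by rw [s2.eq]
      _ = pr (en e s) (il (mB x)) (2 * m) * en e s (2 * ↑m) ^ x.1 m *
          en e s (2 * ↑m + 1) ^ (x.2 m + x.1 m) * b := by
        rw [c.mul_zpow, add_comm (x.2 m), zpow_add]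
        simp only [mul_assoc]

theorem pr_a (h : RCfg e s b p) (x : W) (m : ℕ) :
    (s * b * s⁻¹) * pr (en e s) (il x) (2 * m) =
      pr (en e s) (il (mA x)) (2 * m) * en e s (2 * m) ^ sh x.2 m * (s * b * s⁻¹) := by
  set a := s * b * s⁻¹ with ha
  induction m with
  | zero => simp [pr, sh]
  | succ m ih =>
    have e1 : pr (en e s) (il x) (2 * (m + 1)) =
        pr (en e s) (il x) (2 * m) * en e s (2 * m) ^ x.1 m * en e s (2 * m + 1) ^ x.2 m := by
      rw [show 2 * (m + 1) = 2 * m + 1 + 1 by ring, pr, pr, il_even, il_odd]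
      push_cast
      rfl
    have e2 : pr (en e s) (il (mA x)) (2 * (m + 1)) =
        pr (en e s) (il (mA x)) (2 * m) * en e s (2 * m) ^ (x.1 m + sh x.2 m) *
          en e s (2 * m + 1) ^ x.2 m := by
      rw [show 2 * (m + 1) = 2 * m + 1 + 1 by ring, pr, pr, il_even, il_odd]
      push_cast
      rfl
    have hs : sh x.2 (m + 1) = x.2 m := rfl
    have s1 : SemiconjBy a (en e s (2 * m + 1) ^ x.2 m)
        ((en e s (2 * m + 1) * en e s (2 * m + 2)) ^ x.2 m) := (h.grel.a_odd m).zpow_right _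
    have s2 : Commute a (en e s (2 * m) ^ x.1 m) := (h.grel.a_even m).zpow_right _
    have c : Commute (en e s (2 * (m : ℤ) + 1)) (en e s (2 * m + 2)) := h.grel.comm_all _ _
    have hcast : (2 * ((m + 1 : ℕ) : ℤ)) = 2 * m + 2 := by push_cast; ring
    rw [e1, e2, hs, hcast, ← mul_assoc, ← mul_assoc, ih]
    calc pr (en e s) (il (mA x)) (2 * m) * en e s (2 * ↑m) ^ sh x.2 m * a *
          en e s (2 * ↑m) ^ x.1 m * en e s (2 * ↑m + 1) ^ x.2 m
        = pr (en e s) (il (mA x)) (2 * m) * en e s (2 * ↑m) ^ sh x.2 m * (a *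
          en e s (2 * ↑m) ^ x.1 m) * en e s (2 * ↑m + 1) ^ x.2 m := by group
      _ = pr (en e s) (il (mA x)) (2 * m) * en e s (2 * ↑m) ^ sh x.2 m *
          (en e s (2 * ↑m) ^ x.1 m * a) * en e s (2 * ↑m + 1) ^ x.2 m := by rw [s2.eq]
      _ = pr (en e s) (il (mA x)) (2 * m) * (en e s (2 * ↑m) ^ sh x.2 m *
          en e s (2 * ↑m) ^ x.1 m) * (a * en e s (2 * ↑m + 1) ^ x.2 m) := by group
      _ = pr (en e s) (il (mA x)) (2 * m) * (en e s (2 * ↑m) ^ (x.1 m + sh x.2 m)) *
          ((en e s (2 * ↑m + 1) * en e s (2 * ↑m + 2)) ^ x.2 m * a) := by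
        rw [s1.eq, ← zpow_add, add_comm (x.1 m)]
      _ = _ := by
        rw [c.mul_zpow]
        simp only [mul_assoc]

theorem lt'_b (h : RCfg e s b p) (x : W) (m : ℕ) :
    b (lt' (en e s) p (il x) (2 * m + 1)) = lt' (en e s) p (il (mB x)) (2 * m + 1) := by
  unfold lt'
  have e1 : pr (en e s) (il x) (2 * m + 1) =
      pr (en e s) (il x) (2 * m) * en e s (2 * m) ^ x.1 m := by
    rw [pr, il_even]
    push_cast
    rfl
  have e2 : pr (en e s) (il (mB x)) (2 * m + 1) =
      pr (en e s) (il (mB x)) (2 * m) * en e s (2 * m) ^ x.1 m := by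
    rw [pr, il_even]
    push_cast
    rfl
  have s1 : SemiconjBy b (en e s (2 * m) ^ x.1 m)
      ((en e s (2 * m) * en e s (2 * m + 1)) ^ x.1 m) := (h.grel.b_even m).zpow_right _
  have c : Commute (en e s (2 * (m : ℤ))) (en e s (2 * m + 1)) := h.grel.comm_all _ _
  have key : b * pr (en e s) (il x) (2 * m + 1) =
      pr (en e s) (il (mB x)) (2 * m + 1) * en e s (2 * m + 1) ^ x.1 m * b := by
    rw [e1, e2, ← mul_assoc, h.pr_b, mul_assoc _ b, s1.eq, c.mul_zpow]
    simp only [mul_assoc]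
  have hcast : ((2 * m + 1 : ℕ) : ℤ) = 2 * m + 1 := by push_cast; ring
  rw [← RelIso.mul_apply, key, RelIso.mul_apply, RelIso.mul_apply, hcast,
    h.tow.map_lam_of _ b (h.grel.b_odd m) h.bp, h.tow.map_lam_zpow]

theorem lt'_a (h : RCfg e s b p) (x : W) (m : ℕ) :
    (s * b * s⁻¹) (lt' (en e s) p (il x) (2 * m)) = lt' (en e s) p (il (mA x)) (2 * m) := by
  unfold lt'
  have hcast : ((2 * m : ℕ) : ℤ) = 2 * m := by push_cast; ring
  rw [← RelIso.mul_apply, h.pr_a, RelIso.mul_apply, RelIso.mul_apply, hcast,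
    h.tow.map_lam_of _ _ (h.grel.a_even m) h.ap, h.tow.map_lam_zpow]

end RCfg

theorem exists_tree {e s b : ℝ ≃o ℝ} {p : ℝ} (h : RCfg e s b p) :
    ∃ P : W → ℝ, Function.Injective P ∧ Measurable P ∧
      (∀ x, P (mA x) = (s * b * s⁻¹) (P x)) ∧ (∀ x, P (mB x) = b (P x)) := by
  refine ⟨fun x => Tow.pt (en e s) p (il x), h.tow.pt_injective.comp il_injective,
    h.tow.measurable_pt.comp measurable_il, fun x => ?_, fun x => ?_⟩
  · have hs : Tendsto (fun m : ℕ => 2 * m) atTop atTop :=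
      tendsto_atTop_mono (fun m => (by omega : m ≤ 2 * m)) tendsto_id
    have t1 := (h.tow.tendsto_pt (il (mA x))).comp hs
    have t2 := (h.tow.tendsto_pt (il x)).comp hs
    have t3 := ((s * b * s⁻¹).continuous.tendsto _).comp t2
    refine tendsto_nhds_unique t1 (t3.congr fun m => ?_)
    exact h.lt'_a x m
  · have hs : Tendsto (fun m : ℕ => 2 * m + 1) atTop atTop :=
      tendsto_atTop_mono (fun m => (by omega : m ≤ 2 * m + 1)) tendsto_id
    have t1 := (h.tow.tendsto_pt (il (mB x))).comp hs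
    have t2 := (h.tow.tendsto_pt (il x)).comp hs
    have t3 := (b.continuous.tendsto _).comp t2
    refine tendsto_nhds_unique t1 (t3.congr fun m => ?_)
    exact h.lt'_b x m

end Pool.Agent.Helper17.BHC
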