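import Pool.Agent.Helper17.BHC.Defs
import Pool.Agent.Helper56.QV.Holland2

/-!
BHC Var: the automorphism group of a doubly homogeneous dense set of real numbers generates the
variety of all lattice-ordered groups (Holland's theorem).
-/

set_option autoImplicit false

namespace Pool.Agent.Helper17.BHC

open Pool.Agent.Helper56.QV

universe u v

namespace VarAux

variable {Y : Type u} [LinearOrder Y]

/-- Gluing of two automorphisms which agree at a point. -/
theorem glue (g h : Y ≃o Y) (m : Y) (hm : g m = h m) :
    ∃ k : Y ≃o Y, ∀ z, k z = if z < m then g z else h z := by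
  refine ⟨{ toFun := fun z => if z < m then g z else h z
            invFun := fun w => if w < g m then g.symm w else h.symm w
            left_inv := ?_
            right_inv := ?_
            map_rel_iff' := ?_ }, fun z => rfl⟩
  · intro z
    by_cases hz : z < m
    · have h1 : g z < g m := g.lt_iff_lt.2 hz
      simp only [hz, if_true, h1, OrderIso.symm_apply_apply]
    · have h1 : ¬ h z < g m := by
        rw [hm, h.lt_iff_lt]
        exact hz
      simp only [hz, if_false, h1, OrderIso.symm_apply_apply]
  · intro w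
    by_cases hw : w < g m
    · have h1 : g.symm w < m := by
        rw [← g.lt_iff_lt, g.apply_symm_apply]
        exact hw
      simp only [hw, if_true, h1, OrderIso.apply_symm_apply]
    · have h1 : ¬ h.symm w < m := by
        rw [← h.lt_iff_lt, h.apply_symm_apply, ← hm]
        exact hw
      simp only [hw, if_false, h1, OrderIso.apply_symm_apply]
  · have key : StrictMono (fun z => if z < m then g z else h z) := by
      intro a b hab
      by_cases hb : b < m
      · have ha : a < m := hab.trans hb
        simp only [ha, hb, if_true]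
        exact g.lt_iff_lt.2 hab
      · by_cases ha : a < m
        · simp only [ha, hb, if_true, if_false]
          calc g a < g m := g.lt_iff_lt.2 ha
            _ = h m := hm
            _ ≤ h b := h.le_iff_le.2 (not_lt.1 hb)
        · simp only [ha, hb, if_false]
          exact h.lt_iff_lt.2 hab
    intro a b
    exact key.le_iff_le

theorem finite_ext (hY : DoublyHom Y) (hmax : ∀ a : Y, ∃ b, a < b) (S : Finset Y) :
    ∀ j : Y → Y, StrictMonoOn j (S : Set Y) → ∃ g : Y ≃o Y, ∀ a ∈ S, g a = j a := by
  classical
  induction S using Finset.induction_on_max with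
  | empty => exact fun j _ => ⟨1, fun a ha => absurd ha (Finset.notMem_empty _)⟩
  | insert a S ha ih =>
    intro j hj
    rcases S.eq_empty_or_nonempty with rfl | hne
    · obtain ⟨a', ha'⟩ := hmax a
      obtain ⟨c', hc'⟩ := hmax (j a)
      obtain ⟨g, hg, -⟩ := hY a a' (j a) c' ha' hc'
      refine ⟨g, fun b hb => ?_⟩
      have : b = a := by simpa using hb
      rw [this, hg]
    · obtain ⟨g, hg⟩ := ih j (hj.mono (by simp))
      set m := S.max' hne with hm
      have hmS : m ∈ S := S.max'_mem hne
      have hma : m < a := ha m hmS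
      have hj1 : j m < j a := hj (by simp [hmS]) (by simp) hma
      obtain ⟨h, h1, h2⟩ := hY m a (j m) (j a) hma hj1
      obtain ⟨k, hk⟩ := glue g h m (by rw [hg m hmS, h1])
      refine ⟨k, fun b hb => ?_⟩
      rw [hk]
      rcases Finset.mem_insert.1 hb with rfl | hbS
      · rw [if_neg (not_lt.2 hma.le), h2]
      · by_cases hbm : b < m
        · rw [if_pos hbm, hg b hbS]
        · have : b = m := le_antisymm (S.le_max' b hbS) (not_lt.1 hbm)
          rw [if_neg hbm, this, h1]

/-- The points needed to evaluate a term at a point. -/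
def pts {C : Type u} [LinearOrder C] (x : ℕ → (C ≃o C)) : Tm → C → Set C
  | .var n, a => {a, x n a}
  | .one, a => {a}
  | .mul s t, a => pts x t a ∪ pts x s ((t.eval x) a)
  | .inv t, a => pts x t ((t.eval x)⁻¹ a)
  | .inf s t, a => pts x s a ∪ pts x t a
  | .sup s t, a => pts x s a ∪ pts x t a

variable {C : Type u} [LinearOrder C] (x : ℕ → (C ≃o C))

theorem pts_finite (t : Tm) : ∀ a, (pts x t a).Finite := by
  induction t with
  | var n => intro a; exact Set.toFinite ({a, x n a} : Set C)
  | one => intro a; exact Set.finite_singleton _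
  | mul s t hs ht => intro a; exact (ht a).union (hs _)
  | inv t ht => intro a; exact ht _
  | inf s t hs ht => intro a; exact (hs a).union (ht a)
  | sup s t hs ht => intro a; exact (hs a).union (ht a)

theorem mem_pts (t : Tm) : ∀ a, a ∈ pts x t a ∧ (t.eval x) a ∈ pts x t a := by
  induction t with
  | var n => intro a; exact ⟨Or.inl rfl, Or.inr rfl⟩
  | one => intro a; exact ⟨rfl, rfl⟩
  | mul s t hs ht => intro a; exact ⟨Or.inl (ht a).1, Or.inr (hs _).2⟩
  | inv t ht =>
    intro a
    have h1 := ht ((t.eval x)⁻¹ a)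
    have h2 : (t.eval x) ((t.eval x)⁻¹ a) = a := (t.eval x).apply_symm_apply a
    rw [h2] at h1
    exact ⟨h1.2, h1.1⟩
  | inf s t hs ht =>
    intro a
    refine ⟨Or.inl (hs a).1, ?_⟩
    change min ((s.eval x) a) ((t.eval x) a) ∈ _
    rcases min_choice ((s.eval x) a) ((t.eval x) a) with h | h
    · rw [h]; exact Or.inl (hs a).2
    · rw [h]; exact Or.inr (ht a).2
  | sup s t hs ht =>
    intro a
    refine ⟨Or.inl (hs a).1, ?_⟩
    change max ((s.eval x) a) ((t.eval x) a) ∈ _
    rcases max_choice ((s.eval x) a) ((t.eval x) a) with h | h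
    · rw [h]; exact Or.inl (hs a).2
    · rw [h]; exact Or.inr (ht a).2

theorem transfer {Z : Type v} [LinearOrder Z] (y : ℕ → (Z ≃o Z)) (S : Set C) (j : C → Z)
    (hj : StrictMonoOn j S) (hy : ∀ n, ∀ a ∈ S, x n a ∈ S → y n (j a) = j (x n a)) (t : Tm) :
    ∀ a, pts x t a ⊆ S → (t.eval y) (j a) = j ((t.eval x) a) := by
  induction t with
  | var n =>
    intro a ha
    exact hy n a (ha (Or.inl rfl)) (ha (Or.inr rfl))
  | one => intro a _; rfl
  | mul s t hs ht =>
    intro a ha
    change (s.eval y) ((t.eval y) (j a)) = _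
    rw [ht a fun z hz => ha (Or.inl hz), hs _ fun z hz => ha (Or.inr hz)]
    rfl
  | inv t ht =>
    intro a ha
    have h1 := ht ((t.eval x)⁻¹ a) ha
    have h2 : (t.eval x) ((t.eval x)⁻¹ a) = a := (t.eval x).apply_symm_apply a
    rw [h2] at h1
    change (t.eval y)⁻¹ (j a) = j ((t.eval x)⁻¹ a)
    rw [← h1]
    exact (t.eval y).symm_apply_apply _
  | inf s t hs ht =>
    intro a ha
    change min ((s.eval y) (j a)) ((t.eval y) (j a)) = j (min ((s.eval x) a) ((t.eval x) a))
    have hs' : pts x s a ⊆ S := fun z hz => ha (Or.inl hz)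
    have ht' : pts x t a ⊆ S := fun z hz => ha (Or.inr hz)
    rw [hs a hs', ht a ht']
    have m1 := hs' (mem_pts x s a).2
    have m2 := ht' (mem_pts x t a).2
    rcases le_total ((s.eval x) a) ((t.eval x) a) with h | h
    · rw [min_eq_left h, min_eq_left ((hj.le_iff_le m1 m2).2 h)]
    · rw [min_eq_right h, min_eq_right ((hj.le_iff_le m2 m1).2 h)]
  | sup s t hs ht =>
    intro a ha
    change max ((s.eval y) (j a)) ((t.eval y) (j a)) = j (max ((s.eval x) a) ((t.eval x) a))
    have hs' : pts x s a ⊆ S := fun z hz => ha (Or.inl hz)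
    have ht' : pts x t a ⊆ S := fun z hz => ha (Or.inr hz)
    rw [hs a hs', ht a ht']
    have m1 := hs' (mem_pts x s a).2
    have m2 := ht' (mem_pts x t a).2
    rcases le_total ((s.eval x) a) ((t.eval x) a) with h | h
    · rw [max_eq_right h, max_eq_right ((hj.le_iff_le m1 m2).2 h)]
    · rw [max_eq_left h, max_eq_left ((hj.le_iff_le m2 m1).2 h)]

end VarAux

open VarAux

theorem exists_aut_of_finite (X : Set ℝ) (hd : Dense X) (hX : DoublyHom X) (S : Finset X)
    (j : X → X) (hj : StrictMonoOn j (S : Set X)) : ∃ g : X ≃o X, ∀ a ∈ S, g a = j a := by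
  refine finite_ext hX (fun a => ?_) S j hj
  obtain ⟨b, hb, hb1, -⟩ := hd.exists_between (show (a : ℝ) < a + 1 by linarith)
  exact ⟨⟨b, hb⟩, hb1⟩

theorem idHolds_of_doublyHom (X : Set ℝ) (hd : Dense X) (hX : DoublyHom X) (e : Tm × Tm)
    (h : IdHolds e (X ≃o X)) (G : Type v) [LGroup G] : IdHolds e G := by
  have hden : DenselyOrdered X := ⟨fun a b hab => by
    obtain ⟨c, hc, h1, h2⟩ := hd.exists_between (show (a : ℝ) < b from hab)
    exact ⟨⟨c, hc⟩, h1, h2⟩⟩
  obtain ⟨c₀, hc₀, -, -⟩ := hd.exists_between (show (0 : ℝ) < 1 by norm_num)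
  obtain ⟨c₁, hc₁, h3, -⟩ := hd.exists_between (show c₀ < c₀ + 1 by linarith)
  have hnt : Nontrivial X := ⟨⟨c₀, hc₀⟩, ⟨c₁, hc₁⟩, fun hE => h3.ne (congrArg Subtype.val hE)⟩
  have key : ∀ (C : Type) [LinearOrder C] [Countable C] [Nonempty C],
      (⟨[], e⟩ : QId).Holds (C ≃o C) := by
    intro C _ _ _ x _
    apply OrderIso.ext
    funext q
    set S : Set C := pts x e.1 q ∪ pts x e.2 q with hS
    have hfin : S.Finite := (pts_finite x e.1 q).union (pts_finite x e.2 q)
    obtain ⟨j⟩ := Order.embedding_from_countable_to_dense C X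
    have hex : ∀ n, ∃ g : X ≃o X, ∀ a ∈ S, x n a ∈ S → g (j a) = j (x n a) := by
      intro n
      classical
      obtain ⟨g, hg⟩ := exists_aut_of_finite X hd hX (hfin.toFinset.image j)
        (fun z => j (x n (Function.invFun j z))) (by
          intro z hz w hw hzw
          simp only [Finset.coe_image, Set.Finite.coe_toFinset, Set.mem_image] at hz hw
          obtain ⟨a, -, rfl⟩ := hz
          obtain ⟨b, -, rfl⟩ := hw
          have hab : a < b := j.lt_iff_lt.1 hzw
          change j (x n (Function.invFun j (j a))) < j (x n (Function.invFun j (j b)))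
          rw [Function.leftInverse_invFun j.injective a,
            Function.leftInverse_invFun j.injective b]
          exact j.lt_iff_lt.2 ((x n).lt_iff_lt.2 hab))
      refine ⟨g, fun a ha _ => ?_⟩
      have := hg (j a) (Finset.mem_image_of_mem _ (hfin.mem_toFinset.2 ha))
      rwa [Function.leftInverse_invFun j.injective a] at this
    choose y hy using hex
    have h1 := congrArg (fun g : X ≃o X => g (j q)) (h y)
    have hj : StrictMonoOn j S := fun a _ b _ hab => j.lt_iff_lt.2 hab
    have t1 := transfer x y S j hj hy e.1 q Set.subset_union_left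
    have t2 := transfer x y S j hj hy e.2 q Set.subset_union_right
    have h2 : j ((e.1.eval x) q) = j ((e.2.eval x) q) := by
      rw [← t1, ← t2]
      exact h1
    exact j.injective h2
  intro x
  exact holds_of_countable_chains (φ := ⟨[], e⟩) key G x (by simp)

end Pool.Agent.Helper17.BHC
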