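import Pool.Agent.Helper17.BHC.QI
import Pool.Agent.Helper17.BHC.Model
import Pool.Agent.Helper17.BHC.Ext
import Pool.Agent.Helper17.BHC.Rec
import Pool.Agent.Helper17.BHC.Hom
import Pool.Agent.Helper17.BHC.NotBern
import Pool.Agent.Helper17.BHC.Tree
import Pool.Agent.Helper17.BHC.NoTree
import Pool.Agent.Helper17.BHC.Big
import Pool.Agent.Helper17.BHC.Borel
import Pool.Agent.Helper17.BHC.Fibre
import Pool.Agent.Helper17.BHC.Var

/-! Doubly homogeneous chains in the real line: the main statements. -/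

set_option autoImplicit false

namespace Pool.Agent.Helper17.BHC

open Pool.Agent.Helper56.QV

universe u v

theorem Bernstein.dense {X : Set ℝ} (h : Bernstein X) : Dense X := by
  refine dense_iff_inter_open.2 fun U hU hne => ?_
  obtain ⟨x, hx⟩ := hne
  obtain ⟨ε, hε, hb⟩ := Metric.isOpen_iff.1 hU x hx
  have h1 : x - ε / 2 < x + ε / 2 := by linarith
  have h2 : ¬ (Set.Icc (x - ε / 2) (x + ε / 2)).Countable := by
    intro hc
    have := Cardinal.mk_Icc_real h1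
    have h3 := Cardinal.mk_le_aleph0_iff.2 hc.to_subtype
    rw [this] at h3
    exact absurd h3 (not_le.2 Cardinal.aleph0_lt_continuum)
  obtain ⟨y, hy, hyX⟩ := (h _ isClosed_Icc h2).1
  refine ⟨y, hb ?_, hyX⟩
  rw [Metric.mem_ball, Real.dist_eq, abs_lt]
  constructor <;> linarith [hy.1, hy.2]

theorem not_bernstein {X : Set ℝ} (h : ¬ Bernstein X) :
    ∃ K : Set ℝ, IsClosed K ∧ ¬ K.Countable ∧ (K ⊆ X ∨ K ∩ X = ∅) := by
  unfold Bernstein at h
  push Not at h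
  obtain ⟨K, hK, hKu, h1⟩ := h
  refine ⟨K, hK, hKu, ?_⟩
  by_cases h2 : (K ∩ X).Nonempty
  · left
    exact Set.sdiff_eq_empty.1 (h1 h2)
  · right
    exact Set.not_nonempty_iff_eq_empty.1 h2

theorem not_bernstein_of_measurable {X : Set ℝ} (h : MeasurableSet X) : ¬ Bernstein X := by
  intro hB
  obtain ⟨K, hK, hKu, h1 | h1⟩ := exists_closed_of_measurable X h
  · obtain ⟨x, hx1, hx2⟩ := (hB K hK hKu).2
    exact hx2 (h1 hx1)
  · obtain ⟨x, hx⟩ := (hB K hK hKu).1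
    rw [h1] at hx
    exact hx

theorem all_of_not_bernstein (X : Set ℝ) (hd : Dense X) (hX : DoublyHom X) (hB : ¬ Bernstein X)
    (Ω : Type u) [LinearOrder Ω] (J : Set Ω) (hJ : J.OrdConnected) (e : J ≃o X)
    (G : Type v) [LGroup G] : InQV (Ω ≃o Ω) G := by
  obtain ⟨K, hK, hKu, h⟩ := not_bernstein hB
  exact inQV_of_closed X hd hX K hK hKu h Ω J hJ e G

theorem all_of_fibred (X : Set ℝ) (hd : Dense X) (hX : DoublyHom X)
    (hB : MeasurableSet X ∨ ¬ Bernstein X) (Ω : Type u) [LinearOrder Ω] (J : Set Ω)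
    (hJ : J.OrdConnected) (hne : J.Nonempty) (p : Ω → ℝ) (hp : MonotoneOn p J)
    (h1 : ∀ x ∈ X, ∀ y ∈ X, Nonempty ({z // z ∈ J ∧ p z = x} ≃o {z // z ∈ J ∧ p z = y}))
    (h2 : ∀ x ∉ X, ∀ y ∉ X, Nonempty ({z // z ∈ J ∧ p z = x} ≃o {z // z ∈ J ∧ p z = y}))
    (G : Type v) [LGroup G] : InQV (Ω ≃o Ω) G := by
  intro φ hφ
  have hB' : ¬ Bernstein X := hB.elim not_bernstein_of_measurable id
  have h3 : (∃ z ∈ J, p z ∈ X) ∨ Dense Xᶜ := by
    by_cases hu : X = Set.univ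
    · left
      obtain ⟨z, hz⟩ := hne
      exact ⟨z, hz, hu ▸ Set.mem_univ _⟩
    · exact Or.inr (dense_compl X hd hX hu)
  have h4 := holds_of_fibred X hd Ω J hJ hne p hp h1 h2 h3 φ hφ
  exact all_of_not_bernstein X hd hX hB' X Set.univ Set.ordConnected_univ OrderIso.Set.univ G φ h4

/-- The quasi-identity is true for the sets of the recursion. -/
theorem phi_holds (X : Set ℝ) (hd : Dense X)
    (h : ∀ g : ℝ ≃o ℝ, (∀ p, g p ∈ X ↔ p ∈ X) → {p | ¬ ∃ α : Aff, α.toIso p = g p}.Countable) :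
    phi.Holds (X ≃o X) := by
  rw [phi_holds_iff]
  intro e s b f hc
  by_contra hf
  obtain ⟨e', s', b', p, hr, hs, hb⟩ := rcfg_of_cfg X hd e s b f hc hf
  obtain ⟨P, hinj, hmeas, hA, hB⟩ := exists_tree hr
  have hs' : ∀ q, s'⁻¹ q ∈ X ↔ q ∈ X := by
    intro q
    rw [← hs (s'⁻¹ q), RelIso.apply_inv_self]
  refine no_tree P hinj hmeas (s' * b' * s'⁻¹) b' hA hB (h _ fun q => ?_) (h _ hb)
  rw [RelIso.mul_apply, RelIso.mul_apply, hs, hb, hs']

theorem countable_aff_range : (Aff.hom.range : Set (ℝ ≃o ℝ)).Countable :=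
  Set.countable_range _

theorem exists_proper : ∃ X : Set ℝ, Dense X ∧ DoublyHom X ∧
    (∀ e : Tm × Tm, IdHolds e (X ≃o X) → ∀ (G : Type v) [LGroup G], IdHolds e G) ∧
    ∃ (G : Type) (_ : LGroup G), NormalValued G ∧ ¬ InQV (X ≃o X) G := by
  obtain ⟨X, hinv, hB, hg⟩ := exists_inv_set Aff.hom.range countable_aff_range
  have hd := hB.dense
  have hX : ∀ (a : Aff) (p : ℝ), a.toIso p ∈ X ↔ p ∈ X := fun a p => hinv (Aff.hom a) ⟨a, rfl⟩ p
  have hg' : ∀ g : ℝ ≃o ℝ, (∀ p, g p ∈ X ↔ p ∈ X) →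
      {p | ¬ ∃ α : Aff, α.toIso p = g p}.Countable := by
    intro g hgX
    refine (hg g hgX).mono fun p hp => ?_
    rintro ⟨γ, ⟨a, rfl⟩, ha⟩
    exact hp ⟨a, ha⟩
  obtain ⟨G, iG, hN, e, s, b, f, hc, hf⟩ := model
  refine ⟨X, hd, doublyHom_of_aff X hX,
    fun e he G _ => idHolds_of_doublyHom X hd (doublyHom_of_aff X hX) e he G, G, iG, hN,
    fun hq => ?_⟩
  have h1 := hq phi (phi_holds X hd hg')
  rw [phi_holds_iff] at h1
  exact hf (h1 e s b f hc)

theorem exists_all : ∃ X : Set ℝ, Dense X ∧ DoublyHom X ∧ Bernstein X ∧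
    ∀ (G : Type u) [LGroup G], InQV (X ≃o X) G := by
  obtain ⟨Γ, hΓ, hA, hG⟩ := exists_big_group.{u}
  obtain ⟨X, hinv, hB, -⟩ := exists_inv_set Γ hΓ
  refine ⟨X, hB.dense, doublyHom_of_aff X fun a p => hinv _ (hA a) p, hB, fun G _ => ?_⟩
  exact hG X hB.dense hinv G

end Pool.Agent.Helper17.BHC
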