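import Pool.Agent.Helper17.BHC.Defs

/-!
BHC Free: the free group acts freely on pairs of fast growing sequences.

Proof.  Identify W = (ℕ → ℤ)² with pairs (U, V) of power series over ℤ (U = PowerSeries.mk u ...);
mA is (U, V) ↦ (U + t V, V), mB is (U, V) ↦ (U, V + U).
Let M : FreeGroup Bool →* SL₂(ℤ[X]) (or the units of 2×2 matrices, or any convenient form) with
M (of true) = !![1, X; 0, 1], M (of false) = !![1, 0; 1, 1]; then act h (U, V) = M h (U, V)
(FreeGroup induction or uniqueness of the lift).  If act h x = x then (M h - 1)(U, V) = 0.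
(1) Domination: if α U + β V = 0 for α, β ∈ ℤ[X] (acting as power series) then α = β = 0.  Let m be
minimal with (α_m, β_m) ≠ (0, 0), C = Σ_j (|α_j| + |β_j|).  The coefficient of t^(N+m), N large:
β_m v_N + α_m u_N + Σ_{j > m} (α_j u_{N+m-j} + β_j v_{N+m-j}) = 0.  If β_m ≠ 0 then
L (2N+1) ≤ |β_m v_N| ≤ C * 2 * L (2N) (all other terms have index ≤ 2N in L, L is monotone), against
the growth for C' = 2C.  If β_m = 0 then α_m ≠ 0 and L (2N) ≤ |α_m u_N| ≤ C * 2 * L (2N-1), again
a contradiction.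
So M h = 1.
(2) M is injective: evaluate at X = 5, get the matrices a = !![1,5;0,1], b = !![1,0;1,1] over ℤ
acting on nonzero vectors (u, v) (or on z = u / v in ℝ ∪ {∞}): a z = z + 5, b z = z / (z + 1)
(w = 1/z ↦ w + 1).  `FreeGroup.injective_lift_of_ping_pong` with
X_a = {z ≥ 3 or z = ∞}, Y_a = {z < -2}, X_b = {0 ≤ z ≤ 2}, Y_b = {-2 < z < 0}:
a maps the complement of Y_a (z ≥ -2 or ∞) into X_a, a⁻¹ maps the complement of X_a (z < 3) into
Y_a, b maps the complement of Y_b into X_b (w ≥ -1/2 or w = ∞), b⁻¹ maps the complement of X_b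
(w < 1/2) into Y_b (w < -1/2).
-/

set_option autoImplicit false

namespace Pool.Agent.Helper17.BHC

namespace FreeAux

open Polynomial Finset
open scoped Pointwise

/-- nonzero integer vectors -/
abbrev NV : Type := {p : ℤ × ℤ // p ≠ 0}

/-- the matrix with rows `(1, 5)`, `(0, 1)` -/
def tA : Equiv.Perm NV where
  toFun p := ⟨(p.1.1 + 5 * p.1.2, p.1.2), fun h => p.2 (by
    have h1 := congrArg Prod.fst h
    have h2 := congrArg Prod.snd h
    simp only [Prod.fst_zero, Prod.snd_zero] at h1 h2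
    exact Prod.ext (by simp only [Prod.fst_zero]; omega) h2)⟩
  invFun p := ⟨(p.1.1 - 5 * p.1.2, p.1.2), fun h => p.2 (by
    have h1 := congrArg Prod.fst h
    have h2 := congrArg Prod.snd h
    simp only [Prod.fst_zero, Prod.snd_zero] at h1 h2
    exact Prod.ext (by simp only [Prod.fst_zero]; omega) h2)⟩
  left_inv p := by
    apply Subtype.ext
    apply Prod.ext
    · simp
    · rfl
  right_inv p := by
    apply Subtype.ext
    apply Prod.ext
    · simp
    · rfl

/-- the matrix with rows `(1, 0)`, `(1, 1)` -/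
def tB : Equiv.Perm NV where
  toFun p := ⟨(p.1.1, p.1.2 + p.1.1), fun h => p.2 (by
    have h1 := congrArg Prod.fst h
    have h2 := congrArg Prod.snd h
    simp only [Prod.fst_zero, Prod.snd_zero] at h1 h2
    exact Prod.ext h1 (by simp only [Prod.snd_zero]; omega))⟩
  invFun p := ⟨(p.1.1, p.1.2 - p.1.1), fun h => p.2 (by
    have h1 := congrArg Prod.fst h
    have h2 := congrArg Prod.snd h
    simp only [Prod.fst_zero, Prod.snd_zero] at h1 h2
    exact Prod.ext h1 (by simp only [Prod.snd_zero]; omega))⟩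
  left_inv p := by
    apply Subtype.ext
    apply Prod.ext
    · rfl
    · simp
  right_inv p := by
    apply Subtype.ext
    apply Prod.ext
    · rfl
    · simp

/-- the generators -/
def tg : Bool → Equiv.Perm NV
  | true => tA
  | false => tB

/-- the sets `X` -/
def SX : Bool → Set NV
  | true => {p | 0 ≤ (p.1.1 - 3 * p.1.2) * p.1.2}
  | false => {p | 0 ≤ p.1.1 * p.1.2 ∧ (p.1.1 - 2 * p.1.2) * p.1.2 ≤ 0 ∧ p.1.2 ≠ 0}

/-- the sets `Y` -/
def SY : Bool → Set NV
  | true => {p | (p.1.1 + 2 * p.1.2) * p.1.2 < 0}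
  | false => {p | p.1.1 * p.1.2 < 0 ∧ 0 < (p.1.1 + 2 * p.1.2) * p.1.2}

theorem sq_pos' {v : ℤ} (h : v ≠ 0) : 0 < v * v := mul_self_pos.2 h

theorem tg_inj : Function.Injective (FreeGroup.lift tg) := by
  refine FreeGroup.injective_lift_of_ping_pong tg SX SY ?_ ?_ ?_ ?_ ?_ ?_
  · intro i
    cases i
    · exact ⟨⟨(0, 1), by simp⟩, by simp [SX]⟩
    · exact ⟨⟨(1, 0), by simp⟩, by simp [SX]⟩
  · have key : Disjoint (SX true) (SX false) := by
      rw [Set.disjoint_left]
      rintro ⟨⟨u, v⟩, hp⟩ h1 ⟨h2, h3, h4⟩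
      simp only [SX, Set.mem_ofPred_eq] at h1 h2 h3 h4
      have := sq_pos' h4
      nlinarith
    intro i j hij
    cases i <;> cases j
    · exact absurd rfl hij
    · exact key.symm
    · exact key
    · exact absurd rfl hij
  · have key : Disjoint (SY true) (SY false) := by
      rw [Set.disjoint_left]
      rintro ⟨⟨u, v⟩, hp⟩ h1 ⟨h2, h3⟩
      simp only [SY, Set.mem_ofPred_eq] at h1 h2 h3
      linarith
    intro i j hij
    cases i <;> cases j
    · exact absurd rfl hij
    · exact key.symm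
    · exact key
    · exact absurd rfl hij
  · intro i j
    cases i <;> cases j
    · rw [Set.disjoint_left]
      rintro ⟨⟨u, v⟩, hp⟩ ⟨h1, h2, h3⟩ ⟨h4, h5⟩
      simp only at h1 h2 h3 h4 h5
      linarith
    · rw [Set.disjoint_left]
      rintro ⟨⟨u, v⟩, hp⟩ ⟨h1, h2, h3⟩ h4
      simp only [SY, Set.mem_ofPred_eq] at h1 h2 h3 h4
      have := sq_pos' h3
      nlinarith
    · rw [Set.disjoint_left]
      rintro ⟨⟨u, v⟩, hp⟩ h1 ⟨h4, h5⟩
      simp only [SX, Set.mem_ofPred_eq] at h1 h4 h5
      nlinarith [mul_self_nonneg v]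
    · rw [Set.disjoint_left]
      rintro ⟨⟨u, v⟩, hp⟩ h1 h4
      simp only [SX, SY, Set.mem_ofPred_eq] at h1 h4
      nlinarith [mul_self_nonneg v]
  · intro i
    cases i
    · rintro _ ⟨⟨⟨u, v⟩, hp⟩, hy, rfl⟩
      have hy' : ¬ (u * v < 0 ∧ 0 < (u + 2 * v) * v) := hy
      change 0 ≤ u * (v + u) ∧ (u - 2 * (v + u)) * (v + u) ≤ 0 ∧ v + u ≠ 0
      have huv : ¬ (u = 0 ∧ v = 0) := fun h => hp (Prod.ext h.1 h.2)
      rcases lt_trichotomy u 0 with hu | hu | hu
      · rcases lt_or_ge v 0 with hv | hv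
        · exact ⟨by nlinarith, by nlinarith, by omega⟩
        · have h1 : 2 * v ≤ -u := by
            by_contra h2
            push Not at h2
            exact hy' ⟨by nlinarith, by nlinarith⟩
          exact ⟨by nlinarith, by nlinarith, by omega⟩
      · subst hu
        have hv : v ≠ 0 := fun h => huv ⟨rfl, h⟩
        exact ⟨by simp, by nlinarith [mul_self_nonneg v], by omega⟩
      · rcases lt_or_ge v 0 with hv | hv
        · have h1 : -(2 * v) ≤ u := by
            by_contra h2
            push Not at h2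
            exact hy' ⟨by nlinarith, by nlinarith⟩
          exact ⟨by nlinarith, by nlinarith, by omega⟩
        · exact ⟨by nlinarith, by nlinarith, by omega⟩
    · rintro _ ⟨⟨⟨u, v⟩, hp⟩, hy, rfl⟩
      have hy' : ¬ ((u + 2 * v) * v < 0) := hy
      change 0 ≤ (u + 5 * v - 3 * v) * v
      nlinarith
  · intro i
    cases i
    · rintro _ ⟨⟨⟨u, v⟩, hp⟩, hy, rfl⟩
      have hy' : ¬ (0 ≤ u * v ∧ (u - 2 * v) * v ≤ 0 ∧ v ≠ 0) := hy
      change u * (v - u) < 0 ∧ 0 < (u + 2 * (v - u)) * (v - u)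
      have huv : ¬ (u = 0 ∧ v = 0) := fun h => hp (Prod.ext h.1 h.2)
      rcases lt_trichotomy u 0 with hu | hu | hu
      · rcases lt_or_ge v 0 with hv | hv
        · have h1 : u < 2 * v := by
            by_contra h2
            push Not at h2
            exact hy' ⟨by nlinarith, by nlinarith, by omega⟩
          exact ⟨by nlinarith, by nlinarith⟩
        · exact ⟨by nlinarith, by nlinarith⟩
      · subst hu
        have hv : v ≠ 0 := fun h => huv ⟨rfl, h⟩
        exact absurd ⟨by simp, by nlinarith [mul_self_nonneg v], hv⟩ hy'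
      · rcases lt_or_ge 0 v with hv | hv
        · have h1 : 2 * v < u := by
            by_contra h2
            push Not at h2
            exact hy' ⟨by nlinarith, by nlinarith, by omega⟩
          exact ⟨by nlinarith, by nlinarith⟩
        · exact ⟨by nlinarith, by nlinarith⟩
    · rintro _ ⟨⟨⟨u, v⟩, hp⟩, hy, rfl⟩
      have hy' : ¬ (0 ≤ (u - 3 * v) * v) := hy
      change (u - 5 * v + 2 * v) * v < 0
      nlinarith

/-! ### Domination -/

theorem bd (φ : ℤ[X]) : ∃ C : ℤ, 0 ≤ C ∧ ∀ s : Finset ℕ, ∑ k ∈ s, |φ.coeff k| ≤ C := by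
  classical
  refine ⟨∑ k ∈ φ.support, |φ.coeff k|, Finset.sum_nonneg fun _ _ => abs_nonneg _, fun s => ?_⟩
  have h1 : ∑ k ∈ s, |φ.coeff k| = ∑ k ∈ s.filter (· ∈ φ.support), |φ.coeff k| := by
    symm
    apply Finset.sum_filter_of_ne
    intro x _ hx
    rw [Polynomial.mem_support_iff]
    exact fun h => hx (by rw [h, abs_zero])
  rw [h1]
  apply Finset.sum_le_sum_of_subset_of_nonneg
  · intro k hk
    exact (Finset.mem_filter.1 hk).2
  · intro _ _ _
    exact abs_nonneg _

theorem dom (L : ℕ → ℤ) (hL : ∀ i, 0 < L i) (hm : Monotone L)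
    (hgr : ∀ C : ℤ, ∃ i₀, ∀ i, i₀ ≤ i → C * L i < L (i + 1)) (x : W)
    (hx : ∀ k, L (2 * k) ≤ x.1 k ∧ x.1 k < 2 * L (2 * k) ∧
      L (2 * k + 1) ≤ x.2 k ∧ x.2 k < 2 * L (2 * k + 1)) (α β : ℤ[X])
    (h0 : (α : PowerSeries ℤ) * PowerSeries.mk x.1 + (β : PowerSeries ℤ) * PowerSeries.mk x.2 = 0) :
    α = 0 ∧ β = 0 := by
  classical
  by_contra hne
  have hex : ∃ k, α.coeff k ≠ 0 ∨ β.coeff k ≠ 0 := by
    by_contra hcon
    push Not at hcon
    exact hne ⟨Polynomial.ext fun k => by simpa using (hcon k).1,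
      Polynomial.ext fun k => by simpa using (hcon k).2⟩
  obtain ⟨m, hm1, hm2⟩ : ∃ m, (α.coeff m ≠ 0 ∨ β.coeff m ≠ 0) ∧
      ∀ k, k < m → α.coeff k = 0 ∧ β.coeff k = 0 := by
    refine ⟨Nat.find hex, Nat.find_spec hex, fun k hk => ?_⟩
    have := Nat.find_min hex hk
    push Not at this
    exact this
  obtain ⟨C1, hC1, hC1'⟩ := bd α
  obtain ⟨C2, hC2, hC2'⟩ := bd β
  set C := C1 + C2 with hC
  have hu : ∀ k, |x.1 k| ≤ 2 * L (2 * k) := fun k => by
    rw [abs_of_nonneg ((hL _).le.trans (hx k).1)]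
    exact (hx k).2.1.le
  have hv : ∀ k, |x.2 k| ≤ 2 * L (2 * k + 1) := fun k => by
    rw [abs_of_nonneg ((hL _).le.trans (hx k).2.2.1)]
    exact (hx k).2.2.2.le
  have key : ∀ N, 1 ≤ N → |α.coeff m * x.1 N + β.coeff m * x.2 N| ≤ C * (2 * L (2 * N - 1)) := by
    intro N hN
    have h1 := congrArg (PowerSeries.coeff (N + m)) h0
    rw [map_add, PowerSeries.coeff_mul, PowerSeries.coeff_mul, map_zero,
      ← Finset.sum_add_distrib] at h1
    simp only [Polynomial.coeff_coe, PowerSeries.coeff_mk] at h1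
    rw [Finset.Nat.sum_antidiagonal_eq_sum_range_succ
      (fun i j => α.coeff i * x.1 j + β.coeff i * x.2 j)] at h1
    rw [← Finset.add_sum_erase (Finset.range (N + m).succ) _
      (Finset.mem_range.2 (show m < (N + m).succ by omega)), Nat.add_sub_cancel] at h1
    have h2 : α.coeff m * x.1 N + β.coeff m * x.2 N =
        -∑ k ∈ (Finset.range (N + m).succ).erase m,
          (α.coeff k * x.1 (N + m - k) + β.coeff k * x.2 (N + m - k)) := by linarith
    rw [h2, abs_neg]
    calc |∑ k ∈ (Finset.range (N + m).succ).erase m,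
          (α.coeff k * x.1 (N + m - k) + β.coeff k * x.2 (N + m - k))|
        ≤ ∑ k ∈ (Finset.range (N + m).succ).erase m,
          |α.coeff k * x.1 (N + m - k) + β.coeff k * x.2 (N + m - k)| :=
          Finset.abs_sum_le_sum_abs _ _
      _ ≤ ∑ k ∈ (Finset.range (N + m).succ).erase m,
          (|α.coeff k| + |β.coeff k|) * (2 * L (2 * N - 1)) := by
          apply Finset.sum_le_sum
          intro k hk
          rw [Finset.mem_erase, Finset.mem_range] at hk
          rcases Nat.lt_or_ge k m with h3 | h3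
          · rw [(hm2 k h3).1, (hm2 k h3).2]
            simp
          · have h4 : m < k := by omega
            have e1 : |x.1 (N + m - k)| ≤ 2 * L (2 * N - 1) := by
              refine (hu _).trans ?_
              have := hm (show 2 * (N + m - k) ≤ 2 * N - 1 by omega)
              linarith
            have e2 : |x.2 (N + m - k)| ≤ 2 * L (2 * N - 1) := by
              refine (hv _).trans ?_
              have := hm (show 2 * (N + m - k) + 1 ≤ 2 * N - 1 by omega)
              linarith
            refine (abs_add_le _ _).trans ?_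
            rw [abs_mul, abs_mul, add_mul]
            exact add_le_add (mul_le_mul_of_nonneg_left e1 (abs_nonneg _))
              (mul_le_mul_of_nonneg_left e2 (abs_nonneg _))
      _ = (∑ k ∈ (Finset.range (N + m).succ).erase m, |α.coeff k| +
          ∑ k ∈ (Finset.range (N + m).succ).erase m, |β.coeff k|) * (2 * L (2 * N - 1)) := by
          rw [← Finset.sum_add_distrib, Finset.sum_mul]
      _ ≤ C * (2 * L (2 * N - 1)) := by
          apply mul_le_mul_of_nonneg_right (add_le_add (hC1' _) (hC2' _))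
          have := hL (2 * N - 1)
          linarith
  have hCn : 0 ≤ C := add_nonneg hC1 hC2
  have hone : ∀ z : ℤ, z ≠ 0 → 1 ≤ |z| := fun z hz => Int.one_le_abs hz
  by_cases hb : β.coeff m = 0
  · have ha : α.coeff m ≠ 0 := by
      rcases hm1 with h | h
      · exact h
      · exact absurd hb h
    obtain ⟨i0, hi0⟩ := hgr (2 * C)
    have k1 := key (i0 + 1) (by omega)
    rw [hb, zero_mul, add_zero, abs_mul] at k1
    have k2 := hi0 (2 * (i0 + 1) - 1) (by omega)
    rw [show 2 * (i0 + 1) - 1 + 1 = 2 * (i0 + 1) by omega] at k2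
    have k3 : L (2 * (i0 + 1)) ≤ |x.1 (i0 + 1)| := (hx _).1.trans (le_abs_self _)
    have k4 : |x.1 (i0 + 1)| ≤ |α.coeff m| * |x.1 (i0 + 1)| :=
      le_mul_of_one_le_left (abs_nonneg _) (hone _ ha)
    linarith
  · obtain ⟨i0, hi0⟩ := hgr (4 * C)
    have k1 := key (i0 + 1) (by omega)
    have k2 := hi0 (2 * (i0 + 1)) (by omega)
    have k3 : L (2 * (i0 + 1) + 1) ≤ |x.2 (i0 + 1)| := (hx _).2.2.1.trans (le_abs_self _)
    have k4 : |x.2 (i0 + 1)| ≤ |β.coeff m| * |x.2 (i0 + 1)| :=
      le_mul_of_one_le_left (abs_nonneg _) (hone _ hb)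
    have k5 : |α.coeff m| ≤ C := by
      have := hC1' {m}
      rw [Finset.sum_singleton] at this
      linarith
    have k6 : |α.coeff m| * |x.1 (i0 + 1)| ≤ C * (2 * L (2 * (i0 + 1))) :=
      mul_le_mul k5 (hu _) (abs_nonneg _) hCn
    have k7 : L (2 * (i0 + 1) - 1) ≤ L (2 * (i0 + 1)) := hm (by omega)
    have k8 : C * (2 * L (2 * (i0 + 1) - 1)) ≤ C * (2 * L (2 * (i0 + 1))) :=
      mul_le_mul_of_nonneg_left (by linarith) hCn
    have k9 : |β.coeff m * x.2 (i0 + 1)| ≤ |α.coeff m * x.1 (i0 + 1) + β.coeff m * x.2 (i0 + 1)| +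
        |α.coeff m * x.1 (i0 + 1)| := by
      have := abs_sub_abs_le_abs_sub (β.coeff m * x.2 (i0 + 1)) (-(α.coeff m * x.1 (i0 + 1)))
      rw [abs_neg, sub_neg_eq_add, add_comm (β.coeff m * x.2 (i0 + 1))] at this
      linarith
    rw [abs_mul, abs_mul (α.coeff m)] at k9
    linarith

/-! ### Matrices -/

/-- the words act by matrices of polynomials -/
def Rep (h : FreeGroup Bool) : Prop := ∃ a b c d : ℤ[X],
  (∀ x : W, PowerSeries.mk (act h x).1 = (a : PowerSeries ℤ) * PowerSeries.mk x.1 +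
      (b : PowerSeries ℤ) * PowerSeries.mk x.2 ∧
    PowerSeries.mk (act h x).2 = (c : PowerSeries ℤ) * PowerSeries.mk x.1 +
      (d : PowerSeries ℤ) * PowerSeries.mk x.2) ∧
  ∀ p : NV, (FreeGroup.lift tg h p).1.1 = a.eval 5 * p.1.1 + b.eval 5 * p.1.2 ∧
    (FreeGroup.lift tg h p).1.2 = c.eval 5 * p.1.1 + d.eval 5 * p.1.2

theorem mk_sh (v : ℕ → ℤ) : PowerSeries.mk (sh v) = PowerSeries.X * PowerSeries.mk v := by
  ext n
  cases n with
  | zero => simp [sh]
  | succ n => simp [sh, PowerSeries.coeff_succ_X_mul]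

theorem mk_add (u v : ℕ → ℤ) : PowerSeries.mk (u + v) = PowerSeries.mk u + PowerSeries.mk v := by
  ext n
  simp

theorem mk_sub (u v : ℕ → ℤ) : PowerSeries.mk (u - v) = PowerSeries.mk u - PowerSeries.mk v := by
  ext n
  simp

theorem rep (h : FreeGroup Bool) : Rep h := by
  induction h using FreeGroup.induction_on with
  | C1 =>
    refine ⟨1, 0, 0, 1, fun x => ?_, fun p => ?_⟩
    · simp
    · simp
  | of i =>
    cases i
    · refine ⟨1, 0, 1, 1, fun x => ?_, fun p => ?_⟩
      · have h1 : act (FreeGroup.of false) x = (x.1, x.2 + x.1) := by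
          rw [act, FreeGroup.lift_apply_of]; rfl
        rw [h1]
        simp only [mk_add, Polynomial.coe_one, Polynomial.coe_zero]
        constructor <;> ring
      · have h1 : (FreeGroup.lift tg (FreeGroup.of false) p).1 = (p.1.1, p.1.2 + p.1.1) := by
          rw [FreeGroup.lift_apply_of]; rfl
        rw [h1]
        simp only [Polynomial.eval_one, Polynomial.eval_zero]
        constructor <;> ring
    · refine ⟨1, X, 0, 1, fun x => ?_, fun p => ?_⟩
      · have h1 : act (FreeGroup.of true) x = (x.1 + sh x.2, x.2) := by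
          rw [act, FreeGroup.lift_apply_of]; rfl
        rw [h1]
        simp only [mk_add, mk_sh, Polynomial.coe_one, Polynomial.coe_zero, Polynomial.coe_X]
        constructor <;> ring
      · have h1 : (FreeGroup.lift tg (FreeGroup.of true) p).1 = (p.1.1 + 5 * p.1.2, p.1.2) := by
          rw [FreeGroup.lift_apply_of]; rfl
        rw [h1]
        simp only [Polynomial.eval_one, Polynomial.eval_zero, Polynomial.eval_X]
        constructor <;> ring
  | inv_of i _ =>
    cases i
    · refine ⟨1, 0, -1, 1, fun x => ?_, fun p => ?_⟩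
      · have h1 : act (FreeGroup.of false)⁻¹ x = (x.1, x.2 - x.1) := by
          rw [act, map_inv, FreeGroup.lift_apply_of]; rfl
        rw [h1]
        simp only [mk_sub, Polynomial.coe_one, Polynomial.coe_zero, Polynomial.coe_neg]
        constructor <;> ring
      · have h1 : (FreeGroup.lift tg (FreeGroup.of false)⁻¹ p).1 = (p.1.1, p.1.2 - p.1.1) := by
          rw [map_inv, FreeGroup.lift_apply_of]; rfl
        rw [h1]
        simp only [Polynomial.eval_one, Polynomial.eval_zero, Polynomial.eval_neg]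
        constructor <;> ring
    · refine ⟨1, -X, 0, 1, fun x => ?_, fun p => ?_⟩
      · have h1 : act (FreeGroup.of true)⁻¹ x = (x.1 - sh x.2, x.2) := by
          rw [act, map_inv, FreeGroup.lift_apply_of]; rfl
        rw [h1]
        simp only [mk_sub, mk_sh, Polynomial.coe_one, Polynomial.coe_zero, Polynomial.coe_X,
          Polynomial.coe_neg]
        constructor <;> ring
      · have h1 : (FreeGroup.lift tg (FreeGroup.of true)⁻¹ p).1 = (p.1.1 - 5 * p.1.2, p.1.2) := by
          rw [map_inv, FreeGroup.lift_apply_of]; rfl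
        rw [h1]
        simp only [Polynomial.eval_one, Polynomial.eval_zero, Polynomial.eval_neg,
          Polynomial.eval_X]
        constructor <;> ring
  | mul g h ihg ihh =>
    obtain ⟨a, b, c, d, h1, h2⟩ := ihg
    obtain ⟨a', b', c', d', h3, h4⟩ := ihh
    refine ⟨a * a' + b * c', a * b' + b * d', c * a' + d * c', c * b' + d * d',
      fun x => ?_, fun p => ?_⟩
    · have e : act (g * h) x = act g (act h x) := by rw [map_mul]; rfl
      rw [e, (h1 _).1, (h1 _).2, (h3 _).1, (h3 _).2]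
      simp only [Polynomial.coe_add, Polynomial.coe_mul]
      constructor <;> ring
    · have e : FreeGroup.lift tg (g * h) p = FreeGroup.lift tg g (FreeGroup.lift tg h p) := by
        rw [map_mul]; rfl
      rw [e, (h2 _).1, (h2 _).2, (h4 _).1, (h4 _).2]
      simp only [Polynomial.eval_add, Polynomial.eval_mul]
      constructor <;> ring

end FreeAux

theorem act_free (L : ℕ → ℤ) (hL : ∀ i, 0 < L i) (hm : Monotone L)
    (hgr : ∀ C : ℤ, ∃ i₀, ∀ i, i₀ ≤ i → C * L i < L (i + 1)) (x : W)
    (hx : ∀ k, L (2 * k) ≤ x.1 k ∧ x.1 k < 2 * L (2 * k) ∧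
      L (2 * k + 1) ≤ x.2 k ∧ x.2 k < 2 * L (2 * k + 1))
    (h : FreeGroup Bool) (hh : act h x = x) : h = 1 := by
  obtain ⟨a, b, c, d, h1, h2⟩ := FreeAux.rep h
  have e1 := (h1 x).1
  have e2 := (h1 x).2
  rw [hh] at e1 e2
  obtain ⟨f1, f2⟩ := FreeAux.dom L hL hm hgr x hx (a - 1) b (by
    rw [Polynomial.coe_sub, Polynomial.coe_one, sub_mul, one_mul]
    linear_combination -e1)
  obtain ⟨f3, f4⟩ := FreeAux.dom L hL hm hgr x hx c (d - 1) (by
    rw [Polynomial.coe_sub, Polynomial.coe_one, sub_mul, one_mul]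
    linear_combination -e2)
  have f1' : a = 1 := sub_eq_zero.1 f1
  have f4' : d = 1 := sub_eq_zero.1 f4
  subst f1' f2 f3 f4'
  apply FreeAux.tg_inj
  rw [map_one]
  apply Equiv.ext
  intro p
  apply Subtype.ext
  apply Prod.ext
  · rw [(h2 p).1]
    simp
  · rw [(h2 p).2]
    simp

end Pool.Agent.Helper17.BHC
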