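import Pool.Agent.Helper17.BHC.Defs

/-! The quasi-identity. -/

set_option autoImplicit false

namespace Pool.Agent.Helper17.BHC

open Pool.Agent.Helper56.QV

universe u

/-- `t⁻¹` conjugates. -/
def tcj (s t : Tm) : Tm := .mul (.mul s t) (.inv s)

/-- The variables. -/
def ve : Tm := .var 0
def vs : Tm := .var 1
def vb : Tm := .var 2
def vf : Tm := .var 3

/-- The quasi-identity, in the variables e, s, b, f:
`1 ≤ f ≤ e`, `s f = f s`, `|b| ∧ f = 1`, `e` commutes with `s e s⁻¹` and with `s² e s⁻²`,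
`b e = e (s e s⁻¹) b`, `b` commutes with `s e s⁻¹` and with `s²`; conclusion `f = 1`. -/
def phi : QId where
  prem :=
    [(.sup .one vf, vf), (.sup vf ve, ve), (.mul vs vf, .mul vf vs),
      (.inf (.sup vb (.inv vb)) vf, .one), (.mul ve (tcj vs ve), .mul (tcj vs ve) ve),
      (.mul ve (tcj (.mul vs vs) ve), .mul (tcj (.mul vs vs) ve) ve),
      (.mul vb ve, .mul (.mul ve (tcj vs ve)) vb), (.mul vb (tcj vs ve), .mul (tcj vs ve) vb),
      (.mul (.mul vs vs) vb, .mul vb (.mul vs vs))]
  concl := (vf, .one)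

theorem phi_holds_iff (G : Type u) [LGroup G] :
    phi.Holds G ↔ ∀ e s b f : G, Cfg e s b f → f = 1 := by
  constructor
  · intro h e s b f hc
    have := h (fun n => match n with | 0 => e | 1 => s | 2 => b | _ => f) ?_
    · simpa [phi, vf, Tm.eval] using this
    · intro q hq
      simp only [phi, List.mem_cons, List.not_mem_nil, or_false] at hq
      rcases hq with rfl | rfl | rfl | rfl | rfl | rfl | rfl | rfl | rfl
      · simpa [ve, vs, vb, vf, tcj, Tm.eval] using hc.one_le
      · simpa [ve, vs, vb, vf, tcj, Tm.eval] using hc.le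
      · simpa only [ve, vs, vb, vf, tcj, Tm.eval] using hc.sf
      · simpa only [ve, vs, vb, vf, tcj, Tm.eval] using hc.bf
      · simpa only [ve, vs, vb, vf, tcj, Tm.eval] using hc.c1
      · simpa only [ve, vs, vb, vf, tcj, Tm.eval] using hc.c2
      · simpa only [ve, vs, vb, vf, tcj, Tm.eval] using hc.be
      · simpa only [ve, vs, vb, vf, tcj, Tm.eval] using hc.b1
      · simpa only [ve, vs, vb, vf, tcj, Tm.eval] using hc.sb
  · intro h x hx
    have hx' : ∀ q ∈ phi.prem, q.1.eval x = q.2.eval x := hx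
    simp only [phi, List.mem_cons, List.not_mem_nil, or_false, forall_eq_or_imp, forall_eq, ve,
      vs, vb, vf, tcj, Tm.eval] at hx'
    obtain ⟨h1, h2, h3, h4, h5, h6, h7, h8, h9⟩ := hx'
    exact h (x 0) (x 1) (x 2) (x 3) ⟨by simpa using h1, by simpa using h2, h3, h4, h5, h6, h7,
      h8, h9⟩

end Pool.Agent.Helper17.BHC
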