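import Pool.Agent.Helper17.BHC.Defs

/-! Towers of commuting automorphisms of the real line and the real numbers they define. -/

set_option autoImplicit false

namespace Pool.Agent.Helper17.BHC

open Filter Topology

/-- A tower. -/
structure Tow (E : ℤ → ℝ ≃o ℝ) (p : ℝ) : Prop where
  comm : ∀ m n, Commute (E m) (E n)
  dom : ∀ (n k : ℤ) (y : ℝ), (E (n + 1) ^ k) y ≤ E n y
  lt : ∀ n, p < E n p

namespace Tow

variable {E : ℤ → ℝ ≃o ℝ} {p : ℝ}

theorem le (h : Tow E p) (n : ℤ) (y : ℝ) : y ≤ E n y := by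
  have := h.dom n 0 y
  simpa using this

theorem low (h : Tow E p) (n k : ℤ) (y : ℝ) : (E n)⁻¹ y ≤ (E (n + 1) ^ k) y := by
  have h1 := h.dom n (-k) ((E (n + 1) ^ k) y)
  have h2 : (E (n + 1) ^ (-k)) ((E (n + 1) ^ k) y) = y := by
    rw [← RelIso.mul_apply, ← zpow_add, neg_add_cancel, zpow_zero, RelIso.one_apply]
  rw [h2] at h1
  have h3 : (E n)⁻¹ y ≤ (E n)⁻¹ (E n ((E (n + 1) ^ k) y)) := (E n)⁻¹.monotone h1
  rwa [RelIso.inv_apply_self] at h3

theorem zpow_mono (h : Tow E p) (n : ℤ) {i j : ℤ} (hij : i ≤ j) (y : ℝ) :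
    (E n ^ i) y ≤ (E n ^ j) y := by
  obtain ⟨d, rfl⟩ := Int.le.dest hij
  clear hij
  induction d with
  | zero => simp
  | succ d ih =>
    refine ih.trans ?_
    have : (E n ^ (i + ((d + 1 : ℕ) : ℤ))) y = E n ((E n ^ (i + (d : ℤ))) y) := by
      rw [← RelIso.mul_apply, ← zpow_one_add]
      congr 2
      push_cast
      ring
    rw [this]
    exact h.le n _

/-- Lower end of the orbit. -/
noncomputable def lam (E : ℤ → ℝ ≃o ℝ) (p : ℝ) (n : ℤ) : ℝ := ⨅ k : ℤ, (E n ^ k) p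

/-- Upper end of the orbit. -/
noncomputable def rho (E : ℤ → ℝ ≃o ℝ) (p : ℝ) (n : ℤ) : ℝ := ⨆ k : ℤ, (E n ^ k) p

theorem bddB (h : Tow E p) (n : ℤ) : BddBelow (Set.range fun k : ℤ => (E n ^ k) p) := by
  refine ⟨(E (n - 1))⁻¹ p, ?_⟩
  rintro _ ⟨k, rfl⟩
  have := h.low (n - 1) k p
  rwa [sub_add_cancel] at this

theorem bddA (h : Tow E p) (n : ℤ) : BddAbove (Set.range fun k : ℤ => (E n ^ k) p) := by
  refine ⟨E (n - 1) p, ?_⟩
  rintro _ ⟨k, rfl⟩
  have := h.dom (n - 1) k p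
  rwa [sub_add_cancel] at this

theorem lam_le (h : Tow E p) (n k : ℤ) : lam E p n ≤ (E n ^ k) p := ciInf_le (h.bddB n) k

theorem le_rho (h : Tow E p) (n k : ℤ) : (E n ^ k) p ≤ rho E p n := le_ciSup (h.bddA n) k

/-- Automorphisms commuting with `E n` and fixing `p` fix the lower end. -/
theorem map_lam_of (h : Tow E p) (n : ℤ) (g : ℝ ≃o ℝ) (hg : Commute g (E n)) (hp : g p = p) :
    g (lam E p n) = lam E p n := by
  rw [lam, g.map_ciInf (h.bddB n)]
  congr 1
  funext k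
  rw [← RelIso.mul_apply, (hg.zpow_right k).eq, RelIso.mul_apply, hp]

theorem map_lam_self (h : Tow E p) (n : ℤ) : E n (lam E p n) = lam E p n := by
  rw [lam, (E n).map_ciInf (h.bddB n)]
  refine le_antisymm ?_ ?_
  · refine le_ciInf fun k => ?_
    have hb : BddBelow (Set.range fun k : ℤ => E n ((E n ^ k) p)) := by
      refine ⟨lam E p n, ?_⟩
      rintro _ ⟨k, rfl⟩
      change lam E p n ≤ E n ((E n ^ k) p)
      rw [← RelIso.mul_apply, ← zpow_one_add]
      exact h.lam_le n _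
    refine (ciInf_le hb (k - 1)).trans ?_
    change E n ((E n ^ (k - 1)) p) ≤ _
    rw [← RelIso.mul_apply, ← zpow_one_add]
    apply le_of_eq
    congr 2
    ring
  · refine le_ciInf fun k => ?_
    have := h.lam_le n (1 + k)
    rw [zpow_one_add, RelIso.mul_apply] at this
    exact this

theorem map_lam_zpow (h : Tow E p) (n k : ℤ) : (E n ^ k) (lam E p n) = lam E p n := by
  have h1 := h.map_lam_self n
  have h2 : (E n)⁻¹ (lam E p n) = lam E p n := by
    conv_lhs => rw [← h1]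
    rw [RelIso.inv_apply_self]
  have hpos : ∀ m : ℕ, (E n ^ (m : ℤ)) (lam E p n) = lam E p n := by
    intro m
    induction m with
    | zero => simp
    | succ m ih =>
      rw [show ((m + 1 : ℕ) : ℤ) = 1 + (m : ℤ) by push_cast; ring, zpow_one_add,
        RelIso.mul_apply, ih, h1]
  have hneg : ∀ m : ℕ, (E n ^ (-(m : ℤ))) (lam E p n) = lam E p n := by
    intro m
    induction m with
    | zero => simp
    | succ m ih =>
      rw [show (-((m + 1 : ℕ) : ℤ)) = -1 + (-(m : ℤ)) by push_cast; ring, zpow_add,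
        RelIso.mul_apply, ih, zpow_neg_one, h2]
  rcases Int.eq_nat_or_neg k with ⟨m, rfl | rfl⟩
  · exact hpos m
  · exact hneg m

theorem lam_lt_lam (h : Tow E p) (n : ℤ) : lam E p n < lam E p (n + 1) := by
  have h1 : (E n)⁻¹ p ≤ lam E p (n + 1) := le_ciInf fun k => h.low n k p
  have h2 : lam E p n ≤ (E n ^ (-2 : ℤ)) p := h.lam_le n _
  have h3 : (E n ^ (-2 : ℤ)) p < (E n)⁻¹ p := by
    rw [show (-2 : ℤ) = -1 + -1 by norm_num, zpow_add, zpow_neg_one, RelIso.mul_apply]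
    apply (E n)⁻¹.strictMono
    have := (E n)⁻¹.strictMono (h.lt n)
    rwa [RelIso.inv_apply_self] at this
  exact h2.trans_lt (h3.trans_le h1)

theorem rho_lt_rho (h : Tow E p) (n : ℤ) : rho E p (n + 1) < rho E p n := by
  have h1 : rho E p (n + 1) ≤ E n p := ciSup_le fun k => h.dom n k p
  have h2 : (E n ^ (2 : ℤ)) p ≤ rho E p n := h.le_rho n _
  have h3 : E n p < (E n ^ (2 : ℤ)) p := by
    rw [show (2 : ℤ) = 1 + 1 by norm_num, zpow_add, zpow_one, RelIso.mul_apply]
    exact (E n).strictMono (h.lt n)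
  exact (h1.trans_lt h3).trans_le h2

theorem lam_lt_rho (h : Tow E p) (n : ℤ) : lam E p n < rho E p n := by
  have h1 := h.lam_le n 0
  have h2 := h.le_rho n 1
  rw [zpow_zero, RelIso.one_apply] at h1
  rw [zpow_one] at h2
  exact h1.trans_lt ((h.lt n).trans_le h2)

theorem rho_le (h : Tow E p) (n : ℤ) : rho E p (n + 1) ≤ E n (lam E p (n + 1)) := by
  refine ciSup_le fun k => ?_
  rw [lam, (E n).map_ciInf (h.bddB (n + 1))]
  refine le_ciInf fun m => ?_
  have := h.dom n (k - m) ((E (n + 1) ^ m) p)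
  rwa [← RelIso.mul_apply, ← zpow_add, sub_add_cancel] at this

/-- Products of powers. -/
noncomputable def pr (E : ℤ → ℝ ≃o ℝ) (x : ℕ → ℤ) : ℕ → ℝ ≃o ℝ
  | 0 => 1
  | n + 1 => pr E x n * E n ^ x n

/-- Left end of the interval at level n. -/
noncomputable def lt' (E : ℤ → ℝ ≃o ℝ) (p : ℝ) (x : ℕ → ℤ) (n : ℕ) : ℝ := pr E x n (lam E p n)

/-- Right end of the interval at level n. -/
noncomputable def rt' (E : ℤ → ℝ ≃o ℝ) (p : ℝ) (x : ℕ → ℤ) (n : ℕ) : ℝ := pr E x n (rho E p n)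

theorem lt'_lt (h : Tow E p) (x : ℕ → ℤ) (n : ℕ) : lt' E p x n < lt' E p x (n + 1) := by
  unfold lt'
  rw [pr, RelIso.mul_apply]
  apply (pr E x n).strictMono
  have h1 := h.lam_lt_lam n
  have h2 := (E n ^ x n).strictMono h1
  rw [h.map_lam_zpow] at h2
  exact_mod_cast h2

theorem map_rho_self (h : Tow E p) (n : ℤ) : E n (rho E p n) = rho E p n := by
  rw [rho, (E n).map_ciSup (h.bddA n)]
  refine le_antisymm ?_ ?_
  · refine ciSup_le fun k => ?_
    have := h.le_rho n (1 + k)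
    rw [zpow_one_add, RelIso.mul_apply] at this
    exact this
  · refine ciSup_le fun k => ?_
    have hb : BddAbove (Set.range fun k : ℤ => E n ((E n ^ k) p)) := by
      refine ⟨rho E p n, ?_⟩
      rintro _ ⟨k, rfl⟩
      change E n ((E n ^ k) p) ≤ rho E p n
      rw [← RelIso.mul_apply, ← zpow_one_add]
      exact h.le_rho n _
    refine le_trans ?_ (le_ciSup hb (k - 1))
    change _ ≤ E n ((E n ^ (k - 1)) p)
    rw [← RelIso.mul_apply, ← zpow_one_add]
    apply le_of_eq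
    congr 2
    ring

theorem map_rho_zpow (h : Tow E p) (n k : ℤ) : (E n ^ k) (rho E p n) = rho E p n := by
  have h1 := h.map_rho_self n
  have h2 : (E n)⁻¹ (rho E p n) = rho E p n := by
    conv_lhs => rw [← h1]
    rw [RelIso.inv_apply_self]
  have hpos : ∀ m : ℕ, (E n ^ (m : ℤ)) (rho E p n) = rho E p n := by
    intro m
    induction m with
    | zero => simp
    | succ m ih =>
      rw [show ((m + 1 : ℕ) : ℤ) = 1 + (m : ℤ) by push_cast; ring, zpow_one_add,
        RelIso.mul_apply, ih, h1]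
  have hneg : ∀ m : ℕ, (E n ^ (-(m : ℤ))) (rho E p n) = rho E p n := by
    intro m
    induction m with
    | zero => simp
    | succ m ih =>
      rw [show (-((m + 1 : ℕ) : ℤ)) = -1 + (-(m : ℤ)) by push_cast; ring, zpow_add,
        RelIso.mul_apply, ih, zpow_neg_one, h2]
  rcases Int.eq_nat_or_neg k with ⟨m, rfl | rfl⟩
  · exact hpos m
  · exact hneg m

theorem rt'_lt (h : Tow E p) (x : ℕ → ℤ) (n : ℕ) : rt' E p x (n + 1) < rt' E p x n := by
  unfold rt'
  rw [pr, RelIso.mul_apply]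
  apply (pr E x n).strictMono
  have h1 := h.rho_lt_rho n
  have h2 := (E n ^ x n).strictMono h1
  rw [h.map_rho_zpow] at h2
  exact_mod_cast h2

theorem lt'_lt_rt' (h : Tow E p) (x : ℕ → ℤ) (n : ℕ) : lt' E p x n < rt' E p x n :=
  (pr E x n).strictMono (h.lam_lt_rho n)

theorem lt'_mono (h : Tow E p) (x : ℕ → ℤ) : StrictMono (lt' E p x) :=
  strictMono_nat_of_lt_succ (h.lt'_lt x)

theorem rt'_anti (h : Tow E p) (x : ℕ → ℤ) : StrictAnti (rt' E p x) :=
  strictAnti_nat_of_succ_lt (h.rt'_lt x)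

theorem lt'_lt_rt (h : Tow E p) (x : ℕ → ℤ) (m n : ℕ) : lt' E p x m < rt' E p x n := by
  rcases le_total m n with hmn | hmn
  · exact ((h.lt'_mono x).monotone hmn).trans_lt (h.lt'_lt_rt' x n)
  · exact (h.lt'_lt_rt' x m).trans_le ((h.rt'_anti x).antitone hmn)

/-- The real number of a sequence. -/
noncomputable def pt (E : ℤ → ℝ ≃o ℝ) (p : ℝ) (x : ℕ → ℤ) : ℝ := ⨆ n, lt' E p x n

theorem bdd_lt' (h : Tow E p) (x : ℕ → ℤ) : BddAbove (Set.range (lt' E p x)) := by
  refine ⟨rt' E p x 0, ?_⟩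
  rintro _ ⟨n, rfl⟩
  exact (h.lt'_lt_rt x n 0).le

theorem tendsto_pt (h : Tow E p) (x : ℕ → ℤ) : Tendsto (lt' E p x) atTop (𝓝 (pt E p x)) :=
  tendsto_atTop_ciSup (h.lt'_mono x).monotone (h.bdd_lt' x)

theorem lt_pt (h : Tow E p) (x : ℕ → ℤ) (n : ℕ) : lt' E p x n < pt E p x :=
  (h.lt'_lt x n).trans_le (le_ciSup (h.bdd_lt' x) (n + 1))

theorem pt_lt (h : Tow E p) (x : ℕ → ℤ) (n : ℕ) : pt E p x < rt' E p x n :=
  (ciSup_le fun m => (h.lt'_lt_rt x m (n + 1)).le).trans_lt (h.rt'_lt x n)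

theorem pr_congr {x y : ℕ → ℤ} {n : ℕ} (hxy : ∀ i < n, x i = y i) : pr E x n = pr E y n := by
  induction n with
  | zero => rfl
  | succ n ih =>
    rw [pr, pr, ih fun i hi => hxy i (Nat.lt_succ_of_lt hi), hxy n (Nat.lt_succ_self n)]

theorem pt_lt_pt (h : Tow E p) {x y : ℕ → ℤ} {n : ℕ} (hxy : ∀ i < n, x i = y i)
    (hn : x n < y n) : pt E p x < pt E p y := by
  refine (h.pt_lt x (n + 1)).trans_le ((?_ : rt' E p x (n + 1) ≤ lt' E p y (n + 1)).trans
    (h.lt_pt y (n + 1)).le)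
  unfold rt' lt'
  rw [pr, pr, pr_congr hxy, RelIso.mul_apply, RelIso.mul_apply]
  apply (pr E y n).monotone
  push_cast
  have h1 := (E n ^ x n).monotone (h.rho_le n)
  refine h1.trans ?_
  rw [← RelIso.mul_apply, ← zpow_add_one]
  exact h.zpow_mono n (by omega) _

theorem pt_injective (h : Tow E p) : Function.Injective (pt E p) := by
  intro x y hxy
  by_contra hne
  have hex : ∃ n, x n ≠ y n := by
    by_contra hc
    push Not at hc
    exact hne (funext hc)
  classical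
  have h1 := Nat.find_spec hex
  have h2 : ∀ i < Nat.find hex, x i = y i := fun i hi => by
    have := Nat.find_min hex hi
    push Not at this
    exact this
  rcases lt_or_gt_of_ne h1 with h3 | h3
  · exact absurd hxy (h.pt_lt_pt h2 h3).ne
  · exact absurd hxy (h.pt_lt_pt (fun i hi => (h2 i hi).symm) h3).ne'

theorem measurable_of_dep (n : ℕ) (f : (ℕ → ℤ) → ℝ)
    (hf : ∀ x y : ℕ → ℤ, (∀ i < n, x i = y i) → f x = f y) : Measurable f := by
  have h1 : f = (fun v : Fin n → ℤ => f fun i => if hi : i < n then v ⟨i, hi⟩ else 0) ∘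
      fun (x : ℕ → ℤ) (i : Fin n) => x i := by
    funext x
    apply hf
    intro i hi
    simp [hi]
  rw [h1]
  exact (measurable_of_countable _).comp (measurable_pi_lambda _ fun i => measurable_pi_apply _)

theorem measurable_pt (h : Tow E p) : Measurable (pt E p) := by
  refine measurable_of_tendsto_metrizable (f := fun n x => lt' E p x n) (fun n => ?_)
    (tendsto_pi_nhds.2 fun x => h.tendsto_pt x)
  refine measurable_of_dep n _ fun x y hxy => ?_
  change pr E x n _ = pr E y n _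
  rw [pr_congr hxy]

end Tow

end Pool.Agent.Helper17.BHC
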